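import Mathlib

namespace Pool.Agent.P.MP_f9323a_an

open Finset

/-- window -/
noncomputable def W (c : ℤ) (r : ℕ) : Finset ℤ := Finset.Icc (c - r) (c + r)

/-- window length -/
def len (r : ℕ) : ℝ := 2 * (r : ℝ) + 1

noncomputable def S (g : ℤ → ℝ) (c : ℤ) (r : ℕ) : ℝ := ∑ x ∈ W c r, g x

noncomputable def A (α : ℝ) (g : ℤ → ℝ) (c : ℤ) (r : ℕ) : ℝ := S g c r / len r ^ α

noncomputable def av (g : ℤ → ℝ) (c : ℤ) (r : ℕ) : ℝ := S g c r / len r

def Good (α : ℝ) (g : ℤ → ℝ) (c : ℤ) (r : ℕ) : Prop := ∀ s, A α g c s ≤ A α g c r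

theorem len_ge (r : ℕ) : 1 ≤ len r := by
  unfold len; have : (0 : ℝ) ≤ r := Nat.cast_nonneg r; linarith

theorem len_pos (r : ℕ) : 0 < len r := lt_of_lt_of_le one_pos (len_ge r)

theorem card_W (c : ℤ) (r : ℕ) : ((W c r).card : ℝ) = len r := by
  unfold W len
  rw [Int.card_Icc]
  have : (c + r + 1 - (c - r)).toNat = 2 * r + 1 := by omega
  rw [this]; push_cast; ring

theorem mem_W {c x : ℤ} {r : ℕ} : x ∈ W c r ↔ c - r ≤ x ∧ x ≤ c + r := by
  simp [W]

theorem S_nonneg {g : ℤ → ℝ} (hg : ∀ x, 0 ≤ g x) (c : ℤ) (r : ℕ) : 0 ≤ S g c r :=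
  Finset.sum_nonneg (fun x _ => hg x)

theorem S_mono {g : ℤ → ℝ} (hg : ∀ x, 0 ≤ g x) {c c' : ℤ} {r r' : ℕ}
    (h1 : c' - r' ≤ c - r) (h2 : c + r ≤ c' + r') : S g c r ≤ S g c' r' := by
  apply Finset.sum_le_sum_of_subset_of_nonneg
  · intro x hx
    rw [mem_W] at hx ⊢
    omega
  · intro x _ _; exact hg x

theorem A_nonneg {α : ℝ} {g : ℤ → ℝ} (hg : ∀ x, 0 ≤ g x) (c : ℤ) (r : ℕ) : 0 ≤ A α g c r :=
  div_nonneg (S_nonneg hg c r) (Real.rpow_nonneg (len_pos r).le _)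

theorem av_nonneg {g : ℤ → ℝ} (hg : ∀ x, 0 ≤ g x) (c : ℤ) (r : ℕ) : 0 ≤ av g c r :=
  div_nonneg (S_nonneg hg c r) (len_pos r).le

/-- comparison with a covering window -/
theorem A_cover {α : ℝ} (hα0 : 0 ≤ α) (hα1 : α ≤ 1) {g : ℤ → ℝ} (hg : ∀ x, 0 ≤ g x)
    {c c' : ℤ} {r t : ℕ} (h1 : c' - t ≤ c - r) (h2 : c + r ≤ c' + t) {K : ℝ} (hK : 1 ≤ K)
    (hlen : len t ≤ K * len r) : A α g c r ≤ K * A α g c' t := by
  have hS := S_mono hg h1 h2
  have p1 : 0 < len r ^ α := Real.rpow_pos_of_pos (len_pos r) _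
  have p2 : 0 < len t ^ α := Real.rpow_pos_of_pos (len_pos t) _
  have h3 : len t ^ α ≤ K * len r ^ α := by
    calc len t ^ α ≤ (K * len r) ^ α := Real.rpow_le_rpow (len_pos t).le hlen hα0
      _ = K ^ α * len r ^ α := Real.mul_rpow (by linarith) (len_pos r).le
      _ ≤ K * len r ^ α := by
        apply mul_le_mul_of_nonneg_right _ p1.le
        calc K ^ α ≤ K ^ (1 : ℝ) := Real.rpow_le_rpow_of_exponent_le hK hα1
          _ = K := Real.rpow_one K
  unfold A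
  rw [← mul_div_assoc, div_le_div_iff₀ p1 p2]
  have := S_nonneg hg c r
  calc S g c r * len t ^ α ≤ S g c' t * (K * len r ^ α) :=
        mul_le_mul hS h3 p2.le (S_nonneg hg c' t)
    _ = K * S g c' t * len r ^ α := by ring

theorem A_nbr {α : ℝ} (hα0 : 0 ≤ α) (hα1 : α ≤ 1) {g : ℤ → ℝ} (hg : ∀ x, 0 ≤ g x)
    {c c' : ℤ} (h1 : c' - 1 ≤ c) (h2 : c ≤ c' + 1) (r : ℕ) :
    A α g c r ≤ (1 + 2 / len r) * A α g c' (r + 1) := by
  have := len_pos r
  apply A_cover hα0 hα1 hg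
  · push_cast; omega
  · push_cast; omega
  · have : 0 < 2 / len r := by positivity
    linarith
  · rw [add_mul, div_mul_cancel₀ _ this.ne']
    unfold len; push_cast; linarith

theorem attained {α : ℝ} (hα0 : 0 ≤ α) (hα1 : α ≤ 1) {g : ℤ → ℝ} (hg : ∀ x, 0 ≤ g x)
    {m : ℤ → ℝ} (hm1 : ∀ c r, A α g c r ≤ m c) (hm2 : ∀ c b, (∀ r, A α g c r ≤ b) → m c ≤ b)
    {c c' : ℤ} (h1 : c' - 1 ≤ c) (h2 : c ≤ c' + 1) (hlt : m c' < m c) :
    ∃ r, Good α g c r := by
  have hm0 : 0 ≤ m c' := (A_nonneg hg c' 0).trans (hm1 c' 0)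
  set δ := (m c - m c') / 2 with hδ
  have hδ0 : 0 < δ := by rw [hδ]; linarith
  obtain ⟨r0, hr0⟩ := exists_nat_ge (m c' / δ)
  obtain ⟨r, _, hr⟩ := Finset.exists_max_image (Finset.range (r0 + 1)) (A α g c) ⟨0, by simp⟩
  have big : ∀ s, r0 ≤ s → A α g c s ≤ m c' + δ := by
    intro s hs
    have hl := len_pos s
    have a1 := A_nbr hα0 hα1 hg h1 h2 s
    have a2 : (1 + 2 / len s) * A α g c' (s + 1) ≤ (1 + 2 / len s) * m c' :=
      mul_le_mul_of_nonneg_left (hm1 _ _) (by positivity)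
    have a3 : 2 / len s * m c' ≤ δ := by
      rw [div_mul_eq_mul_div, div_le_iff₀ hl]
      rw [div_le_iff₀ hδ0] at hr0
      have : (r0 : ℝ) ≤ s := by exact_mod_cast hs
      unfold len
      nlinarith
    nlinarith
  have all : ∀ s, A α g c s ≤ max (A α g c r) (m c' + δ) := by
    intro s
    by_cases hs : r0 ≤ s
    · exact (big s hs).trans (le_max_right _ _)
    · exact (hr s (by simp; omega)).trans (le_max_left _ _)
  have := hm2 c _ all
  have h3 : m c ≤ A α g c r := by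
    rcases le_max_iff.1 this with h | h
    · exact h
    · exfalso; rw [hδ] at h; linarith
  exact ⟨r, fun s => (hm1 c s).trans h3⟩

/-- the basic increment bound -/
theorem incr {α q : ℝ} (hα0 : 0 < α) (hα1 : α ≤ 1) (hq : α * q = 1) {g : ℤ → ℝ}
    (hg : ∀ x, 0 ≤ g x)
    {m : ℤ → ℝ} (hm1 : ∀ c r, A α g c r ≤ m c) (hm2 : ∀ c b, (∀ r, A α g c r ≤ b) → m c ≤ b)
    {c c' : ℤ} (h1 : c' - 1 ≤ c) (h2 : c ≤ c' + 1) (hle : m c' ≤ m c) {r : ℕ}
    (hr : Good α g c r) : (m c - m c') ^ q ≤ 2 ^ q * (av g c r ^ q / len r) := by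
  have hl := len_pos r
  have hq0 : 0 < q := by
    by_contra h
    have : α * q ≤ 0 := mul_nonpos_of_nonneg_of_nonpos hα0.le (not_lt.1 h)
    linarith
  have a1 : m c ≤ A α g c r := hm2 c _ hr
  have a2 := A_nbr hα0.le hα1 hg h1 h2 r
  have a3 := hm1 c' (r + 1)
  have a4 : 0 < 2 / len r := by positivity
  have a5 : m c - m c' ≤ 2 / len r * A α g c r := by
    have : 2 / len r * A α g c' (r + 1) ≤ 2 / len r * A α g c r :=
      mul_le_mul_of_nonneg_left (a3.trans (hle.trans a1)) a4.le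
    nlinarith
  have p1 : 0 < len r ^ α := Real.rpow_pos_of_pos hl _
  have a6 : 2 / len r * A α g c r = 2 * (av g c r / len r ^ α) := by
    unfold A av; field_simp
  rw [a6] at a5
  have a0 := av_nonneg hg c r
  calc (m c - m c') ^ q ≤ (2 * (av g c r / len r ^ α)) ^ q :=
        Real.rpow_le_rpow (by linarith) a5 hq0.le
    _ = 2 ^ q * (av g c r ^ q / len r) := by
        rw [Real.mul_rpow (by norm_num) (by positivity), Real.div_rpow a0 p1.le,
          ← Real.rpow_mul hl.le, hq, Real.rpow_one]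

theorem tele (g : ℤ → ℝ) (x : ℤ) (n : ℕ) :
    |g (x + n) - g x| ≤ ∑ e ∈ Finset.Ico x (x + n), |g (e + 1) - g e| := by
  induction n with
  | zero => simp
  | succ n ih =>
    have : Finset.Ico x (x + ((n + 1 : ℕ) : ℤ)) = insert (x + n) (Finset.Ico x (x + n)) := by
      ext z; simp only [mem_Ico, mem_insert]; push_cast; omega
    rw [this, Finset.sum_insert (by simp)]
    have e : x + ((n + 1 : ℕ) : ℤ) = x + n + 1 := by push_cast; ring
    rw [e]
    have := abs_sub_le (g (x + n + 1)) (g (x + n)) (g x)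
    linarith

theorem tele_W (g : ℤ → ℝ) {c x y : ℤ} {s : ℕ} (hx : x ∈ W c s) (hy : y ∈ W c s) :
    |g y - g x| ≤ ∑ e ∈ W c s, |g (e + 1) - g e| := by
  wlog h : x ≤ y generalizing x y
  · rw [abs_sub_comm]; exact this hy hx (by omega)
  obtain ⟨n, rfl⟩ := Int.le.dest h
  refine (tele g x n).trans ?_
  apply Finset.sum_le_sum_of_subset_of_nonneg
  · intro z hz
    rw [mem_W] at hx hy ⊢
    rw [mem_Ico] at hz
    omega
  · intro z _ _; exact abs_nonneg _

theorem W_nonempty (c : ℤ) (r : ℕ) : (W c r).Nonempty := ⟨c, by rw [mem_W]; omega⟩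

theorem osc {α : ℝ} {g : ℤ → ℝ} {c : ℤ} {r : ℕ} (hr : Good α g c r) :
    (1 - 3 ^ α / 3) * av g c r ≤ ∑ e ∈ W c (3 * r + 1), |g (e + 1) - g e| := by
  have hl := len_pos r
  have hlen : len (3 * r + 1) = 3 * len r := by unfold len; push_cast; ring
  have p1 : 0 < len r ^ α := Real.rpow_pos_of_pos hl _
  have p3 : (0 : ℝ) < 3 ^ α := Real.rpow_pos_of_pos (by norm_num) _
  have h1 := hr (3 * r + 1)
  unfold A at h1
  rw [hlen, Real.mul_rpow (by norm_num) hl.le, div_le_div_iff₀ (by positivity) p1] at h1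
  have h2 : S g c (3 * r + 1) ≤ 3 ^ α * S g c r := by
    have : S g c (3 * r + 1) * len r ^ α ≤ (3 ^ α * S g c r) * len r ^ α := by linarith
    exact le_of_mul_le_mul_right this p1
  obtain ⟨x, hx, hx'⟩ : ∃ x ∈ W c r, av g c r ≤ g x := by
    apply Finset.exists_le_of_sum_le (W_nonempty c r)
    rw [Finset.sum_const, nsmul_eq_mul, card_W]
    unfold av
    rw [mul_div_cancel₀ _ hl.ne']
    exact le_rfl
  obtain ⟨y, hy, hy'⟩ : ∃ y ∈ W c (3 * r + 1), g y ≤ 3 ^ α / 3 * av g c r := by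
    apply Finset.exists_le_of_sum_le (W_nonempty c _)
    rw [Finset.sum_const, nsmul_eq_mul, card_W, hlen]
    have : 3 * len r * (3 ^ α / 3 * av g c r) = 3 ^ α * S g c r := by
      unfold av; field_simp
    rw [this]
    exact h2
  have hx2 : x ∈ W c (3 * r + 1) := by
    rw [mem_W] at hx ⊢; push_cast; omega
  have := tele_W g hy hx2
  have := le_abs_self (g x - g y)
  linarith

theorem decay {α : ℝ} (hα0 : 0 ≤ α) (hα1 : α ≤ 1) {g : ℤ → ℝ} (hg : ∀ x, 0 ≤ g x)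
    {c c' e : ℤ} {r r' : ℕ} (hr : Good α g c r) (he : e ∈ W c (3 * r + 1))
    (he' : e ∈ W c' (3 * r' + 1)) (hrr : r ≤ r') :
    av g c' r' ≤ 7 * av g c r * (len r / len r') ^ (1 - α) := by
  have hl := len_pos r
  have hl' := len_pos r'
  rw [mem_W] at he he'
  push_cast at he he'
  have h1 : A α g c' r' ≤ 7 * A α g c (7 * r' + 2) := by
    apply A_cover hα0 hα1 hg
    · push_cast; omega
    · push_cast; omega
    · norm_num
    · unfold len; push_cast; linarith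
  have h2 := hr (7 * r' + 2)
  have eA : ∀ (c : ℤ) (r : ℕ), A α g c r = av g c r * len r ^ (1 - α) := by
    intro c r
    have hl := len_pos r
    have p1 : 0 < len r ^ α := Real.rpow_pos_of_pos hl _
    unfold A av
    rw [Real.rpow_sub hl, Real.rpow_one]
    field_simp
  have h3 : av g c' r' * len r' ^ (1 - α) ≤ 7 * (av g c r * len r ^ (1 - α)) := by
    rw [← eA, ← eA]; linarith
  have p1 : 0 < len r' ^ (1 - α) := Real.rpow_pos_of_pos hl' _
  rw [Real.div_rpow hl.le hl'.le, ← mul_div_assoc, le_div_iff₀ p1]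
  linarith

theorem pow_step {γ x : ℝ} (hγ : 0 < γ) (hx : 0 < x) :
    γ * (x + 1) ^ (-(1 + γ)) ≤ x ^ (-γ) - (x + 1) ^ (-γ) := by
  have hy : 0 < x + 1 := by linarith
  have h1 : x ^ (-γ) = (x + 1) ^ (-γ) * Real.exp (γ * Real.log ((x + 1) / x)) := by
    rw [Real.rpow_def_of_pos hx, Real.rpow_def_of_pos hy, ← Real.exp_add,
      Real.log_div hy.ne' hx.ne']
    congr 1; ring
  have h2 : 1 / (x + 1) ≤ Real.log ((x + 1) / x) := by
    have := Real.one_sub_inv_le_log_of_pos (show 0 < (x + 1) / x by positivity)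
    have e : 1 - ((x + 1) / x)⁻¹ = 1 / (x + 1) := by field_simp; ring
    rwa [e] at this
  have h3 := Real.add_one_le_exp (γ * Real.log ((x + 1) / x))
  have h4 : (x + 1) ^ (-(1 + γ)) = (x + 1) ^ (-γ) * (1 / (x + 1)) := by
    rw [show -(1 + γ) = -γ + -1 by ring, Real.rpow_add hy, Real.rpow_neg_one, one_div]
  have p : 0 < (x + 1) ^ (-γ) := Real.rpow_pos_of_pos hy _
  rw [h4, h1]
  have h5 : γ * (1 / (x + 1)) ≤ γ * Real.log ((x + 1) / x) := mul_le_mul_of_nonneg_left h2 hγ.le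
  nlinarith

theorem pow_sum {γ R : ℝ} (hγ : 0 < γ) (hR : 1 ≤ R) (n : ℕ) :
    ∑ d ∈ Finset.range (n + 1), (R + d) ^ (-(1 + γ)) ≤
      (1 + 1 / γ) * R ^ (-γ) - (R + n) ^ (-γ) / γ := by
  induction n with
  | zero =>
    simp only [zero_add, range_one, sum_singleton, Nat.cast_zero, add_zero]
    have : R ^ (-(1 + γ)) ≤ R ^ (-γ) := Real.rpow_le_rpow_of_exponent_le hR (by linarith)
    have e : (1 + 1 / γ) * R ^ (-γ) - R ^ (-γ) / γ = R ^ (-γ) := by ring
    linarith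
  | succ n ih =>
    rw [Finset.sum_range_succ]
    have h := pow_step hγ (show 0 < R + n by have : (0 : ℝ) ≤ n := Nat.cast_nonneg n; linarith)
    have e : R + ((n + 1 : ℕ) : ℝ) = R + n + 1 := by push_cast; ring
    rw [e]
    have : (R + n + 1) ^ (-(1 + γ)) ≤ ((R + n) ^ (-γ) - (R + n + 1) ^ (-γ)) / γ := by
      rw [le_div_iff₀ hγ]; linarith
    have e2 : ((R + n) ^ (-γ) - (R + n + 1) ^ (-γ)) / γ =
      (R + n) ^ (-γ) / γ - (R + n + 1) ^ (-γ) / γ := by ring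
    linarith

theorem pow_sum_int {γ R : ℝ} (hγ : 0 < γ) (hR : 1 ≤ R) (e : ℤ) (N : Finset ℤ) :
    ∑ c ∈ N, (R + ((c - e).natAbs : ℝ)) ^ (-(1 + γ)) ≤ 2 * ((1 + 1 / γ) * R ^ (-γ)) := by
  classical
  obtain ⟨n, hn⟩ : ∃ n : ℕ, ∀ c ∈ N, (c - e).natAbs < n + 1 :=
    ⟨N.sup (fun c => (c - e).natAbs), fun c hc =>
      Nat.lt_succ_of_le (Finset.le_sup (f := fun c => (c - e).natAbs) hc)⟩
  rw [← Finset.sum_fiberwise_of_maps_to (g := fun c => (c - e).natAbs)
    (t := Finset.range (n + 1)) (fun c hc => by simpa using hn c hc)]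
  have h1 : ∀ d ∈ Finset.range (n + 1),
      ∑ c ∈ N with (c - e).natAbs = d, (R + ((c - e).natAbs : ℝ)) ^ (-(1 + γ)) ≤
        2 * (R + d) ^ (-(1 + γ)) := by
    intro d _
    have p : 0 ≤ (R + d) ^ (-(1 + γ)) := by positivity
    rw [Finset.sum_congr rfl (g := fun _ => (R + d) ^ (-(1 + γ)))
      (fun c hc => by rw [(Finset.mem_filter.1 hc).2]), Finset.sum_const, nsmul_eq_mul]
    apply mul_le_mul_of_nonneg_right _ p
    have : (N.filter (fun c => (c - e).natAbs = d)) ⊆ {e + d, e - d} := by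
      intro c hc
      have := (Finset.mem_filter.1 hc).2
      simp only [mem_insert, mem_singleton]
      omega
    have h2 := (Finset.card_le_card this).trans Finset.card_le_two
    exact_mod_cast h2
  refine (Finset.sum_le_sum h1).trans ?_
  rw [← Finset.mul_sum]
  have := pow_sum hγ hR n
  have p : 0 ≤ (R + n) ^ (-γ) / γ := by positivity
  linarith

/-- the sum over all optimal windows near a fixed edge -/
theorem edge_sum {α p B : ℝ} (hα0 : 0 ≤ α) (hα1 : α < 1) (hp : 0 < p) {g : ℤ → ℝ}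
    (hg : ∀ x, 0 ≤ g x) (ρ : ℤ → ℕ) (e : ℤ) (N : Finset ℤ)
    (hN : ∀ c ∈ N, Good α g c (ρ c) ∧ e ∈ W c (3 * ρ c + 1) ∧ av g c (ρ c) ≤ B) (hB : 0 ≤ B) :
    ∑ c ∈ N, av g c (ρ c) ^ p / len (ρ c) ≤
      (7 * B) ^ p * (3 ^ (1 + (1 - α) * p) * (2 * (1 + 1 / ((1 - α) * p)))) := by
  set γ := (1 - α) * p with hγ
  have hγ0 : 0 < γ := mul_pos (by linarith) hp
  rcases N.eq_empty_or_nonempty with rfl | hne
  · simp only [sum_empty]; positivity
  obtain ⟨c0, hc0, hmin⟩ := Finset.exists_min_image N ρ hne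
  set R := len (ρ c0) with hR
  have hR1 : 1 ≤ R := len_ge _
  have hR0 : 0 < R := by linarith
  have h1 : ∀ c ∈ N, av g c (ρ c) ^ p / len (ρ c) ≤
      (7 * B) ^ p * (3 ^ (1 + γ) * R ^ γ) * (R + ((c - e).natAbs : ℝ)) ^ (-(1 + γ)) := by
    intro c hc
    have hl := len_pos (ρ c)
    have d1 := decay hα0 hα1.le hg (hN c0 hc0).1 (hN c0 hc0).2.1 (hN c hc).2.1 (hmin c hc)
    have d2 : av g c (ρ c) ≤ 7 * B * (R / len (ρ c)) ^ (1 - α) := by
      refine d1.trans ?_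
      apply mul_le_mul_of_nonneg_right _ (by positivity)
      linarith [(hN c0 hc0).2.2]
    have d3 : av g c (ρ c) ^ p ≤ (7 * B) ^ p * (R ^ γ / len (ρ c) ^ γ) := by
      calc av g c (ρ c) ^ p ≤ (7 * B * (R / len (ρ c)) ^ (1 - α)) ^ p :=
            Real.rpow_le_rpow (av_nonneg hg _ _) d2 hp.le
        _ = (7 * B) ^ p * (R ^ γ / len (ρ c) ^ γ) := by
            rw [Real.mul_rpow (by positivity) (by positivity), ← Real.rpow_mul (by positivity),
              Real.div_rpow hR0.le hl.le]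
    have d4 : (R + ((c - e).natAbs : ℝ)) / 3 ≤ len (ρ c) := by
      have a1 : R ≤ len (ρ c) := by
        rw [hR]; unfold len
        have : (ρ c0 : ℝ) ≤ ρ c := by exact_mod_cast hmin c hc
        linarith
      have a2 : (c - e).natAbs ≤ 3 * ρ c + 1 := by
        have := (hN c hc).2.1
        rw [mem_W] at this
        push_cast at this
        omega
      have a3 : ((c - e).natAbs : ℝ) ≤ 3 * ρ c + 1 := by exact_mod_cast a2
      have a4 : len (ρ c) = 2 * (ρ c : ℝ) + 1 := rfl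
      have a5 : (0 : ℝ) ≤ ρ c := Nat.cast_nonneg _
      linarith
    have hpos : 0 < R + ((c - e).natAbs : ℝ) := by positivity
    have d5 : len (ρ c) ^ (-(1 + γ)) ≤ ((R + ((c - e).natAbs : ℝ)) / 3) ^ (-(1 + γ)) :=
      Real.rpow_le_rpow_of_nonpos (by positivity) d4 (by linarith)
    have d6 : ((R + ((c - e).natAbs : ℝ)) / 3) ^ (-(1 + γ)) =
        3 ^ (1 + γ) * (R + ((c - e).natAbs : ℝ)) ^ (-(1 + γ)) := by
      rw [Real.div_rpow hpos.le (by norm_num), Real.rpow_neg (by norm_num : (0 : ℝ) ≤ 3),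
        div_inv_eq_mul, mul_comm]
    have d7 : R ^ γ / len (ρ c) ^ γ / len (ρ c) = R ^ γ * len (ρ c) ^ (-(1 + γ)) := by
      rw [Real.rpow_neg hl.le, Real.rpow_add hl, Real.rpow_one]
      field_simp
    calc av g c (ρ c) ^ p / len (ρ c)
        ≤ (7 * B) ^ p * (R ^ γ / len (ρ c) ^ γ) / len (ρ c) :=
          div_le_div_of_nonneg_right d3 hl.le
      _ = (7 * B) ^ p * (R ^ γ * len (ρ c) ^ (-(1 + γ))) := by rw [mul_div_assoc, d7]
      _ ≤ (7 * B) ^ p * (R ^ γ * (3 ^ (1 + γ) * (R + ((c - e).natAbs : ℝ)) ^ (-(1 + γ)))) := by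
          rw [← d6]
          apply mul_le_mul_of_nonneg_left _ (by positivity)
          exact mul_le_mul_of_nonneg_left d5 (by positivity)
      _ = _ := by ring
  refine (Finset.sum_le_sum h1).trans ?_
  rw [← Finset.mul_sum]
  have h2 := pow_sum_int hγ0 hR1 e N
  have h3 : R ^ γ * R ^ (-γ) = 1 := by
    rw [← Real.rpow_add hR0]; simp
  calc (7 * B) ^ p * (3 ^ (1 + γ) * R ^ γ) * ∑ c ∈ N, (R + ((c - e).natAbs : ℝ)) ^ (-(1 + γ))
      ≤ (7 * B) ^ p * (3 ^ (1 + γ) * R ^ γ) * (2 * ((1 + 1 / γ) * R ^ (-γ))) :=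
        mul_le_mul_of_nonneg_left h2 (by positivity)
    _ = (7 * B) ^ p * (3 ^ (1 + γ) * (2 * (1 + 1 / γ))) * (R ^ γ * R ^ (-γ)) := by ring
    _ = _ := by rw [h3, mul_one]

end Pool.Agent.P.MP_f9323a_an
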