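import Mathlib

namespace Pool.Agent.P.MP_f9323a_an

/-- The discrete centered fractional maximal function, with values in `[0, ∞]`. -/
noncomputable def maxFn (β : ℝ) (f : ℤ → ℝ) (n : ℤ) : ENNReal :=
  ⨆ r : ℕ, ENNReal.ofReal
    ((∑ k ∈ Finset.Icc (-(r : ℤ)) (r : ℤ), |f (n + k)|) / (2 * (r : ℝ) + 1) ^ (1 - β))

end Pool.Agent.P.MP_f9323a_an
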