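import Mathlib

/-! One-variable inequalities used for the exact constant. -/

namespace Pool.Agent.P.MP_f9323a_an.Exc

open Finset

variable {q p x y z : ℝ}

/-- The odd power of order `q - 1`. -/
noncomputable def ph (q x : ℝ) : ℝ := x * |x| ^ (q - 2)

theorem tang (hp : 1 ≤ p) {a b : ℝ} (ha : 0 ≤ a) (hb : 0 ≤ b) :
    a ^ p - b ^ p ≤ p * a ^ (p - 1) * (a - b) := by
  rcases ha.eq_or_lt with h | h
  · subst h
    rcases hp.eq_or_lt with h1 | h1
    · subst h1; simp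
    · rw [Real.zero_rpow (by linarith), Real.zero_rpow (by linarith)]
      have := Real.rpow_nonneg hb p
      linarith
  · have h1 := one_add_mul_self_le_rpow_one_add (s := b / a - 1)
      (by have : 0 ≤ b / a := by positivity
          linarith) hp
    rw [add_sub_cancel, Real.div_rpow hb ha, le_div_iff₀ (Real.rpow_pos_of_pos h _)] at h1
    have h2 : a ^ p = a ^ (p - 1) * a := by rw [Real.rpow_sub_one h.ne']; field_simp
    have h3 : (1 + p * (b / a - 1)) * a ^ p = a ^ p + p * a ^ (p - 1) * (b - a) := by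
      rw [h2]; field_simp
    linarith

theorem ph_neg (q x : ℝ) : ph q (-x) = -ph q x := by simp [ph]

theorem ph_of_nonneg (hq : 2 ≤ q) (hx : 0 ≤ x) : ph q x = x ^ (q - 1) := by
  rw [ph, abs_of_nonneg hx, show q - 1 = q - 2 + 1 by ring, Real.rpow_add_one' hx (by linarith),
    mul_comm]

theorem abs_ph (hq : 2 ≤ q) (x : ℝ) : |ph q x| = |x| ^ (q - 1) := by
  rw [← ph_of_nonneg hq (abs_nonneg x), ph, ph, abs_mul, abs_abs,
    abs_of_nonneg (Real.rpow_nonneg (abs_nonneg x) _)]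

theorem ph_mul_self (hq : 2 ≤ q) (x : ℝ) : ph q x * x = |x| ^ (q - 1) * |x| := by
  rw [← abs_ph hq, ← abs_mul, abs_of_nonneg]
  have := Real.rpow_nonneg (abs_nonneg x) (q - 2)
  have h := mul_self_nonneg x
  unfold ph
  nlinarith [mul_nonneg h this]

theorem ph_tang (hq : 2 ≤ q) (x y : ℝ) : |x| ^ q - |y| ^ q ≤ q * ph q x * (x - y) := by
  have h1 := tang (p := q) (by linarith) (abs_nonneg x) (abs_nonneg y)
  have h2 := ph_mul_self hq x
  have h3 : ph q x * y ≤ |x| ^ (q - 1) * |y| := by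
    rw [← abs_ph hq, ← abs_mul]; exact le_abs_self _
  nlinarith

theorem ph_mono (hq : 2 ≤ q) (h : y ≤ x) : ph q y ≤ ph q x := by
  rcases h.eq_or_lt with h | h
  · rw [h]
  · have h1 := ph_tang hq x y
    have h2 := ph_tang hq y x
    by_contra hc
    have := mul_pos (mul_pos (show 0 < q by linarith) (sub_pos.2 (not_le.1 hc))) (sub_pos.2 h)
    nlinarith

theorem ph_lip0 (hq : 2 ≤ q) (hy : 0 ≤ y) (h : y ≤ x) (hx : x ≤ z) :
    ph q x - ph q y ≤ (q - 1) * z ^ (q - 2) * (x - y) := by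
  rw [ph_of_nonneg hq hy, ph_of_nonneg hq (hy.trans h)]
  refine (tang (by linarith) (hy.trans h) hy).trans ?_
  rw [show q - 1 - 1 = q - 2 by ring]
  exact mul_le_mul_of_nonneg_right (mul_le_mul_of_nonneg_left
    (Real.rpow_le_rpow (hy.trans h) hx (by linarith)) (by linarith)) (by linarith)

theorem ph_lip (hq : 2 ≤ q) (h : y ≤ x) (hx : |x| ≤ z) (hy : |y| ≤ z) :
    ph q x - ph q y ≤ (q - 1) * z ^ (q - 2) * (x - y) := by
  have h0 : ph q 0 = 0 := by simp [ph]
  rw [abs_le] at hx hy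
  rcases le_total 0 y with h1 | h1
  · exact ph_lip0 hq h1 h hx.2
  · rcases le_total x 0 with h2 | h2
    · have := ph_lip0 hq (y := -x) (x := -y) (z := z) (by linarith) (by linarith) (by linarith)
      rw [ph_neg, ph_neg] at this
      linarith
    · have a1 := ph_lip0 hq (y := 0) (x := -y) (z := z) le_rfl (by linarith) (by linarith)
      have a2 := ph_lip0 hq (y := 0) (x := x) (z := z) le_rfl h2 hx.2
      rw [ph_neg] at a1
      linarith

theorem ph_div (q x : ℝ) {l : ℝ} (hl : 0 < l) :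
    ph q (x / l) = ph q x / l ^ (q - 1) := by
  rw [ph, ph, abs_div, abs_of_pos hl, Real.div_rpow (abs_nonneg x) hl.le,
    show q - 1 = q - 2 + 1 by ring, Real.rpow_add_one hl.ne']
  have := Real.rpow_pos_of_pos hl (q - 2)
  field_simp

theorem rpow_exp {u w : ℝ} (hu : 0 ≤ u) (h0 : 0 ≤ w) (h1 : w < 1) :
    (1 - w) ^ u * Real.exp (u * (w + w ^ 2 / 2)) ≤ 1 := by
  have h2 := sum_le_hasSum (range 2) (fun n _ => by positivity)
    (Real.hasSum_pow_div_log_of_abs_lt_one (x := w) (by rwa [abs_of_nonneg h0]))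
  simp only [sum_range_succ, sum_range_zero] at h2
  norm_num at h2
  rw [Real.rpow_def_of_pos (by linarith), ← Real.exp_add, Real.exp_le_one_iff]
  nlinarith

theorem ineqY (hq : 2 ≤ q) (hq5 : q ≤ 5) (h0 : 0 ≤ y) (h1 : y ≤ 1) :
    |1 - 2 * y| ^ q + q * y ^ (q - 1) - (q + 1) * y ^ q ≤ 1 - 2 * y / q := by
  have a1 : |1 - 2 * y| ^ q ≤ (1 - 2 * y) ^ 2 := by
    rw [← sq_abs, ← Real.rpow_two]
    exact Real.rpow_le_rpow_of_exponent_ge' (abs_nonneg _) (by rw [abs_le]; constructor <;> linarith)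
      (by norm_num) hq
  rcases h0.eq_or_lt with h | h
  · subst h
    rw [Real.zero_rpow (by linarith), Real.zero_rpow (by linarith)]
    simp
  have hq0 : 0 < q := by linarith
  have e1 : y ^ (q - 1) = y ^ (q - 2) * y := by
    rw [← Real.rpow_add_one h.ne']; congr 1; ring
  have e2 : y ^ q = y ^ (q - 2) * y * y := by
    rw [← e1, ← Real.rpow_add_one h.ne']; congr 1; ring
  have hY : 0 < y ^ (q - 2) := Real.rpow_pos_of_pos h _
  suffices H : q * (y ^ (q - 2) * ((q + 1) * (1 - y) - 1)) ≤ 4 * q * (1 - y) - 2 by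
    have H2 := mul_le_mul_of_nonneg_left H h.le
    have e3 : 1 - 2 * y / q = (q - 2 * y) / q := by field_simp
    rw [e1, e2, e3, le_div_iff₀ hq0]
    nlinarith [mul_le_mul_of_nonneg_left a1 hq0.le]
  obtain ⟨w, rfl⟩ : ∃ w, y = 1 - w := ⟨1 - y, by ring⟩
  obtain ⟨u, rfl⟩ : ∃ u, q = u + 2 := ⟨q - 2, by ring⟩
  have hw0 : 0 ≤ w := by linarith
  have hu0 : 0 ≤ u := by linarith
  have hu3 : u ≤ 3 := by linarith
  rw [add_sub_cancel_right] at hY ⊢
  rw [sub_sub_cancel]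
  set Y := (1 - w) ^ u with hYd
  by_cases c1 : 1 ≤ (u + 3) * w
  · have b1 := rpow_exp hu0 hw0 (by linarith)
    have b2 : 1 + u * w ≤ Real.exp (u * (w + w ^ 2 / 2)) := by
      have := Real.add_one_le_exp (u * (w + w ^ 2 / 2))
      nlinarith [mul_nonneg hu0 (sq_nonneg w)]
    have b3 : Y * (1 + u * w) ≤ 1 := (mul_le_mul_of_nonneg_left b2 hY.le).trans b1
    have b4 : 0 ≤ 4 * (u + 2) * w ^ 2 - (u + 3) * w + 1 := by
      nlinarith [sq_nonneg (1 - (u + 3) * w / 2), mul_nonneg (sq_nonneg w) hu0,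
        mul_nonneg (sq_nonneg w) (mul_nonneg hu0 (sub_nonneg.2 hu3)), sq_nonneg w]
    have b5 : (u + 2) * ((u + 3) * w - 1) ≤ (4 * (u + 2) * w - 2) * (1 + u * w) := by
      nlinarith [mul_nonneg hu0 b4]
    have b6 : 0 < 1 + u * w := by positivity
    have b7 : 0 ≤ (u + 2) * ((u + 3) * w - 1) := mul_nonneg hq0.le (by linarith)
    have b8 := mul_le_mul_of_nonneg_left b3 b7
    by_contra hc
    have := mul_pos b6 (sub_pos.2 (not_le.1 hc))
    nlinarith
  · push Not at c1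
    by_cases c2 : 1 ≤ 2 * (u + 2) * w
    · have : 0 ≤ (u + 2) * (Y * (1 - (u + 3) * w)) := by
        have : 0 ≤ 1 - (u + 3) * w := by linarith
        positivity
      nlinarith
    · push Not at c2
      have b1 := one_add_mul_self_le_rpow_one_add (s := -w) (by linarith)
        (show 1 ≤ u + 1 by linarith)
      rw [← sub_eq_add_neg, Real.rpow_add_one h.ne'] at b1
      have b2 : 1 - (u + 1) * w ≤ Y := by nlinarith [mul_nonneg hY.le hw0]
      have b3 := mul_le_mul_of_nonneg_left b2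
        (mul_nonneg hq0.le (show 0 ≤ 1 - (u + 3) * w by linarith))
      have b4 : 0 ≤ (u + 2) * ((u + 1) * (u + 3) * w ^ 2) := by positivity
      nlinarith [mul_nonneg hu0 (show 0 ≤ 1 - 2 * (u + 2) * w by linarith)]

theorem polyX {u w : ℝ} (hu0 : 0 ≤ u) (hu3 : u ≤ 3) (hw : 0 ≤ w) :
    (u + 2) ^ 3 / 4 * w ≤ (u + 2 * w) * (1 + u * (w + w ^ 2 / 2) + (u * (w + w ^ 2 / 2)) ^ 2 / 2 +
      (u * (w + w ^ 2 / 2)) ^ 3 / 6) := by
  have b0 : 0 ≤ 1 - 3 * w + 2 * w ^ 2 + w ^ 3 := by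
    nlinarith [mul_nonneg hw (sq_nonneg (w - 1 / 2)), sq_nonneg (w - 1 / 2)]
  have b1 : 0 ≤ 1 - 7 / 2 * w + 5 / 2 * w ^ 2 + 2 * w ^ 3 := by
    nlinarith [mul_nonneg hw (sq_nonneg (w - 9 / 20)), sq_nonneg (w - 9 / 20)]
  have b2 : 0 ≤ 1 - 19 / 4 * w + 9 / 2 * w ^ 2 + 9 / 2 * w ^ 3 := by
    nlinarith [mul_nonneg hw (sq_nonneg (w - 7 / 20)), sq_nonneg (w - 7 / 20)]
  have b3 : 0 ≤ 1 - 27 / 4 * w + 8 * w ^ 2 + 13 * w ^ 3 := by
    nlinarith [mul_nonneg hw (sq_nonneg (w - 13 / 50)), sq_nonneg (w - 13 / 50)]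
  have hv : 0 ≤ 3 - u := by linarith
  have h : 0 ≤ u * ((3 - u) ^ 3 / 27 * (1 - 3 * w + 2 * w ^ 2 + w ^ 3) +
      u * (3 - u) ^ 2 / 9 * (1 - 7 / 2 * w + 5 / 2 * w ^ 2 + 2 * w ^ 3) +
      u ^ 2 * (3 - u) / 9 * (1 - 19 / 4 * w + 9 / 2 * w ^ 2 + 9 / 2 * w ^ 3) +
      u ^ 3 / 27 * (1 - 27 / 4 * w + 8 * w ^ 2 + 13 * w ^ 3) +
      w ^ 4 * (u * (1 + w / 4) + u ^ 2 * (11 / 24 + w / 2 + w ^ 2 / 4 + w ^ 3 / 24) +
        u ^ 3 * (1 / 4 + w / 8 + w ^ 2 / 48))) := by positivity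
  refine sub_nonneg.1 (h.trans_eq ?_)
  ring

theorem ineqX (hq : 2 ≤ q) (hq5 : q ≤ 5) (h0 : 0 ≤ z) (h1 : z ≤ 1) :
    q ^ 2 / 4 * (1 - z) * z ^ (q - 2) ≤ 1 - 2 * z / q := by
  have hq0 : 0 < q := by linarith
  rw [show 1 - 2 * z / q = (q - 2 * z) / q by field_simp, le_div_iff₀ hq0]
  rcases h0.eq_or_lt with h | h
  · subst h
    rcases hq.eq_or_lt with h2 | h2
    · subst h2; norm_num
    · rw [Real.zero_rpow (by linarith)]; linarith
  obtain ⟨w, rfl⟩ : ∃ w, z = 1 - w := ⟨1 - z, by ring⟩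
  obtain ⟨u, rfl⟩ : ∃ u, q = u + 2 := ⟨q - 2, by ring⟩
  have hw0 : 0 ≤ w := by linarith
  have hu0 : 0 ≤ u := by linarith
  rw [add_sub_cancel_right, sub_sub_cancel]
  have hY : 0 < (1 - w) ^ u := Real.rpow_pos_of_pos h _
  have b1 := rpow_exp hu0 hw0 (by linarith)
  have b2 := Real.sum_le_exp_of_nonneg (x := u * (w + w ^ 2 / 2)) (by positivity) 4
  simp only [sum_range_succ, sum_range_zero, Nat.factorial] at b2
  norm_num at b2
  have b3 := polyX hu0 (by linarith) hw0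
  have b4 := (mul_le_mul_of_nonneg_left b2 hY.le).trans b1
  have b5 := mul_le_mul_of_nonneg_left b3 hY.le
  have b6 := mul_le_mul_of_nonneg_left b4 (show 0 ≤ u + 2 * w by positivity)
  nlinarith

theorem step_mono (hp : 1 ≤ p) (hx : 0 ≤ x) :
    (x + 1) ^ p - x ^ p ≤ (x + 1 + 1) ^ p - (x + 1) ^ p := by
  have h1 := tang hp (a := x + 1) (b := x) (by linarith) hx
  have h2 := tang hp (a := x + 1) (b := x + 1 + 1) (by linarith) (by linarith)
  linarith

theorem second_mono (hq : 2 ≤ q) (hx : 0 ≤ x) (h : x ≤ y) :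
    (x + 1) ^ q - x ^ q + q * (y ^ (q - 1) - x ^ (q - 1)) ≤ (y + 1) ^ q - y ^ q := by
  have hd : ∀ t : ℝ, 0 < t → HasDerivAt (fun t : ℝ => (t + 1) ^ q - t ^ q - q * t ^ (q - 1))
      (1 * q * (t + 1) ^ (q - 1) - q * t ^ (q - 1) - q * ((q - 1) * t ^ (q - 1 - 1))) t := by
    intro t ht
    exact ((((hasDerivAt_id t).add_const 1).rpow_const (Or.inr (by linarith))).sub
      (Real.hasDerivAt_rpow_const (Or.inr (by linarith)))).sub
      ((Real.hasDerivAt_rpow_const (Or.inr (by linarith))).const_mul q)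
  have hm : MonotoneOn (fun t : ℝ => (t + 1) ^ q - t ^ q - q * t ^ (q - 1)) (Set.Ici 0) := by
    refine monotoneOn_of_deriv_nonneg (convex_Ici 0) ?_ ?_ ?_
    · refine Continuous.continuousOn ?_
      have c1 := Real.continuous_rpow_const (show 0 ≤ q by linarith)
      have c2 := Real.continuous_rpow_const (show 0 ≤ q - 1 by linarith)
      exact ((c1.comp (continuous_add_const 1)).sub c1).sub (continuous_const.mul c2)
    · intro t ht
      rw [interior_Ici] at ht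
      exact (hd t ht).differentiableAt.differentiableWithinAt
    · intro t ht
      rw [interior_Ici] at ht
      rw [(hd t ht).deriv]
      have h1 := tang (p := q - 1) (by linarith) (a := t) (b := t + 1) ht.le
        (by linarith [Set.mem_Ioi.1 ht])
      nlinarith
  have := hm (Set.mem_Ici.2 hx) (Set.mem_Ici.2 (hx.trans h)) h
  simp only at this
  linarith

theorem boundY (hq : 2 ≤ q) (hq5 : q ≤ 5) {s : ℝ} (hs : 0 ≤ s) (hT : s < 2 / q * x) :
    |2 / q * x - s - s| ^ q / q + (2 / q * x - s) * s ^ (q - 1) - s ^ q / q ≤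
      (2 / q) ^ q / q * x ^ (q - 1) * (x - s) := by
  have hq0 : 0 < q := by linarith
  have hZ : 0 < 2 / q * x := by linarith
  have hx : 0 < x := (mul_pos_iff_of_pos_left (by positivity)).1 hZ
  obtain ⟨y, rfl⟩ : ∃ y, s = 2 / q * x * y := ⟨s / (2 / q * x), by field_simp⟩
  have hy0 : 0 ≤ y := nonneg_of_mul_nonneg_right hs hZ
  have hy1 : y ≤ 1 := by nlinarith
  have h1 := mul_le_mul_of_nonneg_left (ineqY hq hq5 hy0 hy1)
    (show 0 ≤ (2 / q * x) ^ q / q by positivity)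
  have e0 : (2 / q) ^ q * x ^ (q - 1) * x = (2 / q * x) ^ q := by
    rw [Real.mul_rpow (by positivity) hx.le, Real.rpow_sub_one hx.ne']; field_simp
  set Z := 2 / q * x with hZd
  have e1 : |Z - Z * y - Z * y| ^ q = Z ^ q * |1 - 2 * y| ^ q := by
    rw [← Real.mul_rpow hZ.le (abs_nonneg _), ← abs_of_pos hZ, ← abs_mul, abs_of_pos hZ]
    congr 2; ring
  have e2 : (Z * y) ^ (q - 1) = Z ^ q / Z * y ^ (q - 1) := by
    rw [Real.mul_rpow hZ.le hy0, Real.rpow_sub_one hZ.ne']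
  have e3 : y ^ q = y ^ (q - 1) * y := by
    rw [← Real.rpow_add_one' hy0 (by linarith)]; congr 1; ring
  have e4 : (2 / q) ^ q / q * x ^ (q - 1) * (x - Z * y) = Z ^ q / q * (1 - 2 * y / q) := by
    rw [← e0, hZd]; field_simp
  rw [e1, e2, Real.mul_rpow hZ.le hy0, e4]
  refine le_of_eq_of_le ?_ h1
  rw [e3]; field_simp; ring

theorem boundX (hq : 2 ≤ q) (hq5 : q ≤ 5) {s : ℝ} (hs : 0 ≤ s) (hT : s < 2 / q * x) (h1 : s ≤ z)
    (h2 : z ≤ 2 / q * x) :
    (2 / q * x - z) * z ^ (q - 2) ≤ 2 * ((2 / q) ^ q / q) * x ^ (q - 2) * (x - s) := by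
  have hq0 : 0 < q := by linarith
  have hZ : 0 < 2 / q * x := by linarith
  have hx : 0 < x := (mul_pos_iff_of_pos_left (by positivity)).1 hZ
  obtain ⟨y, rfl⟩ : ∃ y, z = 2 / q * x * y := ⟨z / (2 / q * x), by field_simp⟩
  have hy0 : 0 ≤ y := nonneg_of_mul_nonneg_right (hs.trans h1) hZ
  have hy1 : y ≤ 1 := by nlinarith
  have e0 : (2 / q) ^ q * x ^ (q - 2) = (2 / q * x) ^ (q - 2) * (2 / q) ^ 2 := by
    rw [Real.mul_rpow (by positivity) hx.le, Real.rpow_sub (show 0 < 2 / q by positivity),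
      Real.rpow_two]
    field_simp
  have hP : 0 < (2 / q * x) ^ (q - 2) := by positivity
  have h3 := mul_le_mul_of_nonneg_left (ineqX hq hq5 hy0 hy1)
    (show 0 ≤ (2 / q * x) ^ (q - 2) * (2 / q) ^ 3 * x by positivity)
  have h4 := mul_le_mul_of_nonneg_left (show x - 2 / q * x * y ≤ x - s by linarith)
    (show 0 ≤ (2 / q * x) ^ (q - 2) * (2 / q) ^ 3 by positivity)
  rw [Real.mul_rpow hZ.le hy0, show 2 * ((2 / q) ^ q / q) * x ^ (q - 2) =
    2 / q * ((2 / q) ^ q * x ^ (q - 2)) by ring, e0]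
  set P := (2 / q * x) ^ (q - 2)
  refine le_of_eq_of_le ?_ (h3.trans (le_of_eq_of_le ?_ (h4.trans_eq ?_)))
  · field_simp; ring
  · field_simp
  · ring

/-- The weight of a level. -/
noncomputable def wt (q x s : ℝ) (j : ℕ) : ℝ :=
  max (2 / q * x - s - (j + 1)) 0 * (ph q (j + 1 - s) - ph q (j - s))

theorem wt_nonneg (hq : 2 ≤ q) (x s : ℝ) (j : ℕ) : 0 ≤ wt q x s j :=
  mul_nonneg (le_max_right _ _) (sub_nonneg.2 (ph_mono hq (by linarith)))

theorem wt_zero {s : ℝ} {j : ℕ} (h : 2 / q * x - s ≤ j + 1) : wt q x s j = 0 := by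
  rw [wt, max_eq_right (by linarith), zero_mul]

theorem wt_sum (hq : 2 ≤ q) (hq5 : q ≤ 5) {s : ℝ} (hs : 0 ≤ s) (hx : s ≤ x) (h : ℕ) :
    ∑ j ∈ range h, wt q x s j ≤ (2 / q) ^ q / q * x ^ (q - 1) * (x - s) := by
  have hq0 : 0 < q := by linarith
  by_cases hT : s < 2 / q * x
  swap
  · rw [sum_eq_zero fun j _ => wt_zero (by have : (0 : ℝ) ≤ j := j.cast_nonneg
                                           linarith)]
    have := hs.trans hx
    have := sub_nonneg.2 hx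
    positivity
  set T := 2 / q * x - s with hTd
  set H : ℝ → ℝ := fun p => (T - p) * ph q (p - s) + |p - s| ^ q / q with hH
  have mono : ∀ p p', (T - p') * (ph q (p' - s) - ph q (p - s)) ≤ H p' - H p := by
    intro p p'
    have h1 := ph_tang hq (p - s) (p' - s)
    have h2 : (p' - p) * ph q (p - s) ≤ |p' - s| ^ q / q - |p - s| ^ q / q := by
      rw [← sub_div, le_div_iff₀ hq0]; linarith
    simp only [hH]; linarith
  have mono2 : ∀ p p', p ≤ p' → p' ≤ T → H p ≤ H p' := fun p p' h1 h2 => by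
    have := mul_nonneg (sub_nonneg.2 h2) (sub_nonneg.2 (ph_mono hq (show p - s ≤ p' - s by linarith)))
    linarith [mono p p']
  have ind : ∀ h : ℕ, ∑ j ∈ range h, wt q x s j ≤ H (min h T) - H 0 := by
    intro h
    induction h with
    | zero => simp [min_eq_left (show 0 ≤ T by linarith)]
    | succ h ih =>
      rw [sum_range_succ]
      push_cast
      by_cases c : T ≤ h + 1
      · rw [wt_zero c]
        linarith [mono2 (min h T) (min (h + 1) T) (min_le_min_right _ (by linarith)) (min_le_right _ _)]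
      · rw [min_eq_left (by linarith)] at ih ⊢
        rw [wt, max_eq_left (by linarith)]
        linarith [mono h (h + 1)]
  refine (ind h).trans (le_trans ?_ (boundY hq hq5 hs hT))
  have h1 := mono2 (min h T) T (min_le_right _ _) le_rfl
  have h2 : H 0 = -(T * s ^ (q - 1)) + s ^ q / q := by
    simp only [hH, sub_zero, zero_sub, ph_neg, abs_neg, abs_of_nonneg hs, ph_of_nonneg hq hs]; ring
  have h3 : H T = |T - s| ^ q / q := by simp [hH]
  linarith

theorem wt_le (hq : 2 ≤ q) (hq5 : q ≤ 5) {s : ℝ} (hs : 0 ≤ s) {j : ℕ}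
    (h : j + 1 < 2 / q * x - s) :
    wt q x s j ≤ 2 * ((2 / q) ^ q / q) * ((q - 1) * x ^ (q - 2) * (x - s)) := by
  have hj : (0 : ℝ) ≤ j := j.cast_nonneg
  have a1 := le_max_left s (j + 1 - s)
  have a2 := le_max_right s (j + 1 - s)
  have h1 := ph_lip hq (x := j + 1 - s) (y := j - s) (z := max s (j + 1 - s)) (by linarith)
    (abs_le.2 ⟨by linarith, a2⟩) (abs_le.2 ⟨by linarith, by linarith⟩)
  have h0 : max s (j + 1 - s) ≤ s + (j + 1) := max_le (by linarith) (by linarith)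
  have h2 := boundX hq hq5 (x := x) hs (by linarith) a1 (by linarith)
  have h3 : 0 ≤ (q - 1) * max s (j + 1 - s) ^ (q - 2) :=
    mul_nonneg (by linarith) (Real.rpow_nonneg (hs.trans a1) _)
  rw [wt, max_eq_left (by linarith)]
  calc _ ≤ (2 / q * x - s - (j + 1)) * ((q - 1) * max s (j + 1 - s) ^ (q - 2)) :=
        mul_le_mul_of_nonneg_left (by linarith) (by linarith)
    _ ≤ (2 / q * x - max s (j + 1 - s)) * ((q - 1) * max s (j + 1 - s) ^ (q - 2)) :=
        mul_le_mul_of_nonneg_right (by linarith) h3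
    _ ≤ _ := by nlinarith [mul_le_mul_of_nonneg_left h2 (show 0 ≤ q - 1 by linarith)]

end Pool.Agent.P.MP_f9323a_an.Exc
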