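import Pool.Agent.P.MP_f9323a_an.ExcA

/-! The one-sided bound for lattice paths with unit steps. -/

namespace Pool.Agent.P.MP_f9323a_an.Exc

open Finset

variable {q : ℝ} {f : ℤ → ℕ} {a b y lo : ℤ}

/-- Sum over an interval. -/
noncomputable def SS (f : ℤ → ℕ) (a b : ℤ) : ℝ := ∑ t ∈ Icc a b, (f t : ℝ)

/-- Mean over an interval. -/
noncomputable def avg (f : ℤ → ℕ) (a b : ℤ) : ℝ := SS f a b / (b - a + 1)

/-- Largest mean over the intervals ending at `b` and starting at `y` or later. -/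
noncomputable def XX (f : ℤ → ℕ) (y b : ℤ) : ℝ := (Icc y b).fold max 0 fun a => avg f a b

theorem sum_Ioc_succ (F : ℤ → ℝ) (h : a ≤ b) :
    ∑ t ∈ Ioc a (b + 1), F t = ∑ t ∈ Ioc a b, F t + F (b + 1) := by
  rw [show Ioc a (b + 1) = insert (b + 1) (Ioc a b) by ext; simp only [mem_Ioc, mem_insert]; omega,
    sum_insert (by simp), add_comm]

theorem SS_succ (f : ℤ → ℕ) (h : a ≤ b + 1) : SS f a (b + 1) = SS f a b + f (b + 1) := by
  rw [SS, show Icc a (b + 1) = insert (b + 1) (Icc a b) by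
    ext; simp only [mem_Icc, mem_insert]; omega, sum_insert (by simp), add_comm, SS]

theorem SS_pred (f : ℤ → ℕ) (h : a ≤ b + 1) : SS f (a - 1) b = SS f a b + f (a - 1) := by
  rw [SS, show Icc (a - 1) b = insert (a - 1) (Icc a b) by
    ext; simp only [mem_Icc, mem_insert]; omega, sum_insert (by simp), add_comm, SS]

theorem SS_nonneg (f : ℤ → ℕ) (a b : ℤ) : 0 ≤ SS f a b := sum_nonneg fun _ _ => by positivity

theorem SS_mono (f : ℤ → ℕ) {a' b' : ℤ} (h1 : a' ≤ a) (h2 : b ≤ b') : SS f a b ≤ SS f a' b' :=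
  sum_le_sum_of_subset_of_nonneg (Icc_subset_Icc h1 h2) fun _ _ _ => by positivity

theorem ln_pos (h : a ≤ b) : (0 : ℝ) < b - a + 1 := by
  have : (a : ℝ) ≤ b := by exact_mod_cast h
  linarith

theorem avg_self (f : ℤ → ℕ) (b : ℤ) : avg f b b = f b := by simp [avg, SS]

theorem avg_nonneg (f : ℤ → ℕ) (h : a ≤ b) : 0 ≤ avg f a b :=
  div_nonneg (SS_nonneg f a b) (ln_pos h).le

theorem avg_le_XX (f : ℤ → ℕ) (h1 : y ≤ a) (h2 : a ≤ b) : avg f a b ≤ XX f y b :=
  (le_fold_max _).2 (Or.inr ⟨a, mem_Icc.2 ⟨h1, h2⟩, le_rfl⟩)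

theorem XX_le {B : ℝ} (h0 : 0 ≤ B) (h : ∀ a, y ≤ a → a ≤ b → avg f a b ≤ B) : XX f y b ≤ B :=
  (fold_max_le _).2 ⟨h0, fun a ha => h a (mem_Icc.1 ha).1 (mem_Icc.1 ha).2⟩

theorem XX_nonneg (f : ℤ → ℕ) (y b : ℤ) : 0 ≤ XX f y b := (le_fold_max _).2 (Or.inl le_rfl)

theorem XX_ex (f : ℤ → ℕ) (h : y ≤ b) : ∃ a, y ≤ a ∧ a ≤ b ∧ XX f y b = avg f a b := by
  obtain ⟨a, ha, h1⟩ := exists_max_image (Icc y b) (fun a => avg f a b) ⟨y, mem_Icc.2 ⟨le_rfl, h⟩⟩
  rw [mem_Icc] at ha
  exact ⟨a, ha.1, ha.2, le_antisymm (XX_le (avg_nonneg f ha.2) fun a' h2 h3 =>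
    h1 a' (mem_Icc.2 ⟨h2, h3⟩)) (avg_le_XX f ha.1 ha.2)⟩

theorem le_XX (f : ℤ → ℕ) (h : y ≤ b) : (f b : ℝ) ≤ XX f y b :=
  (avg_self f b).ge.trans (avg_le_XX f h le_rfl)

theorem XX_self (f : ℤ → ℕ) (y : ℤ) : XX f y y = f y :=
  le_antisymm (XX_le (by positivity) fun a h1 h2 => by rw [le_antisymm h2 h1, avg_self])
    (le_XX f le_rfl)

theorem XX_succ (f : ℤ → ℕ) (y b : ℤ) : XX f y (b + 1) ≤ max (XX f y b) (f (b + 1)) := by
  refine XX_le ((XX_nonneg f y b).trans (le_max_left _ _)) fun a h1 h2 => ?_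
  rcases h2.eq_or_lt with h | h
  · rw [h, avg_self]; exact le_max_right _ _
  · have h3 : a ≤ b := by omega
    have h4 := (avg_le_XX f h1 h3).trans (le_max_left _ (f (b + 1) : ℝ))
    have h5 := le_max_right (XX f y b) (f (b + 1) : ℝ)
    rw [avg, div_le_iff₀ (ln_pos h3)] at h4
    rw [avg, div_le_iff₀ (ln_pos h2), SS_succ f h2]
    push_cast
    linarith

theorem avg_pred (h1 : a ≤ b) (h2 : (f b : ℝ) < avg f a b) :
    a < b ∧ avg f a b + (avg f a b - f b) / (b - a + 1) ≤ avg f a (b - 1) := by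
  have h3 : a < b := lt_of_le_of_ne h1 fun h => by rw [h, avg_self] at h2; exact h2.false
  refine ⟨h3, ?_⟩
  have h4 := SS_succ f (a := a) (b := b - 1) (by omega)
  rw [sub_add_cancel] at h4
  have h5 := ln_pos (show a ≤ b - 1 by omega)
  have h6 : SS f a b = avg f a b * (b - a + 1) := by rw [avg, div_mul_cancel₀ _ (ln_pos h1).ne']
  have h7 : (avg f a b - f b) / (b - a + 1) * (((b - 1 : ℤ) : ℝ) - a + 1) ≤ avg f a b - f b := by
    rw [div_mul_eq_mul_div, div_le_iff₀ (ln_pos h1)]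
    push_cast
    nlinarith
  conv_rhs => rw [avg]
  rw [le_div_iff₀ h5]
  push_cast at h7 ⊢
  linarith

theorem drop_le (Φ : ℝ → ℝ) (hΦ : ∀ s t, 0 ≤ s → s ≤ t → Φ s ≤ Φ t) (f : ℤ → ℕ) (h : y ≤ b) :
    ∑ t ∈ Ioc y b, max (Φ (XX f y (t - 1)) - Φ (XX f y t)) 0 + Φ (XX f y b) ≤
      Φ (f y) + ∑ t ∈ Ioc y b, max (Φ (f t) - Φ (f (t - 1))) 0 := by
  induction b, h using Int.leInduction with
  | base => simp [XX_self]
  | succ b h ih =>
    rw [sum_Ioc_succ _ h, sum_Ioc_succ _ h, add_sub_cancel_right]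
    have h1 := hΦ _ _ (by positivity) (le_XX f h)
    have h2 : Φ (XX f y (b + 1)) ≤ max (Φ (XX f y b)) (Φ (f (b + 1))) := by
      rcases le_max_iff.1 (XX_succ f y b) with h3 | h3
      · exact (hΦ _ _ (XX_nonneg _ _ _) h3).trans (le_max_left _ _)
      · exact (hΦ _ _ (XX_nonneg _ _ _) h3).trans (le_max_right _ _)
    have h3 := le_max_left (Φ (f (b + 1)) - Φ (f b)) 0
    have h4 := le_max_right (Φ (f (b + 1)) - Φ (f b)) 0
    rcases le_total (Φ (XX f y b) - Φ (XX f y (b + 1))) 0 with h5 | h5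
    · rw [max_eq_right h5]
      rcases le_max_iff.1 h2 with h6 | h6 <;> linarith
    · rw [max_eq_left h5]; linarith

/-- Unit steps. -/
def Steps (f : ℤ → ℕ) : Prop := ∀ t, f t = f (t - 1) + 1 ∨ f t = f (t - 1) ∨ f t + 1 = f (t - 1)

theorem levels (hs : Steps f) (h0 : f lo = 0) (w : ℕ → ℝ) (h : lo ≤ a) :
    ∑ t ∈ Ioc lo a, (if f (t - 1) < f t then w (f (t - 1)) else 0) =
      ∑ j ∈ range (f a), w j + ∑ t ∈ Ioc lo a, if f t < f (t - 1) then w (f t) else 0 := by
  induction a, h using Int.leInduction with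
  | base => simp [h0]
  | succ a h ih =>
    rw [sum_Ioc_succ _ h, sum_Ioc_succ _ h, ih, add_sub_cancel_right]
    have := hs (a + 1)
    rw [add_sub_cancel_right] at this
    rcases this with h1 | h1 | h1
    · rw [if_pos (by omega), if_neg (by omega), h1, sum_range_succ]; ring
    · rw [if_neg (by omega), if_neg (by omega), h1]; ring
    · rw [if_neg (by omega), if_pos (by omega), ← h1, sum_range_succ]; ring

open Classical in
/-- The contribution of the left end of an interval. -/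
noncomputable def FF (q : ℝ) (f : ℤ → ℕ) (a b : ℤ) : ℝ :=
  if a ≤ b ∧ ∀ a', a' < a → avg f a' b < avg f a b then
    max (2 / q * avg f a b - f a - f b) 0 / (b - a + 1) *
      max (ph q (f a - f b) - ph q (f (a - 1) - f b)) 0
  else 0

theorem FF_nonneg (q : ℝ) (f : ℤ → ℕ) (a b : ℤ) : 0 ≤ FF q f a b := by
  unfold FF
  split_ifs with h
  · have := ln_pos h.1
    positivity
  · exact le_rfl

theorem FF_le (hq : 2 ≤ q) (hs : Steps f) {c : ℤ} (h1 : lo ≤ a) (h3 : c ≤ b)
    (h4 : XX f lo b = avg f c b) : FF q f a b ≤ if a ≤ c then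
      (if f (a - 1) < f a then wt q (XX f lo b) (f b) (f (a - 1)) else 0) / (b - c + 1) else 0 := by
  have hl := ln_pos h3
  have hw := wt_nonneg hq (XX f lo b) (f b) (f (a - 1))
  unfold FF
  by_cases h : a ≤ b ∧ ∀ a', a' < a → avg f a' b < avg f a b
  swap
  · rw [if_neg h]; split_ifs <;> positivity
  have h5 := avg_le_XX f h1 h.1
  have h6 : a ≤ c := by
    by_contra hc
    linarith [h.2 c (not_le.1 hc)]
  rw [if_pos h, if_pos h6]
  split_ifs with h7
  · have h8 : (f a : ℝ) = f (a - 1) + 1 := by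
      have := hs a
      exact_mod_cast (by omega : f a = f (a - 1) + 1)
    have h9 := ph_mono hq (show (f (a - 1) : ℝ) - f b ≤ f (a - 1) + 1 - f b by linarith)
    rw [wt, h8, max_eq_left (sub_nonneg.2 h9), mul_div_right_comm]
    refine mul_le_mul_of_nonneg_right (div_le_div₀ (le_max_right _ _) (max_le_max_right _ ?_) hl ?_)
      (sub_nonneg.2 h9)
    · have := mul_le_mul_of_nonneg_left h5 (show 0 ≤ 2 / q by positivity)
      linarith
    · have : (a : ℝ) ≤ c := by exact_mod_cast h6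
      linarith
  · have h8 : (f a : ℝ) ≤ f (a - 1) := by exact_mod_cast not_lt.1 h7
    rw [max_eq_right (sub_nonpos.2 (ph_mono hq (by linarith))), mul_zero, zero_div]

theorem column (hq : 2 ≤ q) (hq5 : q ≤ 5) (hs : Steps f) (h0 : f lo = 0) {B : ℤ} (hb : lo ≤ b)
    (hB : b ≤ B) : ∑ a ∈ Ioc lo B, FF q f a b ≤
      (2 / q) ^ q / q / q * max (XX f lo (b - 1) ^ q - XX f lo b ^ q) 0 +
      2 * ((2 / q) ^ q / q) * ∑ y ∈ Ioc lo B, if y < b ∧ f y < f (y - 1) then
        max (max (XX f y (b - 1)) (f y + 1) ^ (q - 1) - max (XX f y b) (f y + 1) ^ (q - 1)) 0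
        else 0 := by
  obtain ⟨c, h1, h2, h3⟩ := XX_ex f hb
  have hl := ln_pos h2
  have hq0 : 0 < q := by linarith
  have hsx := le_XX f hb
  have hs0 : (0 : ℝ) ≤ f b := by positivity
  have hc0 : 0 < (2 / q) ^ q / q := by positivity
  have e1 : ∀ G : ℤ → ℝ, ∑ a ∈ Ioc lo B, (if a ≤ c then G a else 0) = ∑ a ∈ Ioc lo c, G a := by
    intro G
    rw [← sum_filter]; congr 1; ext; simp only [mem_filter, mem_Ioc]; omega
  refine (sum_le_sum fun a ha => FF_le hq hs (mem_Ioc.1 ha).1.le h2 h3).trans ?_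
  rw [e1, ← sum_div, levels hs h0 _ h1, add_div]
  set x := XX f lo b with hx
  have h2q : 2 / q * x ≤ x := by
    have : 2 / q ≤ 1 := by rw [div_le_one hq0]; exact hq
    nlinarith
  refine add_le_add ?_ ?_
  · refine (div_le_div_of_nonneg_right (wt_sum hq hq5 hs0 hsx _) hl.le).trans ?_
    rcases hsx.eq_or_lt with h | h
    · rw [← h, sub_self, mul_zero, zero_div]; positivity
    obtain ⟨h4, h5⟩ := avg_pred h2 (h3 ▸ h)
    rw [← h3] at h5
    have h6 := h5.trans (avg_le_XX f h1 (by omega))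
    have h7 := tang (p := q) (by linarith) (hs0.trans hsx) (XX_nonneg f lo (b - 1))
    have h8 := mul_le_mul_of_nonneg_left (show (x - f b) / (b - c + 1) ≤ XX f lo (b - 1) - x by
      linarith) (show 0 ≤ q * x ^ (q - 1) by have := hs0.trans hsx; positivity)
    have h9 := le_max_left (XX f lo (b - 1) ^ q - x ^ q) 0
    calc _ = (2 / q) ^ q / q / q * (q * x ^ (q - 1) * ((x - f b) / (b - c + 1))) := by field_simp
      _ ≤ _ := mul_le_mul_of_nonneg_left (by linarith) (by positivity)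
  · rw [sum_div, ← e1, mul_sum]
    refine sum_le_sum fun y hy => ?_
    have hR : 0 ≤ 2 * ((2 / q) ^ q / q) * if y < b ∧ f y < f (y - 1) then
        max (max (XX f y (b - 1)) (f y + 1) ^ (q - 1) - max (XX f y b) (f y + 1) ^ (q - 1)) 0
        else 0 := by split_ifs <;> positivity
    by_cases c1 : y ≤ c
    swap
    · rwa [if_neg c1]
    by_cases c2 : f y < f (y - 1)
    swap
    · rwa [if_pos c1, if_neg c2, zero_div]
    rw [if_pos c1, if_pos c2]
    by_cases c3 : 2 / q * x - f b ≤ f y + 1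
    · rwa [wt_zero c3, zero_div]
    push Not at c3
    have hy0 : (0 : ℝ) ≤ f y := by positivity
    obtain ⟨h4, h5⟩ := avg_pred h2 (h3 ▸ (show (f b : ℝ) < x by linarith))
    rw [← h3] at h5
    have h6 := h5.trans (avg_le_XX f c1 (by omega))
    have h7 : XX f y b = x := le_antisymm (XX_le (hs0.trans hsx) fun a h8 h9 =>
      avg_le_XX f ((mem_Ioc.1 hy).1.le.trans h8) h9) (h3 ▸ avg_le_XX f c1 h2)
    have h8 : 0 ≤ (x - f b) / (b - c + 1) := div_nonneg (by linarith) hl.le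
    rw [if_pos ⟨by omega, c2⟩, h7, max_eq_left (show (f y : ℝ) + 1 ≤ x by linarith),
      max_eq_left (show (f y : ℝ) + 1 ≤ XX f y (b - 1) by linarith)]
    refine (div_le_div_of_nonneg_right (wt_le hq hq5 hs0 c3) hl.le).trans ?_
    rw [mul_div_assoc]
    refine mul_le_mul_of_nonneg_left (le_trans ?_ (le_max_left _ _)) (by positivity)
    have h9 := tang (p := q - 1) (by linarith) (hs0.trans hsx) (XX_nonneg f y (b - 1))
    rw [show q - 1 - 1 = q - 2 by ring] at h9
    have h10 := mul_le_mul_of_nonneg_left (show (x - f b) / (b - c + 1) ≤ XX f y (b - 1) - x by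
      linarith) (mul_nonneg (show 0 ≤ q - 1 by linarith) (Real.rpow_nonneg (hs0.trans hsx) (q - 2)))
    rw [mul_div_assoc]
    linarith

/-- Increment of a power. -/
noncomputable def DD (p : ℝ) (j : ℕ) : ℝ := (j + 1) ^ p - j ^ p

/-- The pair term: a descent at `y`, then an ascent at `t` from a higher level. -/
noncomputable def EE (q : ℝ) (f : ℤ → ℕ) (y t : ℤ) : ℝ :=
  if y < t ∧ f y < f (y - 1) ∧ f (t - 1) < f t ∧ f y < f (t - 1) then DD (q - 1) (f (t - 1)) else 0

theorem side (hq : 2 ≤ q) (hq5 : q ≤ 5) (hs : Steps f) (h0 : f lo = 0) {B : ℤ} (hB : lo ≤ B) :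
    ∑ b ∈ Ioc lo B, ∑ a ∈ Ioc lo B, FF q f a b ≤
      (2 / q) ^ q / q / q * (∑ t ∈ Ioc lo B, if f (t - 1) < f t then DD q (f (t - 1)) else 0) +
      2 * ((2 / q) ^ q / q) * ∑ y ∈ Ioc lo B, ∑ t ∈ Ioc lo B, EE q f y t := by
  have hq0 : 0 < q := by linarith
  refine (sum_le_sum fun b hb => column hq hq5 hs h0 (mem_Ioc.1 hb).1.le (mem_Ioc.1 hb).2).trans ?_
  rw [sum_add_distrib, ← mul_sum, ← mul_sum, sum_comm]
  refine add_le_add (mul_le_mul_of_nonneg_left ?_ (by positivity))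
    (mul_le_mul_of_nonneg_left (sum_le_sum fun y hy => ?_) (by positivity))
  · have h1 := drop_le (fun t => t ^ q) (fun s t h1 h2 => Real.rpow_le_rpow h1 h2 hq0.le) f hB
    simp only [h0, Nat.cast_zero, Real.zero_rpow hq0.ne', zero_add] at h1
    have h2 := Real.rpow_nonneg (XX_nonneg f lo B) q
    refine le_trans (by linarith) (h1.trans (sum_le_sum fun t _ => ?_))
    split_ifs with h3
    · have := hs t
      rw [show f t = f (t - 1) + 1 by omega, DD]
      push_cast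
      exact max_le le_rfl (sub_nonneg.2 (Real.rpow_le_rpow (by positivity) (by linarith) hq0.le))
    · exact max_le (sub_nonpos.2 (Real.rpow_le_rpow (by positivity)
        (by exact_mod_cast not_lt.1 h3) hq0.le)) le_rfl
  · by_cases c : f y < f (y - 1)
    swap
    · simp [EE, c]
    rw [mem_Ioc] at hy
    have e1 : ∀ G : ℤ → ℝ, ∑ a ∈ Ioc lo B, (if y < a then G a else 0) = ∑ a ∈ Ioc y B, G a := by
      intro G
      rw [← sum_filter]; congr 1; ext; simp only [mem_filter, mem_Ioc]; omega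
    have hy0 : (0 : ℝ) ≤ f y + 1 := by positivity
    have hm : ∀ s t : ℝ, s ≤ t → max s (f y + 1) ^ (q - 1) ≤ max t (f y + 1) ^ (q - 1) :=
      fun s t h => Real.rpow_le_rpow (hy0.trans (le_max_right _ _)) (max_le_max_right _ h)
        (by linarith)
    have h1 := drop_le (fun t => max t (f y + 1) ^ (q - 1)) (fun s t _ h => hm s t h) f hy.2
    have h2 := hm _ _ (le_XX f (le_refl y))
    have h3 : max (f y : ℝ) (f y + 1) ^ (q - 1) ≤ max (XX f y B) (f y + 1) ^ (q - 1) :=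
      Real.rpow_le_rpow (hy0.trans (le_max_right _ _))
        (max_le (by linarith [le_max_right (XX f y B) (f y + 1)]) (le_max_right _ _)) (by linarith)
    simp only [c, and_true, true_and, EE, ite_and, e1] at h1 ⊢
    refine le_trans (b := ∑ t ∈ Ioc y B, _) (by linarith) (sum_le_sum fun t _ => ?_)
    split_ifs with h4 h5
    · have := hs t
      have h6 : (f y : ℝ) + 1 ≤ f (t - 1) := by exact_mod_cast h5
      rw [show f t = f (t - 1) + 1 by omega, DD]
      push_cast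
      rw [max_eq_left h6, max_eq_left (show (f y : ℝ) + 1 ≤ f (t - 1) + 1 by linarith)]
      exact max_le le_rfl (sub_nonneg.2 (Real.rpow_le_rpow (by positivity) (by linarith)
        (by linarith)))
    · have := hs t
      have h6 : (f t : ℝ) ≤ f y + 1 := by exact_mod_cast (by omega : f t ≤ f y + 1)
      have h7 : (f (t - 1) : ℝ) ≤ f y + 1 := by exact_mod_cast (by omega : f (t - 1) ≤ f y + 1)
      rw [max_eq_right h6, max_eq_right h7, sub_self, max_self]
    · exact max_le (sub_nonpos.2 (hm _ _ (by exact_mod_cast not_lt.1 h4))) le_rfl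

end Pool.Agent.P.MP_f9323a_an.Exc
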