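import Pool.Agent.P.MP_f9323a_an.ExcB

/-! Counting ascents and descents: both one-sided bounds together. -/

namespace Pool.Agent.P.MP_f9323a_an.Exc

open Finset

variable {p q : ℝ} {f : ℤ → ℕ} {a b k lo : ℤ}

/-- Indicator of an ascent. -/
def up (f : ℤ → ℕ) (t : ℤ) : ℝ := if f (t - 1) < f t then 1 else 0

/-- Indicator of a descent. -/
def dn (f : ℤ → ℕ) (t : ℤ) : ℝ := if f t < f (t - 1) then 1 else 0

theorem up_nonneg (f : ℤ → ℕ) (t : ℤ) : 0 ≤ up f t := by unfold up; split_ifs <;> norm_num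

theorem dn_nonneg (f : ℤ → ℕ) (t : ℤ) : 0 ≤ dn f t := by unfold dn; split_ifs <;> norm_num

theorem up_eq (hs : Steps f) (h0 : f lo = 0) (h : lo ≤ k) :
    ∑ t ∈ Ioc lo k, up f t = f k + ∑ t ∈ Ioc lo k, dn f t := by
  simpa [up, dn, -sum_boole] using levels hs h0 (fun _ => 1) h

theorem DD_nonneg (hp : 0 ≤ p) (j : ℕ) : 0 ≤ DD p j :=
  sub_nonneg.2 (Real.rpow_le_rpow (by positivity) (by linarith) hp)

theorem DD_succ (hp : 1 ≤ p) (j : ℕ) : DD p j ≤ DD p (j + 1) := by
  have := step_mono hp (show (0 : ℝ) ≤ j by positivity)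
  unfold DD; push_cast; exact this

theorem downs_le (hp : 1 ≤ p) (hs : Steps f) (h : lo ≤ k) : ∀ i : ℕ, f k ≤ i →
    ∑ y ∈ Ioc lo k, (if f y < f (y - 1) then DD p (max (f y) i) else 0) ≤
      (i + ∑ t ∈ Ioc lo k, dn f t) ^ p - i ^ p := by
  induction k, h using Int.leInduction with
  | base => simp
  | succ k h ih =>
    intro i hi
    rw [sum_Ioc_succ _ h, sum_Ioc_succ _ h, dn, add_sub_cancel_right]
    have h1 := hs (k + 1)
    rw [add_sub_cancel_right] at h1
    split_ifs with h2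
    · have h3 := ih (i + 1) (by omega)
      have h4 : ∑ y ∈ Ioc lo k, (if f y < f (y - 1) then DD p (max (f y) i) else 0) ≤
          ∑ y ∈ Ioc lo k, (if f y < f (y - 1) then DD p (max (f y) (i + 1)) else 0) := by
        refine sum_le_sum fun y _ => ?_
        split_ifs
        · rcases le_or_gt (f y) i with h5 | h5
          · rw [max_eq_right h5, max_eq_right (by omega)]; exact DD_succ hp i
          · rw [max_eq_left h5.le, max_eq_left (by omega)]
        · exact le_rfl
      rw [max_eq_right hi, DD, ← add_assoc, add_right_comm (i : ℝ)]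
      push_cast at h3
      linarith
    · simpa using ih i (by omega)

theorem pairs_le (hq : 2 ≤ q) (hs : Steps f) (h0 : f lo = 0) (h : lo ≤ k) :
    ∑ t ∈ Ioc lo k, (if f (t - 1) < f t then DD q (f (t - 1)) + q * ∑ y ∈ Ioc lo (t - 1),
      (if f y < f (y - 1) then DD (q - 1) (max (f y) (f (t - 1))) else 0) else 0) ≤
      (∑ t ∈ Ioc lo k, up f t) ^ q := by
  induction k, h using Int.leInduction with
  | base => simp [Real.zero_rpow (show q ≠ 0 by linarith)]
  | succ k h ih =>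
    rw [sum_Ioc_succ _ h, sum_Ioc_succ _ h, up, add_sub_cancel_right]
    split_ifs with h2
    · have h3 := downs_le (p := q - 1) (by linarith) hs h (f k) le_rfl
      have h4 := up_eq hs h0 h
      have h5 := second_mono hq (show (0 : ℝ) ≤ f k by positivity) (y := ∑ t ∈ Ioc lo k, up f t)
        (by linarith [sum_nonneg fun t (_ : t ∈ Ioc lo k) => dn_nonneg f t])
      rw [← h4] at h3
      have h6 := mul_le_mul_of_nonneg_left h3 (show 0 ≤ q by linarith)
      rw [DD]
      linarith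
    · simpa using ih

theorem sum_flip (G : ℤ → ℝ) (B : ℤ) : ∑ t ∈ Ioc (-B) B, G t = ∑ t ∈ Ioc (-B) B, G (1 - t) := by
  refine sum_nbij' (fun t => 1 - t) (fun t => 1 - t) ?_ ?_ ?_ ?_ ?_ <;>
    intro t ht <;> simp only [mem_Ioc, sub_sub_cancel] at ht ⊢ <;> omega

theorem Steps.neg (hs : Steps f) : Steps fun t => f (-t) := by
  intro t
  have := hs (-(t - 1))
  rw [show -(t - 1) - 1 = -t by ring] at this
  simp only
  omega

theorem both (hq : 2 ≤ q) (hq5 : q ≤ 5) (hs : Steps f) {B : ℤ} (hB : 0 ≤ B) (h0 : f (-B) = 0)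
    (h1 : f B = 0) : ∑ b ∈ Ioc (-B) B, ∑ a ∈ Ioc (-B) B, FF q f a b +
      ∑ b ∈ Ioc (-B) B, ∑ a ∈ Ioc (-B) B, FF q (fun t => f (-t)) a b ≤
      2 * ((2 / q) ^ q / q) / q * (∑ t ∈ Ioc (-B) B, up f t) ^ q := by
  have hq0 : 0 < q := by linarith
  have hc : 0 < (2 / q) ^ q / q := by positivity
  have s1 := side hq hq5 hs h0 (B := B) (by omega)
  have s2 := side (lo := -B) hq hq5 hs.neg (by simpa using h1) (B := B) (by omega)
  have e1 : ∑ t ∈ Ioc (-B) B, (if f (-(t - 1)) < f (-t) then DD q (f (-(t - 1))) else 0) =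
      ∑ t ∈ Ioc (-B) B, if f (t - 1) < f t then DD q (f (t - 1)) else 0 := by
    rw [levels hs h0 _ (by omega), h1, sum_flip]
    simp
  have e2 : ∑ y ∈ Ioc (-B) B, ∑ t ∈ Ioc (-B) B, EE q (fun t => f (-t)) y t =
      ∑ t ∈ Ioc (-B) B, ∑ y ∈ Ioc (-B) B, EE q (fun t => f (-t)) (1 - t) (1 - y) := by
    rw [sum_flip]; exact sum_congr rfl fun _ _ => sum_flip _ _
  have e3 : ∑ t ∈ Ioc (-B) B, ∑ y ∈ Ioc (-B) B, EE q f y t +
      ∑ t ∈ Ioc (-B) B, ∑ y ∈ Ioc (-B) B, EE q (fun t => f (-t)) (1 - t) (1 - y) ≤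
      ∑ t ∈ Ioc (-B) B, if f (t - 1) < f t then ∑ y ∈ Ioc (-B) (t - 1),
        (if f y < f (y - 1) then DD (q - 1) (max (f y) (f (t - 1))) else 0) else 0 := by
    rw [← sum_add_distrib]
    refine sum_le_sum fun t ht => ?_
    rw [← sum_add_distrib]
    have e4 : ∀ G : ℤ → ℝ, ∑ y ∈ Ioc (-B) (t - 1), G y =
        ∑ y ∈ Ioc (-B) B, if y < t then G y else 0 := by
      intro G
      rw [← sum_filter]; congr 1; ext; simp only [mem_filter, mem_Ioc] at ht ⊢; omega
    have e9 : ∀ (P : Prop) [Decidable P] (G : ℤ → ℝ), (if P then ∑ y ∈ Ioc (-B) B, G y else 0) =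
        ∑ y ∈ Ioc (-B) B, if P then G y else 0 := fun P _ G => by split_ifs <;> simp
    rw [e4, e9]
    refine sum_le_sum fun y _ => ?_
    have e5 : -(1 - t) = t - 1 := by ring
    have e6 : -(1 - t - 1) = t := by ring
    have e7 : -(1 - y) = y - 1 := by ring
    have e8 : -(1 - y - 1) = y := by ring
    have d0 := DD_nonneg (show 0 ≤ q - 1 by linarith) (max (f y) (f (t - 1)))
    simp only [EE, e5, e6, e7, e8, sub_lt_sub_iff_left]
    by_cases c1 : y < t <;> by_cases c2 : f y < f (y - 1) <;> by_cases c3 : f (t - 1) < f t <;>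
      simp only [c1, c2, c3, true_and, false_and, and_false, if_true, if_false, add_zero, le_refl]
    split_ifs with c4 c5 c5
    · omega
    · rw [max_eq_right c4.le, add_zero]
    · rw [max_eq_left c5.le, zero_add]
    · rwa [add_zero]
  have e4 := pairs_le hq hs h0 (k := B) (by omega)
  simp only [e1, e2] at s2
  rw [sum_comm (f := EE q f)] at s1
  have e8 : ∀ (P : Prop) [Decidable P] (X Y : ℝ), (if P then X + q * Y else 0) =
      (if P then X else 0) + q * if P then Y else 0 := fun P _ X Y => by split_ifs <;> simp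
  simp only [e8] at e4
  rw [sum_add_distrib, ← mul_sum] at e4
  have e5 := mul_le_mul_of_nonneg_left e4 (show 0 ≤ 2 * ((2 / q) ^ q / q) / q by positivity)
  have e6 := mul_le_mul_of_nonneg_left e3 (show 0 ≤ 2 * ((2 / q) ^ q / q) by positivity)
  have e7 : ∀ X Y : ℝ, 2 * ((2 / q) ^ q / q) / q * (X + q * Y) =
      2 * ((2 / q) ^ q / q / q * X) + 2 * ((2 / q) ^ q / q) * Y := fun X Y => by field_simp
  rw [e7] at e5
  linarith

end Pool.Agent.P.MP_f9323a_an.Exc
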