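import Pool.Agent.P.MP_f9323a_an.ExcC

/-! Evolution of the energy along the scales. -/

namespace Pool.Agent.P.MP_f9323a_an.Exc

open Finset

variable {ε q S0 m : ℝ} {f : ℤ → ℕ} {a b : ℤ}

/-- Fractional mean over an interval. -/
noncomputable def GG (ε : ℝ) (f : ℤ → ℕ) (a b : ℤ) : ℝ := SS f a b / (b - a + 1) ^ ε

/-- Supremum over the intervals concentric with a given one and containing it. -/
noncomputable def MM (ε : ℝ) (f : ℤ → ℕ) (a b : ℤ) : ℝ := ⨆ j : ℕ, GG ε f (a - j) (b + j)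

theorem two_le (h0 : 0 ≤ ε) (h1 : ε ≤ 1 / 2) (hq : ε * q = 1) : 2 ≤ q := by
  by_contra hc
  rcases h0.eq_or_lt with h | h
  · rw [← h] at hq; simp at hq
  · nlinarith [not_le.1 hc]

theorem ln_one (h : a ≤ b) : (1 : ℝ) ≤ b - a + 1 := by
  have : (a : ℝ) ≤ b := by exact_mod_cast h
  linarith

theorem GG_nonneg (ε : ℝ) (f : ℤ → ℕ) (h : a ≤ b) : 0 ≤ GG ε f a b :=
  div_nonneg (SS_nonneg f a b) (Real.rpow_nonneg (ln_pos h).le _)

theorem GG_le_MM (h0 : 0 ≤ ε) (hS : ∀ a b, SS f a b ≤ S0) (h : a ≤ b) (j : ℕ) :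
    GG ε f (a - j) (b + j) ≤ MM ε f a b := by
  refine le_ciSup (f := fun j : ℕ => GG ε f (a - j) (b + j)) ⟨S0, ?_⟩ j
  rintro _ ⟨i, rfl⟩
  exact (div_le_self (SS_nonneg _ _ _) (Real.one_le_rpow (ln_one (by omega)) h0)).trans (hS _ _)

theorem MM_le {C : ℝ} (h : ∀ j : ℕ, GG ε f (a - j) (b + j) ≤ C) : MM ε f a b ≤ C := ciSup_le h

theorem GG_le_MM0 (h0 : 0 ≤ ε) (hS : ∀ a b, SS f a b ≤ S0) (h : a ≤ b) :
    GG ε f a b ≤ MM ε f a b := by simpa using GG_le_MM h0 hS h 0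

theorem GG_le_MM1 (h0 : 0 ≤ ε) (hS : ∀ a b, SS f a b ≤ S0) (h : a ≤ b) (j : ℕ) :
    GG ε f (a - (j + 1 : ℕ)) (b + (j + 1 : ℕ)) ≤ MM ε f (a - 1) (b + 1) := by
  have := GG_le_MM h0 hS (show a - 1 ≤ b + 1 by omega) j
  convert this using 2 <;> push_cast <;> ring

theorem MM_pred_le (h0 : 0 ≤ ε) (hS : ∀ a b, SS f a b ≤ S0) (h : a ≤ b) :
    MM ε f (a - 1) (b + 1) ≤ MM ε f a b := by
  refine MM_le fun j => ?_
  have := GG_le_MM h0 hS h (j + 1)
  convert this using 2 <;> push_cast <;> ring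

theorem MM_le_max (h0 : 0 ≤ ε) (hS : ∀ a b, SS f a b ≤ S0) (h : a ≤ b) :
    MM ε f a b ≤ max (GG ε f a b) (MM ε f (a - 1) (b + 1)) := by
  refine MM_le fun j => ?_
  cases j with
  | zero => simp
  | succ j => exact (GG_le_MM1 h0 hS h j).trans (le_max_right _ _)

theorem drop2 (h0 : 0 ≤ ε) (h1 : ε ≤ 1) {S σ l : ℝ} (hS : 0 ≤ S) (hl : 0 < l) :
    S / l ^ ε - (S + σ) / (l + 2) ^ ε ≤ max (2 * ε * (S / l) - σ) 0 / l ^ ε := by
  have p1 := Real.rpow_pos_of_pos hl ε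
  have p2 := Real.rpow_le_rpow hl.le (show l ≤ l + 2 by linarith) h0
  have p3 : (l + 2) ^ ε ≤ l ^ ε * (1 + ε * (2 / l)) := by
    rw [show l + 2 = l * (1 + 2 / l) by field_simp, Real.mul_rpow hl.le (by positivity)]
    exact mul_le_mul_of_nonneg_left (rpow_one_add_le_one_add_mul_self
      (by have : 0 < 2 / l := by positivity
          linarith) h0 h1) p1.le
  have p4 := le_max_left (2 * ε * (S / l) - σ) 0
  have p5 := le_max_right (2 * ε * (S / l) - σ) 0
  have p6 := p1.trans_le p2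
  rw [div_sub_div _ _ p1.ne' p6.ne', div_le_div_iff₀ (mul_pos p1 p6) p1]
  have p7 := mul_le_mul_of_nonneg_left p3 hS
  have p8 := mul_le_mul_of_nonneg_left p2 p5
  have p9 := mul_le_mul_of_nonneg_right p4 p1.le
  have e : S * (l ^ ε * (1 + ε * (2 / l))) = S * l ^ ε + 2 * ε * (S / l) * l ^ ε := by ring
  have : S * (l + 2) ^ ε - l ^ ε * (S + σ) ≤ max (2 * ε * (S / l) - σ) 0 * (l + 2) ^ ε := by
    linarith
  nlinarith [mul_le_mul_of_nonneg_right this p1.le]

theorem record (h0 : 0 ≤ ε) (h1 : ε ≤ 1 / 2) (h : a ≤ b)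
    (hr : ∀ j : ℕ, GG ε f (a - (j + 1 : ℕ)) (b + (j + 1 : ℕ)) < GG ε f a b) (c : ℤ) (hc : c < a) :
    avg f c b < avg f a b := by
  by_contra hh
  push Not at hh
  obtain ⟨j, rfl⟩ : ∃ j : ℕ, c = a - (j + 1 : ℕ) := ⟨(a - c - 1).toNat, by omega⟩
  refine (hr j).not_ge ?_
  have hl := ln_pos h
  have hA := avg_nonneg f h
  set d : ℝ := ((j + 1 : ℕ) : ℝ) with hd
  have hd0 : 0 < d := by positivity
  have e0 : SS f a b = avg f a b * (b - a + 1) := by rw [avg, div_mul_cancel₀ _ hl.ne']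
  have e1 : (((b + (j + 1 : ℕ) : ℤ) : ℝ) - ((a - (j + 1 : ℕ) : ℤ) : ℝ) + 1) = b - a + 1 + 2 * d := by
    rw [hd]; push_cast; ring
  have e2 : ((b : ℝ) - ((a - (j + 1 : ℕ) : ℤ) : ℝ) + 1) = b - a + 1 + d := by
    rw [hd]; push_cast; ring
  conv_rhs at hh => rw [avg, e2]
  rw [le_div_iff₀ (by linarith)] at hh
  have h2 := hh.trans (SS_mono f (le_refl _) (show b ≤ b + (j + 1 : ℕ) by omega))
  rw [GG, GG, e1, e0]
  set l : ℝ := b - a + 1
  have p1 := Real.rpow_pos_of_pos hl ε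
  have h3 : (l + 2 * d) ^ ε ≤ l ^ ε * (1 + d / l) := by
    rw [show l + 2 * d = l * (1 + 2 * d / l) by field_simp, Real.mul_rpow hl.le (by positivity)]
    refine mul_le_mul_of_nonneg_left ((rpow_one_add_le_one_add_mul_self
      (by have : 0 < 2 * d / l := by positivity
          linarith) h0 (by linarith)).trans ?_) p1.le
    have : 0 < d / l := by positivity
    rw [mul_div_assoc]
    nlinarith
  rw [div_le_div_iff₀ p1 (by positivity)]
  calc _ ≤ avg f a b * l * (l ^ ε * (1 + d / l)) := mul_le_mul_of_nonneg_left h3 (by positivity)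
    _ = avg f a b * (l + d) * l ^ ε := by field_simp
    _ ≤ _ := mul_le_mul_of_nonneg_right h2 p1.le

theorem half (hq : 2 ≤ q) (hs : Steps f) (hm : ∀ t, (f t : ℝ) ≤ m) (h : a ≤ b)
    (hr : ∀ c, c < a → avg f c b < avg f a b) :
    (max (2 / q * avg f a b - f a - f b) 0 + 2) / (b - a + 1) *
      max (ph q (f a - f b) - ph q (f (a - 1) - f b)) 0 ≤
      FF q f a b + 2 / (b - a + 1) * ((q - 1) * m ^ (q - 2) * up f a) := by
  have hl := ln_pos h
  rw [FF, if_pos ⟨h, hr⟩, add_div, add_mul]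
  refine add_le_add le_rfl (mul_le_mul_of_nonneg_left ?_ (by positivity))
  have h0 : ∀ t, (0 : ℝ) ≤ f t := fun t => by positivity
  have h1 : 0 ≤ (q - 1) * m ^ (q - 2) :=
    mul_nonneg (by linarith) (Real.rpow_nonneg ((h0 a).trans (hm a)) _)
  unfold up
  split_ifs with c
  · have h8 : (f a : ℝ) = f (a - 1) + 1 := by
      have := hs a
      exact_mod_cast (by omega : f a = f (a - 1) + 1)
    have := ph_lip hq (x := f a - f b) (y := f (a - 1) - f b) (z := m) (by linarith)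
      (abs_le.2 ⟨by linarith [h0 a, hm b], by linarith [h0 b, hm a]⟩)
      (abs_le.2 ⟨by linarith [h0 (a - 1), hm b], by linarith [h0 b, hm (a - 1)]⟩)
    rw [show (f a : ℝ) - f b - (f (a - 1) - f b) = 1 by linarith] at this
    exact max_le this (by linarith)
  · have h8 : (f a : ℝ) ≤ f (a - 1) := by exact_mod_cast not_lt.1 c
    rw [mul_zero]
    exact max_le (sub_nonpos.2 (ph_mono hq (by linarith))) le_rfl

theorem SS_neg (f : ℤ → ℕ) (a b : ℤ) : SS (fun t => f (-t)) a b = SS f (-b) (-a) := by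
  refine sum_nbij' (fun t => -t) (fun t => -t) ?_ ?_ ?_ ?_ ?_ <;>
    intro t ht <;> simp only [mem_Icc, neg_neg] at ht ⊢ <;> omega

theorem GG_neg (ε : ℝ) (f : ℤ → ℕ) (a b : ℤ) : GG ε (fun t => f (-t)) a b = GG ε f (-b) (-a) := by
  rw [GG, GG, SS_neg]; congr 2; push_cast; ring

theorem pointwise (h0 : 0 ≤ ε) (h1 : ε ≤ 1 / 2) (hq : ε * q = 1) (hS : ∀ a b, SS f a b ≤ S0)
    (hs : Steps f) (hm : ∀ t, (f t : ℝ) ≤ m) (h : a ≤ b) :
    (MM ε f a b - MM ε f (a - 1) (b + 1)) * (ph q (MM ε f a b - MM ε f (a - 1) (b - 1)) -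
      ph q (MM ε f (a + 1) (b + 1) - MM ε f a b)) ≤
      FF q f a b + FF q (fun t => f (-t)) (-b) (-a) +
        2 / (b - a + 1) * ((q - 1) * m ^ (q - 2) * (up f a + dn f (b + 1))) := by
  have hq2 := two_le h0 h1 hq
  have hl := ln_pos h
  have hf : ∀ t, (0 : ℝ) ≤ f t := fun t => by positivity
  rcases (MM_pred_le h0 hS h).eq_or_lt with c | c
  · rw [c, sub_self, zero_mul]
    have := FF_nonneg q f a b
    have := FF_nonneg q (fun t => f (-t)) (-b) (-a)
    have := up_nonneg f a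
    have := dn_nonneg f (b + 1)
    have := (hf a).trans (hm a)
    have : 0 ≤ q - 1 := by linarith
    positivity
  have c1 : MM ε f a b = GG ε f a b := le_antisymm
    ((le_max_iff.1 (MM_le_max h0 hS h)).resolve_right c.not_ge) (GG_le_MM0 h0 hS h)
  have c2 : ∀ j : ℕ, GG ε f (a - (j + 1 : ℕ)) (b + (j + 1 : ℕ)) < GG ε f a b :=
    fun j => (GG_le_MM1 h0 hS h j).trans_lt (c1 ▸ c)
  have k1 := half hq2 hs hm h (record h0 h1 h c2)
  have k2 := half (f := fun t => f (-t)) (a := -b) (b := -a) hq2 hs.neg (fun t => hm _) (by omega)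
    (record h0 h1 (by omega) fun j => by
      rw [GG_neg, GG_neg, neg_neg, neg_neg]
      convert c2 j using 2 <;> ring)
  have e1 : avg (fun t => f (-t)) (-b) (-a) = avg f a b := by
    rw [avg, avg, SS_neg, neg_neg, neg_neg]; congr 1; push_cast; ring
  have e2 : up (fun t => f (-t)) (-b) = dn f (b + 1) := by
    simp only [up, dn, neg_neg, add_sub_cancel_right, show -(-b - 1) = b + 1 by ring]
  have e3 : ((-a : ℤ) : ℝ) - ((-b : ℤ) : ℝ) + 1 = b - a + 1 := by push_cast; ring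
  simp only [e1, e2, e3, neg_neg, show -(-b - 1) = b + 1 by ring] at k2
  rw [sub_right_comm] at k2
  have p1 := Real.rpow_pos_of_pos hl ε
  have s1 := SS_pred f (show a ≤ b + 1 by omega)
  have s2 := SS_succ f (show a - 1 ≤ b + 1 by omega)
  have s3 := SS_succ f (show a - 1 ≤ b - 1 + 1 by omega)
  have s4 := SS_succ f (show a ≤ b + 1 by omega)
  have s5 := SS_pred f (show a + 1 ≤ b + 1 + 1 by omega)
  rw [sub_add_cancel] at s3
  rw [add_sub_cancel_right] at s5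
  have g1 : MM ε f a b - MM ε f (a - 1) (b - 1) ≤ (f b - f (a - 1)) / (b - a + 1) ^ ε := by
    have := GG_le_MM0 h0 hS (show a - 1 ≤ b - 1 by omega)
    rw [GG, show ((b - 1 : ℤ) : ℝ) - ((a - 1 : ℤ) : ℝ) + 1 = b - a + 1 by push_cast; ring] at this
    rw [c1, GG, show (f b : ℝ) - f (a - 1) = SS f a b - SS f (a - 1) (b - 1) by linarith, sub_div]
    linarith
  have g2 : (f (b + 1) - f a) / (b - a + 1) ^ ε ≤ MM ε f (a + 1) (b + 1) - MM ε f a b := by
    have := GG_le_MM0 h0 hS (show a + 1 ≤ b + 1 by omega)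
    rw [GG, show ((b + 1 : ℤ) : ℝ) - ((a + 1 : ℤ) : ℝ) + 1 = b - a + 1 by push_cast; ring] at this
    rw [c1, GG, show (f (b + 1) : ℝ) - f a = SS f (a + 1) (b + 1) - SS f a b by linarith, sub_div]
    linarith
  have g3 : MM ε f a b - MM ε f (a - 1) (b + 1) ≤
      (max (2 / q * avg f a b - f a - f b) 0 + 2) / (b - a + 1) ^ ε := by
    have t1 := GG_le_MM0 h0 hS (show a - 1 ≤ b + 1 by omega)
    rw [GG, show ((b + 1 : ℤ) : ℝ) - ((a - 1 : ℤ) : ℝ) + 1 = b - a + 1 + 2 by push_cast; ring,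
      s2, s1, add_assoc (SS f a b)] at t1
    have t2 := drop2 h0 (by linarith) (σ := f (a - 1) + f (b + 1)) (SS_nonneg f a b) hl
    have t3 : (f a : ℝ) ≤ f (a - 1) + 1 := by
      have := hs a
      exact_mod_cast (by omega : f a ≤ f (a - 1) + 1)
    have t4 : (f b : ℝ) ≤ f (b + 1) + 1 := by
      have := hs (b + 1)
      rw [add_sub_cancel_right] at this
      exact_mod_cast (by omega : f b ≤ f (b + 1) + 1)
    have t5 : 2 / q = 2 * ε := by
      rw [div_eq_iff (by linarith)]; linarith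
    rw [c1, GG, t5, avg]
    refine (le_trans (by linarith) t2).trans (div_le_div_of_nonneg_right (max_le ?_ ?_) p1.le)
    · linarith [le_max_left (2 * ε * (SS f a b / (b - a + 1)) - f a - f b) 0]
    · positivity
  have g4 := ph_mono hq2 g1
  have g5 := ph_mono hq2 g2
  rw [ph_div q _ p1] at g4 g5
  have p2 := Real.rpow_pos_of_pos p1 (q - 1)
  have e4 : ((b : ℝ) - a + 1) ^ ε * (((b : ℝ) - a + 1) ^ ε) ^ (q - 1) = b - a + 1 := by
    rw [← Real.rpow_mul hl.le, ← Real.rpow_add hl, show ε + ε * (q - 1) = 1 by linarith,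
      Real.rpow_one]
  have n1 := ph_neg q (f a - f b)
  have n2 := ph_neg q (f (a - 1) - f b)
  rw [neg_sub] at n1 n2
  set P := max (ph q (f a - f b) - ph q (f (a - 1) - f b)) 0 with hP
  set N := max (ph q (f b - f a) - ph q (f (b + 1) - f a)) 0 with hN
  have g6 : ph q (MM ε f a b - MM ε f (a - 1) (b - 1)) - ph q (MM ε f (a + 1) (b + 1) - MM ε f a b)
      ≤ (P + N) / (((b : ℝ) - a + 1) ^ ε) ^ (q - 1) := by
    refine (sub_le_sub g4 g5).trans ?_
    rw [← sub_div]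
    refine div_le_div_of_nonneg_right ?_ p2.le
    linarith [le_max_left (ph q (f a - f b) - ph q (f (a - 1) - f b)) 0,
      le_max_left (ph q (f b - f a) - ph q (f (b + 1) - f a)) 0]
  have hP0 : 0 ≤ P := le_max_right _ _
  have hN0 : 0 ≤ N := le_max_right _ _
  refine (mul_le_mul_of_nonneg_left g6 (by linarith)).trans
    ((mul_le_mul_of_nonneg_right g3 (by positivity)).trans ?_)
  rw [div_mul_div_comm, e4, mul_div_right_comm]
  linarith

theorem abel (hq : 2 ≤ q) (u v : ℤ → ℝ) (h0 : u a = v a) (h : a ≤ b) :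
    ∑ t ∈ Ioc a b, |u t - u (t - 1)| ^ q ≤ ∑ t ∈ Ioc a b, |v t - v (t - 1)| ^ q +
      q * ∑ t ∈ Ioc a b, (u t - v t) * (ph q (u t - u (t - 1)) - ph q (u (t + 1) - u t)) +
      q * (u b - v b) * ph q (u (b + 1) - u b) := by
  induction b, h using Int.leInduction with
  | base => simp [h0]
  | succ b h ih =>
    rw [sum_Ioc_succ _ h, sum_Ioc_succ _ h, sum_Ioc_succ _ h, add_sub_cancel_right]
    have := ph_tang hq (u (b + 1) - u b) (v (b + 1) - v b)
    linarith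

theorem sum_inj {ι κ : Type*} {s : Finset ι} {t : Finset κ} (i : ι → κ) (hi : Set.InjOn i s)
    (h : ∀ x ∈ s, i x ∈ t) {F : κ → ℝ} (hF : ∀ y, 0 ≤ F y) : ∑ x ∈ s, F (i x) ≤ ∑ y ∈ t, F y := by
  classical
  rw [← sum_image hi]
  exact sum_le_sum_of_subset_of_nonneg (image_subset_iff.2 h) fun y _ _ => hF y

/-- The energy at a scale. -/
noncomputable def En (ε q : ℝ) (f : ℤ → ℕ) (K : ℤ) (n : ℕ) : ℝ :=
  ∑ a ∈ Ioc (-K - n) K, |MM ε f a (a + n) - MM ε f (a - 1) (a - 1 + n)| ^ q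

theorem En_step (h0 : 0 ≤ ε) (h1 : ε ≤ 1 / 2) (hq : ε * q = 1) (hS : ∀ a b, SS f a b ≤ S0)
    (hs : Steps f) (hm : ∀ t, (f t : ℝ) ≤ m) {K : ℤ} (hK : 0 ≤ K)
    (hz : ∀ t, t ≤ -K ∨ K ≤ t → f t = 0) (n : ℕ) :
    En ε q f K n ≤ En ε q f K (n + 2) + q * ∑ a ∈ Ioc (-K - n) K,
      (FF q f a (a + n) + FF q (fun t => f (-t)) (-(a + n)) (-a) +
        2 / (n + 1) * ((q - 1) * m ^ (q - 2) * (up f a + dn f (a + n + 1)))) := by
  have hq2 := two_le h0 h1 hq
  have z : ∀ a : ℤ, a + n ≤ -K ∨ K ≤ a → MM ε f a (a + n) = MM ε f (a - 1) (a + n + 1) := by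
    intro a ha
    have h : a ≤ a + n := by omega
    refine le_antisymm ((MM_le_max h0 hS h).trans (max_le ?_ le_rfl)) (MM_pred_le h0 hS h)
    rw [GG, SS, sum_eq_zero fun t ht => by rw [mem_Icc] at ht; rw [hz t (by omega), Nat.cast_zero],
      zero_div]
    exact (GG_nonneg ε f (by omega)).trans (GG_le_MM0 h0 hS (by omega))
  have h2 := abel hq2 (fun a => MM ε f a (a + n)) (fun a => MM ε f (a - 1) (a + n + 1))
    (a := -K - n) (b := K) (z _ (by omega)) (by omega)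
  rw [z K (by omega), sub_self, mul_zero, zero_mul, add_zero] at h2
  refine h2.trans (add_le_add ?_ (mul_le_mul_of_nonneg_left (sum_le_sum fun a _ => ?_) (by linarith)))
  · refine le_of_eq_of_le (sum_congr rfl fun a _ => ?_) (sum_inj (fun a => a - 1)
      (fun _ _ _ _ h => by simpa using h) (fun a ha => ?_) fun _ => by positivity)
    · congr 4 <;> push_cast <;> ring
    · rw [mem_Ioc] at ha ⊢; push_cast; omega
  · have := pointwise h0 h1 hq hS hs hm (show a ≤ a + n by omega)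
    rw [show ((a + n : ℤ) : ℝ) - a + 1 = n + 1 by push_cast; ring] at this
    rwa [show a - 1 + n = a + n - 1 by ring, show a + 1 + n = a + n + 1 by ring]

theorem shift (h0 : 0 ≤ ε) (h1 : ε ≤ 1 / 2) (hS : ∀ a b, SS f a b ≤ S0) {c : ℤ} (n : ℕ)
    (hc : c = a - 1 ∨ c = a + 1) :
    MM ε f a (a + n) - MM ε f c (c + n) ≤ S0 / (n + 1) / (n + 1) ^ ε := by
  rw [sub_le_iff_le_add]
  refine MM_le fun j => ?_
  have t1 := GG_le_MM h0 hS (show c ≤ c + n by omega) (j + 1)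
  have hl : (0 : ℝ) < n + 1 := by positivity
  have hj : (0 : ℝ) ≤ j := by positivity
  have t2 := SS_mono f (show c - (j + 1 : ℕ) ≤ a - j by omega)
    (show a + n + j ≤ c + n + (j + 1 : ℕ) by omega)
  have t3 := drop2 h0 (by linarith) (SS_nonneg f (a - j) (a + n + j)) (l := n + 1 + 2 * j)
    (σ := SS f (c - (j + 1 : ℕ)) (c + n + (j + 1 : ℕ)) - SS f (a - j) (a + n + j)) (by positivity)
  rw [add_sub_cancel] at t3
  rw [GG, show ((c + n + (j + 1 : ℕ) : ℤ) : ℝ) - ((c - (j + 1 : ℕ) : ℤ) : ℝ) + 1 =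
    n + 1 + 2 * j + 2 by push_cast; ring] at t1
  rw [GG, show ((a + n + j : ℤ) : ℝ) - ((a - j : ℤ) : ℝ) + 1 = n + 1 + 2 * j by push_cast; ring]
  have hS0 := (SS_nonneg f 0 0).trans (hS 0 0)
  have t4 : SS f (a - j) (a + n + j) / (n + 1 + 2 * j) ≤ S0 / (n + 1) :=
    div_le_div₀ hS0 (hS _ _) hl (by linarith)
  have t5 : 0 ≤ SS f (a - j) (a + n + j) / (n + 1 + 2 * j) :=
    div_nonneg (SS_nonneg _ _ _) (by positivity)
  have t6 := t3.trans (div_le_div₀ (c := S0 / (n + 1)) (by positivity)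
    (max_le (by nlinarith) (by positivity))
    (Real.rpow_pos_of_pos hl ε) (Real.rpow_le_rpow hl.le (by linarith) h0))
  linarith

theorem En_far (h0 : 0 ≤ ε) (h1 : ε ≤ 1 / 2) (hq : ε * q = 1) (hS : ∀ a b, SS f a b ≤ S0)
    {K : ℤ} (hK : 0 ≤ K) {n R : ℕ} (hn : K ≤ n) (hR : R ≤ n) :
    En ε q f K n ≤ 3 * (S0 / (R + 1)) ^ q := by
  have hq0 : 0 ≤ q := by linarith [two_le h0 h1 hq]
  have hl : (0 : ℝ) < n + 1 := by positivity
  have hS0 := (SS_nonneg f 0 0).trans (hS 0 0)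
  refine (sum_le_card_nsmul _ _ ((S0 / (R + 1)) ^ q / (n + 1)) fun a _ => ?_).trans ?_
  · have t1 := shift h0 h1 hS (a := a) n (Or.inl rfl)
    have t2 := shift h0 h1 hS (a := a - 1) (c := a) n (Or.inr (by ring))
    refine (Real.rpow_le_rpow (abs_nonneg _) (abs_le.2 ⟨by linarith, t1⟩) hq0).trans ?_
    rw [Real.div_rpow (by positivity) (by positivity), ← Real.rpow_mul hl.le, hq, Real.rpow_one]
    refine div_le_div_of_nonneg_right (Real.rpow_le_rpow (by positivity)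
      (div_le_div_of_nonneg_left hS0 (by positivity) ?_) hq0) hl.le
    exact_mod_cast Nat.succ_le_succ hR
  · rw [nsmul_eq_mul, Int.card_Ioc, mul_div_assoc', div_le_iff₀ hl, mul_right_comm]
    refine mul_le_mul_of_nonneg_right ?_ (by positivity)
    exact_mod_cast (by omega : (K - (-K - n)).toNat ≤ 3 * (n + 1))

theorem fine (h0 : 0 ≤ ε) (h1 : ε ≤ 1 / 2) (hq : ε * q = 1) (hq5 : q ≤ 5)
    (hS : ∀ a b, SS f a b ≤ S0) (hs : Steps f) (hm : ∀ t, (f t : ℝ) ≤ m) {K : ℤ} (hK : 0 ≤ K)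
    (hz : ∀ t, t ≤ -K ∨ K ≤ t → f t = 0) {W : ℝ} (hW : ∀ s : Finset ℤ, ∑ t ∈ s, up f t ≤ W)
    {R : ℕ} (hR : K ≤ R) :
    En ε q f K 0 + En ε q f K 1 ≤ 2 * ((2 / q) ^ q / q) * W ^ q + 6 * (S0 / (R + 1)) ^ q +
      4 * q * ((q - 1) * m ^ (q - 2)) * W * (1 + Real.log R) := by
  have hq2 := two_le h0 h1 hq
  have hq0 : 0 < q := by linarith
  have tel : ∀ r : ℕ, En ε q f K 0 + En ε q f K 1 ≤ En ε q f K r + En ε q f K (r + 1) +
      q * ∑ n ∈ range r, ∑ a ∈ Ioc (-K - n) K,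
      (FF q f a (a + n) + FF q (fun t => f (-t)) (-(a + n)) (-a) +
        2 / (n + 1) * ((q - 1) * m ^ (q - 2) * (up f a + dn f (a + n + 1)))) := by
    intro r
    induction r with
    | zero => simp
    | succ r ih =>
      rw [sum_range_succ]
      linarith [En_step h0 h1 hq hS hs hm hK hz r]
  have t1 := tel R
  have t2 := En_far h0 h1 hq hS hK hR le_rfl
  have t3 := En_far h0 h1 hq hS hK (n := R + 1) (by push_cast; omega) (Nat.le_succ R)
  have z0 := hz (-(K + R)) (by omega)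
  have z1 := hz (K + R) (by omega)
  have t4 := both hq2 hq5 hs (B := K + R) (by omega) z0 z1
  simp only [sum_add_distrib] at t1
  have t5 : ∑ n ∈ range R, ∑ a ∈ Ioc (-K - n) K, FF q f a (a + n) ≤
      ∑ b ∈ Ioc (-(K + R)) (K + R), ∑ a ∈ Ioc (-(K + R)) (K + R), FF q f a b := by
    rw [sum_sigma', ← sum_product']
    refine sum_inj (F := fun p : ℤ × ℤ => FF q f p.2 p.1)
      (fun x : (_ : ℕ) × ℤ => (x.2 + x.1, x.2)) ?_ ?_ fun _ => FF_nonneg _ _ _ _
    · rintro ⟨n, a⟩ - ⟨n', a'⟩ - h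
      simp only [Prod.mk.injEq] at h
      rw [show n = n' by omega, h.2]
    · rintro ⟨n, a⟩ h
      simp only [mem_sigma, mem_range, mem_Ioc, mem_product] at h ⊢
      omega
  have t6 : ∑ n ∈ range R, ∑ a ∈ Ioc (-K - n) K, FF q (fun t => f (-t)) (-(a + n)) (-a) ≤
      ∑ b ∈ Ioc (-(K + R)) (K + R), ∑ a ∈ Ioc (-(K + R)) (K + R), FF q (fun t => f (-t)) a b := by
    rw [sum_sigma', ← sum_product']
    refine sum_inj (F := fun p : ℤ × ℤ => FF q (fun t => f (-t)) p.2 p.1)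
      (fun x : (_ : ℕ) × ℤ => (-x.2, -(x.2 + x.1))) ?_ ?_ fun _ => FF_nonneg _ _ _ _
    · rintro ⟨n, a⟩ - ⟨n', a'⟩ - h
      simp only [Prod.mk.injEq] at h
      rw [show n = n' by omega, show a = a' by omega]
    · rintro ⟨n, a⟩ h
      simp only [mem_sigma, mem_range, mem_Ioc, mem_product] at h ⊢
      omega
  have hκ : 0 ≤ (q - 1) * m ^ (q - 2) :=
    mul_nonneg (by linarith) (Real.rpow_nonneg (le_trans (by positivity) (hm 0)) _)
  have hW0 : 0 ≤ W := by simpa using hW ∅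
  have t7 : ∑ n ∈ range R, ∑ a ∈ Ioc (-K - n) K,
      2 / (n + 1) * ((q - 1) * m ^ (q - 2) * (up f a + dn f (a + n + 1))) ≤
      ∑ n ∈ range R, 4 * ((q - 1) * m ^ (q - 2)) * W * ((n + 1 : ℕ) : ℝ)⁻¹ := by
    refine sum_le_sum fun n hn => ?_
    rw [← mul_sum, ← mul_sum, sum_add_distrib]
    have u1 := hW (Ioc (-K - n) K)
    have u2 := sum_inj (s := Ioc (-K - n) K) (t := Ioc (-(K + R)) (K + R)) (fun a => a + n + 1)
      (fun _ _ _ _ h => by simpa using h)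
      (fun a ha => by rw [mem_range] at hn; rw [mem_Ioc] at ha ⊢; omega) (dn_nonneg f)
    have u3 := up_eq hs z0 (k := K + R) (by omega)
    have u4 := hW (Ioc (-(K + R)) (K + R))
    rw [z1, Nat.cast_zero, zero_add] at u3
    calc _ ≤ 2 / (n + 1) * ((q - 1) * m ^ (q - 2) * (2 * W)) :=
          mul_le_mul_of_nonneg_left (mul_le_mul_of_nonneg_left (by linarith) hκ) (by positivity)
      _ = _ := by push_cast; field_simp; ring
  rw [← mul_sum] at t7
  have t8 : ∑ n ∈ range R, ((n + 1 : ℕ) : ℝ)⁻¹ ≤ 1 + Real.log R := by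
    simpa [harmonic] using harmonic_le_one_add_log R
  have t9 := t7.trans (mul_le_mul_of_nonneg_left t8 (by positivity))
  have t10 := Real.rpow_le_rpow (sum_nonneg fun t _ => up_nonneg f t)
    (hW (Ioc (-(K + R)) (K + R))) hq0.le
  have t11 := mul_le_mul_of_nonneg_left (add_le_add ((add_le_add t5 t6).trans (t4.trans
    (mul_le_mul_of_nonneg_left t10 (by positivity)))) t9) hq0.le
  have e : q * (2 * ((2 / q) ^ q / q) / q * W ^ q) = 2 * ((2 / q) ^ q / q) * W ^ q := by field_simp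
  linarith

end Pool.Agent.P.MP_f9323a_an.Exc
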