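import Pool.Agent.P.MP_f9323a_an.ShpA

/-! The lower bound from indicators of long intervals. -/

namespace Pool.Agent.P.MP_f9323a_an

open Finset Filter Topology

variable {α q : ℝ}

/-- the indicator of the interval of radius `L` -/
def ind (L : ℕ) (x : ℤ) : ℝ := if -(L : ℤ) ≤ x ∧ x ≤ L then 1 else 0

theorem ind_abs (L : ℕ) : (fun x => |ind L x|) = ind L := by
  funext x; unfold ind; split_ifs <;> simp

theorem ind_S (L : ℕ) (n : ℤ) (r : ℕ) :
    S (ind L) n r = ((min (n + r) L + 1 - max (n - r) (-(L : ℤ))).toNat : ℝ) := by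
  unfold S ind
  rw [sum_boole, ← Int.card_Icc]
  congr 2
  ext x
  simp only [mem_filter, mem_W, mem_Icc]
  omega

theorem ind_le (hα0 : 0 < α) (hα1 : α ≤ 1 / 2) (L : ℕ) (n : ℤ) (r : ℕ) :
    A α (ind L) n r ≤ len L / len (L + n.natAbs) ^ α := by
  have hl := len_pos r
  have hw := len_pos (L + n.natAbs)
  have hN := len_pos L
  have p1 : 0 < len r ^ α := Real.rpow_pos_of_pos hl _
  have p2 : 0 < len (L + n.natAbs) ^ α := Real.rpow_pos_of_pos hw _
  rw [A, ind_S]
  set c := (min (n + r) L + 1 - max (n - r) (-(L : ℤ))).toNat with hc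
  have c1 : c ≤ 2 * r + 1 := by omega
  have c2 : c ≤ 2 * L + 1 := by omega
  have c3 : c = 0 ∨ c + n.natAbs ≤ r + L + 1 := by omega
  have c0 : (0 : ℝ) ≤ c := Nat.cast_nonneg _
  have d1 : (c : ℝ) ≤ len r := by unfold len; exact_mod_cast c1
  have d2 : (c : ℝ) ≤ len L := by unfold len; exact_mod_cast c2
  rcases le_total (len (L + n.natAbs)) (len r) with h | h
  · exact div_le_div₀ hN.le d2 p2 (Real.rpow_le_rpow hw.le h hα0.le)
  rcases c3 with c3 | c3
  · rw [c3, Nat.cast_zero, zero_div]; positivity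
  have d3 : 2 * (c : ℝ) + (len (L + n.natAbs) - len r) ≤ 2 * len L := by
    have : (c : ℝ) + (n.natAbs : ℝ) ≤ r + L + 1 := by exact_mod_cast c3
    unfold len; rw [Nat.cast_add]; linarith
  set w := len (L + n.natAbs)
  set l := len r
  set N := len L
  have d4 : (c : ℝ) ^ 2 * w ≤ N ^ 2 * l := by
    have e1 : (2 * (c : ℝ) + (w - l)) ^ 2 ≤ (2 * N) ^ 2 :=
      pow_le_pow_left₀ (by linarith) d3 2
    have e2 : (2 * (c : ℝ) + (w - l)) ^ 2 * l ≤ (2 * N) ^ 2 * l :=
      mul_le_mul_of_nonneg_right e1 hl.le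
    have e3 : 0 ≤ (c : ℝ) * (w - l) * (l - c) :=
      mul_nonneg (mul_nonneg c0 (by linarith)) (by linarith)
    have e4 : 0 ≤ (w - l) ^ 2 * l := by positivity
    nlinarith
  have d5 : l / w ≤ ((l / w) ^ α) ^ 2 := by
    rw [← Real.rpow_natCast, ← Real.rpow_mul (by positivity)]
    calc l / w = (l / w) ^ (1 : ℝ) := (Real.rpow_one _).symm
      _ ≤ _ := Real.rpow_le_rpow_of_exponent_ge (by positivity) ((div_le_one hw).2 h)
          (by push_cast; linarith)
  have d6 : ((c : ℝ) / N) ^ 2 ≤ l / w := by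
    rw [div_pow, div_le_div_iff₀ (by positivity) hw]; linarith
  have d7 : (c : ℝ) / N ≤ (l / w) ^ α :=
    (pow_le_pow_iff_left₀ (by positivity) (by positivity) two_ne_zero).1 (d6.trans d5)
  rw [Real.div_rpow hl.le hw.le, div_le_div_iff₀ hN p2] at d7
  rw [div_le_div_iff₀ p1 p2]; linarith

theorem ind_max (β : ℝ) (hβ0 : 1 / 2 ≤ β) (hβ1 : β < 1) (L : ℕ) (n : ℤ) :
    maxFn β (ind L) n = ENNReal.ofReal (len L / len (L + n.natAbs) ^ (1 - β)) := by
  rw [maxFn_eq, ind_abs]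
  apply le_antisymm
  · exact iSup_le fun r => ENNReal.ofReal_le_ofReal (ind_le (by linarith) (by linarith) L n r)
  · refine le_iSup_of_le (L + n.natAbs) (le_of_eq ?_)
    congr 1
    rw [A, ind_S]
    congr 1
    have : (min (n + ((L + n.natAbs : ℕ) : ℤ)) L + 1 -
        max (n - ((L + n.natAbs : ℕ) : ℤ)) (-(L : ℤ))).toNat = 2 * L + 1 := by omega
    rw [this]; unfold len; push_cast; ring

theorem ind_zero (L : ℕ) (n : ℤ) (hn : n ∉ ({(L : ℤ), -(L : ℤ) - 1} : Finset ℤ)) :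
    |ind L (n + 1) - ind L n| = 0 := by
  simp only [mem_insert, mem_singleton, not_or] at hn
  unfold ind
  split_ifs <;> first | omega | simp

theorem ind_var (L : ℕ) : ∑' n, |ind L (n + 1) - ind L n| = 2 := by
  rw [tsum_eq_sum (ind_zero L), sum_pair (by omega)]
  have e1 : ind L ((L : ℤ) + 1) = 0 := if_neg (by omega)
  have e2 : ind L (L : ℤ) = 1 := if_pos (by omega)
  have e3 : ind L (-(L : ℤ) - 1 + 1) = 1 := if_pos (by omega)
  have e4 : ind L (-(L : ℤ) - 1) = 0 := if_neg (by omega)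
  rw [e1, e2, e3, e4]; norm_num

theorem pow_step_rev {γ x : ℝ} (hγ : 0 < γ) (hx : 0 < x) :
    x ^ (-γ) - (x + 1) ^ (-γ) ≤ γ * x ^ (-(1 + γ)) := by
  have hy : 0 < x + 1 := by linarith
  have h1 : (x + 1) ^ (-γ) = x ^ (-γ) * Real.exp (-(γ * Real.log ((x + 1) / x))) := by
    rw [Real.rpow_def_of_pos hx, Real.rpow_def_of_pos hy, ← Real.exp_add,
      Real.log_div hy.ne' hx.ne']
    congr 1; ring
  have h2 : Real.log ((x + 1) / x) ≤ 1 / x := by
    have := Real.log_le_sub_one_of_pos (show 0 < (x + 1) / x by positivity)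
    have e : (x + 1) / x - 1 = 1 / x := by field_simp; ring
    rwa [e] at this
  have h3 := Real.add_one_le_exp (-(γ * Real.log ((x + 1) / x)))
  have h4 : x ^ (-(1 + γ)) = x ^ (-γ) * (1 / x) := by
    rw [show -(1 + γ) = -γ + -1 by ring, Real.rpow_add hx, Real.rpow_neg_one, one_div]
  have p : 0 < x ^ (-γ) := Real.rpow_pos_of_pos hx _
  rw [h4, h1]
  have h5 : γ * Real.log ((x + 1) / x) ≤ γ * (1 / x) := mul_le_mul_of_nonneg_left h2 hγ.le
  nlinarith

theorem ind_step (hα0 : 0 < α) (hq : α * q = 1) (L j : ℕ) :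
    (2 * α) ^ q / (2 * q) * ((len L / 2 / (len L / 2 + j + 1)) ^ q -
      (len L / 2 / (len L / 2 + ((j + 1 : ℕ) : ℝ) + 1)) ^ q) ≤
    (len L / len (L + j) ^ α - len L / len (L + (j + 1)) ^ α) ^ q := by
  have hq0 : 0 < q := by
    by_contra h
    have : α * q ≤ 0 := mul_nonpos_of_nonneg_of_nonpos hα0.le (not_lt.1 h)
    linarith
  have hN := len_pos L
  set h := len L / 2 with hh
  have h0 : 0 < h := by positivity
  have j0 : (0 : ℝ) ≤ j := Nat.cast_nonneg _
  set y := h + j with hy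
  have y0 : 0 < y := by positivity
  have y1 : 0 < y + 1 := by linarith
  have e1 : len (L + j) = 2 * y := by rw [hy, hh]; unfold len; push_cast; ring
  have e2 : len (L + (j + 1)) = 2 * (y + 1) := by rw [hy, hh]; unfold len; push_cast; ring
  have e3 : len L = 2 * h := by rw [hh]; ring
  have e4 : h + ((j + 1 : ℕ) : ℝ) + 1 = y + 1 + 1 := by rw [hy]; push_cast; ring
  have p2 : (0 : ℝ) < 2 ^ α := by positivity
  have s1 := pow_step hα0 y0
  have s2 := pow_step_rev hq0 y1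
  have a1 : 2 * h / 2 ^ α * (α * (y + 1) ^ (-(1 + α))) ≤
      len L / len (L + j) ^ α - len L / len (L + (j + 1)) ^ α := by
    rw [e1, e2, e3, Real.mul_rpow (by norm_num) y0.le, Real.mul_rpow (by norm_num) y1.le]
    calc _ ≤ 2 * h / 2 ^ α * (y ^ (-α) - (y + 1) ^ (-α)) :=
          mul_le_mul_of_nonneg_left s1 (by positivity)
      _ = _ := by
          rw [Real.rpow_neg y0.le, Real.rpow_neg y1.le]; field_simp
  refine le_trans ?_ (Real.rpow_le_rpow (by positivity) a1 hq0.le)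
  have a2 : (2 * h / 2 ^ α * (α * (y + 1) ^ (-(1 + α)))) ^ q =
      (2 * α) ^ q / 2 * h ^ q * (y + 1) ^ (-(1 + q)) := by
    rw [show 2 * h / 2 ^ α * (α * (y + 1) ^ (-(1 + α))) =
      2 * α / 2 ^ α * h * (y + 1) ^ (-(1 + α)) by ring,
      Real.mul_rpow (by positivity) (by positivity), Real.mul_rpow (by positivity) h0.le,
      Real.div_rpow (by positivity) p2.le, ← Real.rpow_mul (by norm_num), hq, Real.rpow_one,
      ← Real.rpow_mul y1.le, show -(1 + α) * q = -(1 + q) by linarith]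
  rw [a2, e4, Real.div_rpow h0.le y1.le, Real.div_rpow h0.le (by linarith), div_eq_mul_inv (h ^ q),
    div_eq_mul_inv (h ^ q), ← Real.rpow_neg y1.le, ← Real.rpow_neg (by linarith), ← mul_sub]
  calc _ ≤ (2 * α) ^ q / (2 * q) * (h ^ q * (q * (y + 1) ^ (-(1 + q)))) := by gcongr
    _ = _ := by field_simp

theorem shp_lower (β q C : ℝ) (hβ0 : 1 / 2 ≤ β) (hβ1 : β < 1) (hq : q = 1 / (1 - β))
    (H : ∀ f : ℤ → ℝ, Summable (fun n => |f (n + 1) - f n|) → (∃ n, maxFn β f n ≠ ⊤) →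
      Summable (fun n => |(maxFn β f (n + 1)).toReal - (maxFn β f n).toReal| ^ q) ∧
      (∑' n, |(maxFn β f (n + 1)).toReal - (maxFn β f n).toReal| ^ q) ^ (1 / q) ≤
        C * ∑' n, |f (n + 1) - f n|) : (1 - β) ^ (2 - β) ≤ C := by
  set α := 1 - β with hα
  have hα0 : 0 < α := by linarith
  have hαq : α * q = 1 := by rw [hq]; field_simp
  have hq0 : 0 < q := by rw [hq]; positivity
  have key : ∀ L k : ℕ, 0 ≤ C * 2 ∧ (2 * α) ^ q / q * ((len L / 2 / (len L / 2 + 1)) ^ q -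
      (len L / 2 / (len L / 2 + k + 1)) ^ q) ≤ (C * 2) ^ q := by
    intro L k
    obtain ⟨hs, hb⟩ := H (ind L) (summable_of_ne_finset_zero (ind_zero L))
      ⟨0, by rw [ind_max β hβ0 hβ1]; exact ENNReal.ofReal_ne_top⟩
    rw [ind_var] at hb
    set t : ℤ → ℝ := fun n => |(maxFn β (ind L) (n + 1)).toReal - (maxFn β (ind L) n).toReal| ^ q
      with ht
    have t0 : ∀ n, 0 ≤ t n := fun n => by positivity
    have T0 : 0 ≤ ∑' n, t n := tsum_nonneg t0
    have b0 : 0 ≤ C * 2 := le_trans (by positivity) hb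
    refine ⟨b0, ?_⟩
    have b1 : ∑' n, t n ≤ (C * 2) ^ q := by
      have := Real.rpow_le_rpow (by positivity) hb hq0.le
      rwa [← Real.rpow_mul T0, one_div_mul_cancel hq0.ne', Real.rpow_one] at this
    have hm : ∀ n, (maxFn β (ind L) n).toReal = len L / len (L + n.natAbs) ^ α := by
      intro n
      have := len_pos L
      have := len_pos (L + n.natAbs)
      rw [ind_max β hβ0 hβ1, ENNReal.toReal_ofReal (by positivity)]
    set d : ℕ → ℝ := fun j => (len L / 2 / (len L / 2 + j + 1)) ^ q with hd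
    have mono : ∀ j : ℕ, 0 ≤ len L / len (L + j) ^ α - len L / len (L + (j + 1)) ^ α := by
      intro j
      have := len_pos L
      have h2 := len_pos (L + j)
      rw [sub_nonneg]
      apply div_le_div_of_nonneg_left this.le (Real.rpow_pos_of_pos h2 _)
      apply Real.rpow_le_rpow h2.le _ hα0.le
      unfold len; push_cast; linarith
    have s1 : ∀ j : ℕ, (2 * α) ^ q / (2 * q) * (d j - d (j + 1)) ≤ t j := by
      intro j
      have n1 : ((j : ℤ) + 1).natAbs = j + 1 := by omega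
      simp only [ht, hm, n1, Int.natAbs_natCast]
      rw [abs_sub_comm, abs_of_nonneg (mono j)]
      exact ind_step hα0 hαq L j
    have s2 : ∀ j : ℕ, (2 * α) ^ q / (2 * q) * (d j - d (j + 1)) ≤ t (-(j : ℤ) - 1) := by
      intro j
      have n1 : (-(j : ℤ) - 1 + 1).natAbs = j := by omega
      have n2 : (-(j : ℤ) - 1).natAbs = j + 1 := by omega
      simp only [ht, hm, n1, n2]
      rw [abs_of_nonneg (mono j)]
      exact ind_step hα0 hαq L j
    have s3 : ∑ j ∈ range k, t j + ∑ j ∈ range k, t (-(j : ℤ) - 1) ≤ ∑' n, t n := by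
      have i1 : Set.InjOn (fun j : ℕ => (j : ℤ)) (range k : Set ℕ) := fun a _ b _ h => by
        simpa using h
      have i2 : Set.InjOn (fun j : ℕ => -(j : ℤ) - 1) (range k : Set ℕ) := fun a _ b _ h => by
        simpa using h
      rw [← sum_image (f := t) i1, ← sum_image (f := t) i2, ← sum_union]
      · exact hs.sum_le_tsum _ fun n _ => t0 n
      · rw [disjoint_left]
        intro z
        simp only [mem_image]
        rintro ⟨a, -, rfl⟩ ⟨b, -, hb⟩
        omega
    have s4 : ∑ j ∈ range k, (2 * α) ^ q / (2 * q) * (d j - d (j + 1)) =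
        (2 * α) ^ q / (2 * q) * (d 0 - d k) := by rw [← mul_sum, sum_range_sub']
    have s5 := sum_le_sum fun j (_ : j ∈ range k) => s1 j
    have s6 := sum_le_sum fun j (_ : j ∈ range k) => s2 j
    have s7 : (2 * α) ^ q / q * (d 0 - d k) = 2 * ((2 * α) ^ q / (2 * q) * (d 0 - d k)) := by
      field_simp
    have s8 : d 0 = (len L / 2 / (len L / 2 + 1)) ^ q := by simp [hd]
    rw [← s8]
    change (2 * α) ^ q / q * (d 0 - d k) ≤ _
    linarith
  have k1 : ∀ L : ℕ, (2 * α) ^ q / q * (len L / 2 / (len L / 2 + 1)) ^ q ≤ (C * 2) ^ q := by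
    intro L
    have l1 : Tendsto (fun k : ℕ => len L / 2 / (len L / 2 + k + 1)) atTop (𝓝 0) :=
      tendsto_const_nhds.div_atTop (tendsto_atTop_add_const_right _ _
        (tendsto_atTop_add_const_left _ _ tendsto_natCast_atTop_atTop))
    have l2 := l1.rpow_const (p := q) (Or.inr hq0.le)
    rw [Real.zero_rpow hq0.ne'] at l2
    have l3 := (l2.const_sub ((len L / 2 / (len L / 2 + 1)) ^ q)).const_mul ((2 * α) ^ q / q)
    rw [sub_zero] at l3
    exact le_of_tendsto' l3 fun k => (key L k).2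
  have k2 : (2 * α) ^ q / q ≤ (C * 2) ^ q := by
    have l0 : Tendsto (fun L : ℕ => 1 / ((L : ℝ) + 3 / 2)) atTop (𝓝 0) :=
      tendsto_const_nhds.div_atTop (tendsto_atTop_add_const_right _ _ tendsto_natCast_atTop_atTop)
    have l1 : Tendsto (fun L : ℕ => len L / 2 / (len L / 2 + 1)) atTop (𝓝 1) := by
      have := l0.const_sub 1
      rw [sub_zero] at this
      refine this.congr fun L => ?_
      have : (0 : ℝ) ≤ L := Nat.cast_nonneg _
      unfold len; field_simp; ring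
    have l2 := (l1.rpow_const (p := q) (Or.inr hq0.le)).const_mul ((2 * α) ^ q / q)
    rw [Real.one_rpow, mul_one] at l2
    exact le_of_tendsto' l2 k1
  have k3 : (2 * α) ^ q / q = (α ^ (2 - β) * 2) ^ q := by
    have e : q⁻¹ = α := by rw [hq]; simp
    rw [div_eq_mul_inv, e, Real.mul_rpow (by norm_num) hα0.le,
      Real.mul_rpow (by positivity) (by norm_num), ← Real.rpow_mul hα0.le,
      show (2 - β) * q = q + 1 by rw [show 2 - β = 1 + α by rw [hα]; ring]; linarith,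
      Real.rpow_add hα0, Real.rpow_one]
    ring
  rw [k3, Real.rpow_le_rpow_iff (by positivity) (key 0 0).1 hq0] at k2
  linarith

theorem shp_best (β q : ℝ) (hβ0 : 1 / 2 ≤ β) (hβ1 : β < 1) (hq : q = 1 / (1 - β)) :
    ∃ C : ℝ, (1 - β) ^ (2 - β) ≤ C ∧ C ≤ (1 - β) * 20000 ^ (1 - β) ∧
      IsLeast {K : ℝ | ∀ f : ℤ → ℝ, Summable (fun n => |f (n + 1) - f n|) →
        (∃ n, maxFn β f n ≠ ⊤) → (∀ n, maxFn β f n ≠ ⊤) ∧
        Summable (fun n => |(maxFn β f (n + 1)).toReal - (maxFn β f n).toReal| ^ q) ∧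
        (∑' n, |(maxFn β f (n + 1)).toReal - (maxFn β f n).toReal| ^ q) ^ (1 / q) ≤
          K * ∑' n, |f (n + 1) - f n|} C := by
  set T := {K : ℝ | ∀ f : ℤ → ℝ, Summable (fun n => |f (n + 1) - f n|) →
        (∃ n, maxFn β f n ≠ ⊤) → (∀ n, maxFn β f n ≠ ⊤) ∧
        Summable (fun n => |(maxFn β f (n + 1)).toReal - (maxFn β f n).toReal| ^ q) ∧
        (∑' n, |(maxFn β f (n + 1)).toReal - (maxFn β f n).toReal| ^ q) ^ (1 / q) ≤
          K * ∑' n, |f (n + 1) - f n|} with hT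
  have h1 : (1 - β) * 20000 ^ (1 - β) ∈ T := shp_upper β q hβ0 hβ1 hq
  have h2 : (1 - β) ^ (2 - β) ∈ lowerBounds T := fun C hC =>
    shp_lower β q C hβ0 hβ1 hq fun f hf h0 => (hC f hf h0).2
  have hb : BddBelow T := ⟨_, h2⟩
  refine ⟨sInf T, le_csInf ⟨_, h1⟩ h2, csInf_le hb h1, ?_, fun K hK => csInf_le hb hK⟩
  intro f hf h0
  refine ⟨(h1 f hf h0).1, (h1 f hf h0).2.1, ?_⟩
  have hV0 : 0 ≤ ∑' n, |f (n + 1) - f n| := tsum_nonneg fun _ => abs_nonneg _
  rcases hV0.eq_or_lt with h | h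
  · have := (h1 f hf h0).2.2
    rw [← h, mul_zero] at this ⊢
    exact this
  · rw [← div_le_iff₀ h]
    exact le_csInf ⟨_, h1⟩ fun K hK => (div_le_iff₀ h).2 (hK f hf h0).2.2

end Pool.Agent.P.MP_f9323a_an
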