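import Pool.Agent.P.MP_f9323a_an.ExcD
import Pool.Agent.P.MP_f9323a_an.ShpB

/-! Refining the lattice: blocks joined by ramps with unit steps. -/

namespace Pool.Agent.P.MP_f9323a_an.Exc

open Finset

variable {ε q S0 : ℝ} {f h : ℤ → ℕ} {N n M ρ : ℕ}

theorem blk {k : ℕ} (hk : k < N) (d : ℤ) : (N * d + k) / (N : ℤ) = d ∧ (N * d + k) % (N : ℤ) = k := by
  have h1 : (k : ℤ) < N := by exact_mod_cast hk
  constructor
  · rw [add_comm, Int.add_mul_ediv_left _ _ (by omega), Int.ediv_eq_zero_of_lt (by omega) h1,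
      zero_add]
  · rw [add_comm, Int.add_mul_emod_self_left, Int.emod_eq_of_lt (by omega) h1]

theorem blk_ex (hN : 0 < N) (t : ℤ) : ∃ (d : ℤ) (k : ℕ), k < N ∧ t = N * d + k := by
  have h1 := Int.emod_nonneg t (show (N : ℤ) ≠ 0 by omega)
  have h2 := Int.emod_lt_of_pos t (show (0 : ℤ) < N by omega)
  have h3 := Int.mul_ediv_add_emod t N
  exact ⟨t / N, (t % N).toNat, by omega, by omega⟩

/-- The refined path. -/
def RR (h : ℤ → ℕ) (N : ℕ) (t : ℤ) : ℕ :=
  max (h (t / N - 1) - (t % N).toNat) (min (h (t / N - 1) + (t % N).toNat) (h (t / N)))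

theorem RR_eq (h : ℤ → ℕ) {k : ℕ} (hk : k < N) (d : ℤ) :
    RR h N (N * d + k) = max (h (d - 1) - k) (min (h (d - 1) + k) (h d)) := by
  rw [RR, (blk hk d).1, (blk hk d).2, Int.toNat_natCast]

theorem RR_pred (hM : ∀ d, h d ≤ M) (hN : M < N) (d : ℤ) : RR h N (N * d - 1) = h (d - 1) := by
  obtain ⟨k, rfl⟩ : ∃ k, N = k + 1 := ⟨N - 1, by omega⟩
  rw [show ((k + 1 : ℕ) : ℤ) * d - 1 = (k + 1 : ℕ) * (d - 1) + k by push_cast; ring,
    RR_eq h (Nat.lt_succ_self k)]
  have := hM (d - 1)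
  have := hM (d - 1 - 1)
  omega

theorem RR_cases (hM : ∀ d, h d ≤ M) (hN : M < N) (t : ℤ) : RR h N t = RR h N (t - 1) ∨
    ∃ (d : ℤ) (k : ℕ), t = N * d + k + 1 ∧ RR h N (t - 1) =
      max (h (d - 1) - k) (min (h (d - 1) + k) (h d)) ∧
      RR h N t = max (h (d - 1) - (k + 1)) (min (h (d - 1) + (k + 1)) (h d)) := by
  obtain ⟨d, k, hk, rfl⟩ := blk_ex (show 0 < N by omega) t
  cases k with
  | zero =>
    left
    rw [RR_eq h hk, Nat.cast_zero, add_zero (N * d : ℤ), RR_pred hM hN]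
    omega
  | succ k =>
    refine Or.inr ⟨d, k, by push_cast; ring, ?_, RR_eq h hk d⟩
    rw [← RR_eq h (show k < N by omega)]; congr 1; push_cast; ring

theorem RR_steps (hM : ∀ d, h d ≤ M) (hN : M < N) : Steps (RR h N) := by
  intro t
  rcases RR_cases hM hN t with h1 | ⟨d, k, -, h1, h2⟩ <;> omega

theorem RR_le (hM : ∀ d, h d ≤ M) (t : ℤ) : RR h N t ≤ M := by
  have := hM (t / N - 1)
  have := hM (t / N)
  unfold RR; omega

theorem RR_zero (hN : 0 < N) (hz : ∀ d : ℤ, d < -ρ ∨ ρ < d → h d = 0) (t : ℤ)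
    (ht : t ≤ -(N * (ρ + 2) : ℕ) ∨ (N * (ρ + 2) : ℕ) ≤ t) : RR h N t = 0 := by
  obtain ⟨d, k, hk, rfl⟩ := blk_ex hN t
  have h1 : (k : ℤ) < N := by exact_mod_cast hk
  have h2 : d < -ρ ∨ ρ + 1 < d := by
    push_cast at ht
    rcases ht with ht | ht
    · left; by_contra hc; nlinarith
    · right; by_contra hc; nlinarith
  rw [RR_eq h hk, hz d (by omega), hz (d - 1) (by omega)]
  simp

theorem sum_le_card (s T : Finset ℤ) {F : ℤ → ℝ} {C : ℝ} (hC : 0 ≤ C) (h1 : ∀ t, F t ≤ C)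
    (h2 : ∀ t, t ∉ T → F t ≤ 0) : ∑ t ∈ s, F t ≤ T.card * C := by
  rw [← sum_inter_add_sum_sdiff s T]
  have a1 := sum_le_card_nsmul (s ∩ T) F C fun t _ => h1 t
  have a2 : ∑ t ∈ s \ T, F t ≤ 0 := sum_nonpos fun t ht => h2 t (mem_sdiff.1 ht).2
  have a3 : ((s ∩ T).card : ℝ) ≤ T.card := by exact_mod_cast card_le_card inter_subset_right
  rw [nsmul_eq_mul] at a1
  nlinarith

theorem card_blocks (s : Finset ℤ) (c : ℤ → ℕ) (i : ℤ → ℕ → ℤ) :
    (s.biUnion fun d => (range (c d)).image (i d)).card ≤ ∑ d ∈ s, c d :=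
  card_biUnion_le.trans (sum_le_sum fun _ _ => card_image_le.trans (card_range _).le)

theorem RR_up (hM : ∀ d, h d ≤ M) (hN : M < N) (hz : ∀ d : ℤ, d < -ρ ∨ ρ < d → h d = 0)
    (s : Finset ℤ) :
    ∑ t ∈ s, up (RR h N) t ≤ ∑ d ∈ Icc (-ρ : ℤ) ρ, ((h d - h (d - 1) : ℕ) : ℝ) := by
  refine (sum_le_card s ((Icc (-ρ : ℤ) ρ).biUnion fun d =>
    (range (h d - h (d - 1))).image fun k : ℕ => N * d + k + 1) zero_le_one
    (fun t => by unfold up; split_ifs <;> norm_num) fun t ht => ?_).trans ?_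
  · refine (if_neg fun hc => ht ?_).le
    rcases RR_cases hM hN t with h1 | ⟨d, k, h0, h1, h2⟩
    · omega
    · simp only [mem_biUnion, mem_image, mem_range, mem_Icc]
      have := hz d
      exact ⟨d, by omega, k, by omega, h0.symm⟩
  · rw [mul_one]
    exact_mod_cast card_blocks _ _ _

theorem RR_err (hM : ∀ d, h d ≤ M) (hN : M < N) (hz : ∀ d : ℤ, d < -ρ ∨ ρ < d → h d = 0)
    (c : ℤ) (j : ℕ) : |S (fun t => RR h N t) c j - S (fun t => h (t / N)) c j| ≤
      (2 * ρ + 2) * M * M := by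
  rw [S, S, ← sum_sub_distrib]
  refine (abs_sum_le_sum_abs _ _).trans ((sum_le_card _ ((Icc (-ρ : ℤ) (ρ + 1)).biUnion fun d =>
    (range M).image fun k : ℕ => N * d + k) (C := M) (by positivity) (fun t => ?_)
    fun t ht => ?_).trans (mul_le_mul_of_nonneg_right ?_ (by positivity)))
  · have h1 : (RR h N t : ℝ) ≤ M := by exact_mod_cast RR_le hM t
    have h2 : (h (t / N) : ℝ) ≤ M := by exact_mod_cast hM _
    have h3 : (0 : ℝ) ≤ RR h N t := by positivity
    have h4 : (0 : ℝ) ≤ h (t / N) := by positivity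
    exact abs_le.2 ⟨by linarith, by linarith⟩
  · obtain ⟨d, k, hk, rfl⟩ := blk_ex (show 0 < N by omega) t
    simp only [mem_biUnion, mem_image, mem_range, mem_Icc, not_exists, not_and] at ht
    have h1 : RR h N (N * d + k) = h d := by
      rw [RR_eq h hk]
      have := hM d
      have := hM (d - 1)
      have := hz d
      have := hz (d - 1)
      by_cases c1 : -(ρ : ℤ) ≤ d ∧ d ≤ ρ + 1
      · have : ¬ k < M := fun h5 => ht d c1 k h5 rfl
        omega
      · omega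
    rw [h1, (blk hk d).1, sub_self, abs_zero]
  · have := card_blocks (Icc (-ρ : ℤ) (ρ + 1)) (fun _ => M) fun d k => N * d + k
    rw [sum_const, Int.card_Icc, show ((ρ : ℤ) + 1 + 1 - -ρ).toNat = 2 * ρ + 2 by omega] at this
    exact_mod_cast this

theorem S_succ (g : ℤ → ℝ) (c : ℤ) (r : ℕ) :
    S g c (r + 1) = S g c r + (g (c - (r + 1 : ℕ)) + g (c + (r + 1 : ℕ))) := by
  rw [← shp_pair, ← shp_pair, sum_range_succ]; ring

theorem step_in (γ : ℤ → ℝ) (hN : N = 2 * n + 1) (d : ℤ) {j : ℕ} (hj : j ≤ n) :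
    S (fun t => γ (t / N)) (N * d + n) j = len j * γ d := by
  rw [S, sum_congr rfl (g := fun _ => γ d), sum_const, nsmul_eq_mul, card_W]
  intro t ht
  rw [mem_W] at ht
  obtain ⟨k, rfl⟩ : ∃ k : ℕ, t = N * d + k := ⟨(t - N * d).toNat, by omega⟩
  rw [(blk (by omega) d).1]

theorem step_out (γ : ℤ → ℝ) (hN : N = 2 * n + 1) (d : ℤ) (r : ℕ) : ∀ k ≤ N,
    S (fun t => γ (t / N)) (N * d + n) (N * r + n + k) =
      N * S γ d r + k * (γ (d - (r + 1 : ℕ)) + γ (d + (r + 1 : ℕ))) := by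
  have inner : ∀ r : ℕ, S (fun t => γ (t / N)) (N * d + n) (N * r + n) = N * S γ d r → ∀ k ≤ N,
      S (fun t => γ (t / N)) (N * d + n) (N * r + n + k) =
        N * S γ d r + k * (γ (d - (r + 1 : ℕ)) + γ (d + (r + 1 : ℕ))) := by
    intro r h0 k hk
    induction k with
    | zero => simpa using h0
    | succ k ih =>
      obtain ⟨i, hi⟩ : ∃ i, N = k + 1 + i := ⟨N - (k + 1), by omega⟩
      have e0 : (N : ℤ) = 2 * n + 1 := by exact_mod_cast hN
      have e00 : (N : ℤ) = k + 1 + i := by exact_mod_cast hi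
      have e1 : N * d + n - (N * r + n + k + 1 : ℕ) = N * (d - (r + 1 : ℕ)) + i := by
        push_cast; linear_combination e00
      have e2 : N * d + n + (N * r + n + k + 1 : ℕ) = N * (d + (r + 1 : ℕ)) + k := by
        push_cast; linear_combination -e0
      rw [← add_assoc, S_succ, ih (by omega), e1, e2, (blk (by omega) _).1, (blk (by omega) _).1]
      push_cast; ring
  refine inner r ?_
  induction r with
  | zero =>
    rw [mul_zero, zero_add, step_in γ hN d le_rfl, hN]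
    simp [S, W, len]
  | succ r ih =>
    rw [show N * (r + 1) + n = N * r + n + N by ring, inner r ih N le_rfl, S_succ]; ring

theorem step_le (h0 : 0 ≤ ε) (h1 : ε ≤ 1) {γ : ℤ → ℝ} (hN : N = 2 * n + 1) {d : ℤ} {B : ℝ}
    (hγ : 0 ≤ γ d) (hB : ∀ r, A ε γ d r ≤ B) (j : ℕ) :
    A ε (fun t => γ (t / N)) (N * d + n) j ≤ N ^ (1 - ε) * B := by
  have hN0 : (0 : ℝ) < N := by rw [hN]; positivity
  have hl := len_pos j
  have b0 : γ d ≤ B := by simpa [A, S, W, len] using hB 0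
  rw [A, div_le_iff₀ (Real.rpow_pos_of_pos hl _)]
  rcases le_or_gt j n with hj | hj
  · rw [step_in γ hN d hj, mul_right_comm]
    refine mul_le_mul ?_ b0 hγ (by positivity)
    conv_lhs => rw [← Real.rpow_one (len j), show (1 : ℝ) = 1 - ε + ε by ring, Real.rpow_add hl]
    refine mul_le_mul_of_nonneg_right (Real.rpow_le_rpow hl.le ?_ (by linarith)) (by positivity)
    rw [hN, len]
    exact_mod_cast (by omega : 2 * j + 1 ≤ 2 * n + 1)
  · obtain ⟨r, k, hk, rfl⟩ : ∃ r k, k ≤ N ∧ j = N * r + n + k :=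
      ⟨(j - n) / N, (j - n) % N, (Nat.mod_lt _ (by omega)).le, by
        have := Nat.div_add_mod (j - n) N; omega⟩
    have hk1 : (k : ℝ) / N ≤ 1 := by rw [div_le_one hN0]; exact_mod_cast hk
    have hk0 : (0 : ℝ) ≤ k / N := by positivity
    have c := (Real.concaveOn_rpow h0 h1).2 (Set.mem_Ici.2 (len_pos r).le)
      (Set.mem_Ici.2 (len_pos (r + 1)).le) (sub_nonneg.2 hk1) hk0 (by ring)
    simp only [smul_eq_mul] at c
    have e : len (N * r + n + k) = N * ((1 - k / N) * len r + k / N * len (r + 1)) := by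
      have e0 : (N : ℝ) = 2 * n + 1 := by exact_mod_cast hN
      unfold len; push_cast; field_simp; linear_combination -e0
    have b1 := (div_le_iff₀ (Real.rpow_pos_of_pos (len_pos r) ε)).1 (hB r)
    have b2 := (div_le_iff₀ (Real.rpow_pos_of_pos (len_pos (r + 1)) ε)).1 (hB (r + 1))
    have e2 : N * S γ d r + k * (γ (d - (r + 1 : ℕ)) + γ (d + (r + 1 : ℕ))) =
        N * ((1 - k / N) * S γ d r + k / N * S γ d (r + 1)) := by
      rw [S_succ]; field_simp; ring
    have l1 := len_pos r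
    have l2 := len_pos (r + 1)
    rw [step_out γ hN d r k hk, e, e2, Real.mul_rpow hN0.le (by have := sub_nonneg.2 hk1; positivity),
      mul_mul_mul_comm, ← Real.rpow_add hN0, sub_add_cancel, Real.rpow_one]
    refine mul_le_mul_of_nonneg_left ?_ hN0.le
    nlinarith [mul_le_mul_of_nonneg_left c (hγ.trans b0), mul_le_mul_of_nonneg_left b2 hk0,
      mul_le_mul_of_nonneg_left b1 (sub_nonneg.2 hk1)]

theorem GG_eq (ε : ℝ) (f : ℤ → ℕ) (x : ℤ) (j : ℕ) :
    GG ε f (x - j) (x + j) = A ε (fun t => f t) x j := by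
  rw [GG, A, show ((x + j : ℤ) : ℝ) - ((x - j : ℤ) : ℝ) + 1 = len j by unfold len; push_cast; ring]
  rfl

theorem parity (h0 : 0 ≤ ε) (hS : ∀ a b, SS f a b ≤ S0) {m : ℝ} (hm : ∀ t, (f t : ℝ) ≤ m) (a : ℤ) :
    |MM ε f a (a + 1) - MM ε f a a| ≤ m := by
  have key : ∀ {s σ l l' : ℝ}, 0 ≤ s → 0 ≤ σ → σ ≤ m → 1 ≤ l → l ≤ l' →
      (s + σ) / l' ^ ε ≤ s / l ^ ε + m := by
    intro s σ l l' a1 a2 a3 a4 a5
    rw [add_div]
    exact add_le_add (div_le_div_of_nonneg_left a1 (by positivity)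
      (Real.rpow_le_rpow (by linarith) a5 h0))
      ((div_le_self a2 (Real.one_le_rpow (by linarith) h0)).trans a3)
  rw [abs_sub_le_iff, sub_le_iff_le_add', sub_le_iff_le_add']
  constructor
  · refine MM_le fun j => le_trans ?_ (add_le_add (GG_le_MM h0 hS le_rfl j) le_rfl)
    rw [GG, GG, add_right_comm a, SS_succ f (by omega)]
    exact key (SS_nonneg _ _ _) (by positivity) (hm _) (ln_one (by omega)) (by push_cast; linarith)
  · refine MM_le fun j => ?_
    cases j with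
    | zero =>
      have := (GG_nonneg ε f (show a ≤ a + 1 by omega)).trans (GG_le_MM0 h0 hS (by omega))
      have h2 : GG ε f a a = f a := by simp [GG, SS]
      simp only [Nat.cast_zero, sub_zero, add_zero, h2]
      linarith [hm a]
    | succ j =>
      refine le_trans ?_ (add_le_add (GG_le_MM h0 hS (by omega) j) le_rfl)
      rw [GG, GG, show a - (j + 1 : ℕ) = a - j - 1 by push_cast; ring,
        show a + (j + 1 : ℕ) = a + 1 + j by push_cast; ring, SS_pred f (by omega)]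
      exact key (SS_nonneg _ _ _) (by positivity) (hm _) (ln_one (by omega)) (by push_cast; linarith)

theorem blocks (hq : 1 ≤ q) (u : ℤ → ℝ) (n : ℤ) {F T : Finset ℤ}
    (hT : ∀ d ∈ F, ∀ k : ℕ, k < N → N * d + n + k + 1 ∈ T) :
    ∑ d ∈ F, |u (N * (d + 1) + n) - u (N * d + n)| ^ q ≤
      N ^ (q - 1) * ∑ t ∈ T, |u t - u (t - 1)| ^ q := by
  have h1 : ∀ d : ℤ, |u (N * (d + 1) + n) - u (N * d + n)| ^ q ≤ N ^ (q - 1) *
      ∑ k ∈ range N, |u (N * d + n + k + 1) - u (N * d + n + k + 1 - 1)| ^ q := by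
    intro d
    have h2 := sum_range_sub (fun k : ℕ => u (N * d + n + k)) N
    have h3 := Real.rpow_sum_le_const_mul_sum_rpow (range N)
      (fun k : ℕ => u (N * d + n + k + 1) - u (N * d + n + k + 1 - 1)) hq
    rw [card_range] at h3
    refine (Real.rpow_le_rpow (abs_nonneg _) ((le_of_eq ?_).trans (abs_sum_le_sum_abs _ _))
      (by linarith)).trans h3
    simp only [add_sub_cancel_right, Nat.cast_add, Nat.cast_one, ← add_assoc, Nat.cast_zero,
      add_zero] at h2 ⊢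
    rw [h2, show N * (d + 1) + n = N * d + n + N by ring]
  refine (sum_le_sum fun d _ => h1 d).trans ?_
  rw [← mul_sum, ← sum_product']
  refine mul_le_mul_of_nonneg_left (sum_inj (F := fun t => |u t - u (t - 1)| ^ q)
    (fun x : ℤ × ℕ => N * x.1 + n + x.2 + 1) ?_ ?_ fun _ => by positivity) (by positivity)
  · rintro ⟨d, k⟩ h2 ⟨d', k'⟩ h3 h4
    simp only [coe_product, Set.mem_prod, mem_coe, mem_range] at h2 h3 h4
    have h5 : N * d + k = N * d' + k' := by omega
    have h6 : d = d' := by rw [← (blk h2.2 d).1, h5, (blk h3.2 d').1]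
    subst h6
    rw [show k = k' by omega]
  · rintro ⟨d, k⟩ h2
    simp only [mem_product, mem_range] at h2
    exact hT d h2.1 k h2.2

end Pool.Agent.P.MP_f9323a_an.Exc
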