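import Pool.Agent.P.MP_f9323a_an.ExcE

/-! Passing to the limit: the exact constant. -/

namespace Pool.Agent.P.MP_f9323a_an.Exc

open Finset Filter Topology

variable {ε q V Wb : ℝ} {g m : ℤ → ℝ} {ρ μ : ℕ}

theorem centre (h0 : 0 ≤ ε) (h1 : ε ≤ 1) (hg : ∀ x, 0 ≤ g x) (hm1 : ∀ c r, A ε g c r ≤ m c)
    (hm2 : ∀ c b, (∀ r, A ε g c r ≤ b) → m c ≤ b) (hz : ∀ d : ℤ, d < -ρ ∨ ρ < d → g d = 0)
    {L : ℝ} (hL : 0 < L) {N n : ℕ} (hN : N = 2 * n + 1) {f : ℤ → ℕ} {S0 D : ℝ}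
    (hS : ∀ a b, SS f a b ≤ S0)
    (hD : ∀ c j, |S (fun t => f t) c j - S (fun t => ⌊L * g (t / N)⌋₊) c j| ≤ D) (d : ℤ) :
    |MM ε f (N * d + n) (N * d + n) - L * N ^ (1 - ε) * m d| ≤ D + N ^ (1 - ε) * (2 * ρ + 1) := by
  have hN0 : (0 : ℝ) < N := by rw [hN]; positivity
  have hP := Real.rpow_pos_of_pos hN0 (1 - ε)
  have hD0 : 0 ≤ D := (abs_nonneg _).trans (hD 0 0)
  have hl : ∀ j, 1 ≤ len j ^ ε := fun j => Real.one_le_rpow (len_ge j) h0
  have e1 : ∀ c j, |A ε (fun t => f t) c j - A ε (fun t => ⌊L * g (t / N)⌋₊) c j| ≤ D := by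
    intro c j
    rw [A, A, ← sub_div, abs_div, abs_of_pos (by linarith [hl j] : 0 < len j ^ ε)]
    exact (div_le_self (abs_nonneg _) (hl j)).trans (hD c j)
  rw [abs_sub_le_iff, sub_le_iff_le_add, sub_le_iff_le_add]
  constructor
  · refine MM_le fun j => ?_
    have a1 := step_le h0 h1 (γ := fun t => ⌊L * g t⌋₊) hN (d := d) (B := L * m d) (by positivity)
      (fun r => le_trans (by
        rw [A, A, ← mul_div_assoc, S, S, mul_sum]
        exact div_le_div_of_nonneg_right (sum_le_sum fun x _ =>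
          Nat.floor_le (mul_nonneg hL.le (hg x))) (by linarith [hl r]))
        (mul_le_mul_of_nonneg_left (hm1 d r) hL.le)) j
    have a2 := (abs_le.1 (e1 (N * d + n) j)).2
    rw [GG_eq]
    have : 0 ≤ (N : ℝ) ^ (1 - ε) * (2 * ρ + 1) := by positivity
    linarith
  · rw [mul_comm, ← le_div_iff₀ (by positivity)]
    refine hm2 d _ fun r => ?_
    rw [le_div_iff₀ (by positivity)]
    have a1 := GG_le_MM h0 hS (le_refl (N * d + n : ℤ)) (N * r + n)
    have a2 := (abs_le.1 (e1 (N * d + n) (N * r + n))).1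
    have a3 := step_out (fun t => ⌊L * g t⌋₊) hN d r 0 (Nat.zero_le _)
    rw [add_zero, Nat.cast_zero, zero_mul, add_zero] at a3
    have a4 : len (N * r + n) = N * len r := by rw [len, len, hN]; push_cast; ring
    have a5 : L * S g d r - S (fun t => ⌊L * g t⌋₊) d r ≤ 2 * ρ + 1 := by
      rw [S, S, mul_sum, ← sum_sub_distrib]
      refine (sum_le_card _ (W 0 ρ) zero_le_one (fun t => ?_) fun t ht => ?_).trans ?_
      · linarith [Nat.lt_floor_add_one (L * g t)]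
      · rw [mem_W] at ht
        simp [hz t (by omega)]
      · rw [card_W, mul_one, len]
    have a6 : A ε (fun t => ⌊L * g (t / N)⌋₊) (N * d + n) (N * r + n) =
        N ^ (1 - ε) * (S (fun t => ⌊L * g t⌋₊) d r / len r ^ ε) := by
      rw [A, a3, a4, Real.mul_rpow hN0.le (len_pos r).le, Real.rpow_sub hN0, Real.rpow_one,
        div_mul_div_comm]
    have a7 : L * A ε g d r ≤ S (fun t => ⌊L * g t⌋₊) d r / len r ^ ε + (2 * ρ + 1) := by
      rw [A, ← mul_div_assoc]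
      refine (div_le_div_of_nonneg_right (sub_le_iff_le_add'.1 a5) (by linarith [hl r])).trans ?_
      rw [add_div]
      exact add_le_add le_rfl (div_le_self (by positivity) (hl r))
    rw [GG_eq] at a1
    nlinarith [mul_le_mul_of_nonneg_left a7 hP.le]

theorem approx (h0 : 0 ≤ ε) (h1 : ε ≤ 1 / 2) (hq : ε * q = 1) (hq5 : q ≤ 5) (hg : ∀ x, 0 ≤ g x)
    (hμ : ∀ x, g x ≤ μ) (hm1 : ∀ c r, A ε g c r ≤ m c)
    (hm2 : ∀ c b, (∀ r, A ε g c r ≤ b) → m c ≤ b) (hz : ∀ d : ℤ, d < -ρ ∨ ρ < d → g d = 0)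
    (hW : ∑ d ∈ Icc (-ρ : ℤ) ρ, max (g d - g (d - 1)) 0 ≤ Wb) {F : Finset ℤ}
    (hF : ∀ d ∈ F, -ρ ≤ d ∧ d ≤ ρ) : ∃ C₁ C₂ C₃ C₄ : ℝ, ∀ L : ℕ, 1 ≤ L → ∃ a b : ℤ → ℝ,
      (∀ d, |a d - m d| ≤ C₁ / L) ∧ (∀ d, |b d - m d| ≤ C₁ / L) ∧
      ∑ d ∈ F, |a (d + 1) - a d| ^ q + ∑ d ∈ F, |b (d + 1) - b d| ^ q ≤
        2 * ((2 / q) ^ q / q) * (Wb + C₂ / L) ^ q + C₃ / L + C₄ * (Real.log L / L) := by
  have hq2 := two_le h0 h1 hq
  have hq0 : 0 < q := by linarith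
  have hW0 : 0 ≤ Wb := (sum_nonneg fun _ _ => le_max_right _ _).trans hW
  set κ : ℝ := 4 * q * ((q - 1) * μ ^ (q - 2)) * (Wb + (2 * ρ + 1)) with hκ
  refine ⟨(2 * ρ + 2) * μ * μ + (2 * ρ + 1) + μ, 2 * ρ + 1,
    6 * (2 * μ) ^ q + κ * (1 + Real.log ((2 * μ + 3) * (ρ + 2))), κ * 5, fun L hL => ?_⟩
  have hL1 : (1 : ℝ) ≤ L := by exact_mod_cast hL
  have hL0 : (0 : ℝ) < L := by linarith
  obtain ⟨n, hn⟩ : ∃ n, n = L ^ 4 + L * μ := ⟨_, rfl⟩
  obtain ⟨N, hN⟩ : ∃ N, N = 2 * n + 1 := ⟨_, rfl⟩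
  obtain ⟨K, hK⟩ : ∃ K, K = N * (ρ + 2) := ⟨_, rfl⟩
  have hN0 : (0 : ℝ) < N := by rw [hN]; positivity
  set h : ℤ → ℕ := fun t => ⌊L * g t⌋₊ with hh
  have hM : ∀ d, h d ≤ L * μ := fun d => Nat.floor_le_of_le (by
    push_cast; exact mul_le_mul_of_nonneg_left (hμ d) hL0.le)
  have hMN : L * μ < N := by omega
  have hz' : ∀ d : ℤ, d < -ρ ∨ ρ < d → h d = 0 := fun d hd => by simp [hh, hz d hd]
  have hf : ∀ t, (RR h N t : ℝ) ≤ L * μ := fun t => by exact_mod_cast RR_le hM t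
  have hf0 := RR_zero (h := h) (N := N) (by omega) hz'
  rw [← hK] at hf0
  have hS : ∀ a b, SS (RR h N) a b ≤ 2 * K * (L * μ) := fun a b => by
    refine (sum_le_card _ (Ioc (-K : ℤ) K) (by positivity) hf fun t ht => ?_).trans_eq ?_
    · rw [mem_Ioc] at ht
      rw [hf0 t (by omega), Nat.cast_zero]
    · rw [Int.card_Ioc, show ((K : ℤ) - -K).toNat = 2 * K by omega]; push_cast; rfl
  have hP : (L : ℝ) * L ≤ N ^ (1 - ε) := by
    have a1 : (L : ℝ) ^ 4 ≤ N := by exact_mod_cast (by omega : L ^ 4 ≤ N)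
    calc (L : ℝ) * L = (L ^ 4) ^ (1 / 2 : ℝ) := by
          rw [← Real.rpow_natCast, ← Real.rpow_mul hL0.le, ← sq, ← Real.rpow_two]; norm_num
      _ ≤ N ^ (1 / 2 : ℝ) := Real.rpow_le_rpow (by positivity) a1 (by norm_num)
      _ ≤ _ := Real.rpow_le_rpow_of_exponent_le (by exact_mod_cast (by omega : 1 ≤ N)) (by linarith)
  have hP0 := Real.rpow_pos_of_pos hN0 (1 - ε)
  have c1 := centre h0 (by linarith) hg hm1 hm2 hz hL0 hN hS (RR_err hM hMN hz')
  have c2 := parity h0 hS hf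
  have c3 : ∀ (x : ℝ) (d : ℤ), |x - L * N ^ (1 - ε) * m d| ≤ (2 * ρ + 2) * (L * μ : ℕ) * (L * μ : ℕ) +
      N ^ (1 - ε) * (2 * ρ + 1) + L * μ → |x / (L * N ^ (1 - ε)) - m d| ≤
      ((2 * ρ + 2) * μ * μ + (2 * ρ + 1) + μ) / L := by
    intro x d hx
    rw [div_sub' (by positivity), abs_div, abs_of_pos (show 0 < (L : ℝ) * N ^ (1 - ε) by positivity),
      div_le_iff₀ (by positivity), ← mul_assoc, div_mul_cancel₀ _ hL0.ne']
    push_cast at hx
    have a1 := mul_le_mul_of_nonneg_left hP (show (0 : ℝ) ≤ (2 * ρ + 2) * μ * μ by positivity)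
    have a2 := mul_le_mul_of_nonneg_left (show (L : ℝ) ≤ N ^ (1 - ε) by nlinarith)
      (show (0 : ℝ) ≤ μ by positivity)
    linarith
  have hLq := Real.rpow_pos_of_pos hL0 q
  have c4 : ∀ i : ℕ, ∑ d ∈ F, |MM ε (RR h N) (N * (d + 1) + n) (N * (d + 1) + n + i) /
      (L * N ^ (1 - ε)) - MM ε (RR h N) (N * d + n) (N * d + n + i) / (L * N ^ (1 - ε))| ^ q ≤
      En ε q (RR h N) K i / L ^ q := by
    intro i
    have a1 := blocks (N := N) (by linarith : 1 ≤ q) (fun a => MM ε (RR h N) a (a + i)) n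
      (F := F) (T := Ioc (-K - i : ℤ) K) fun d hd k hk => by
        have a2 := mul_le_mul_of_nonneg_left (hF d hd).1 (Int.natCast_nonneg N)
        have a3 := mul_le_mul_of_nonneg_left (hF d hd).2 (Int.natCast_nonneg N)
        have a4 : (K : ℤ) = N * ρ + 2 * N := by rw [hK]; push_cast; ring
        rw [mul_neg] at a2
        rw [mem_Ioc]
        omega
    have a5 : ((L : ℝ) * N ^ (1 - ε)) ^ q = L ^ q * N ^ (q - 1) := by
      rw [Real.mul_rpow hL0.le hP0.le, ← Real.rpow_mul hN0.le, sub_mul, hq, one_mul]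
    simp only [← sub_div, abs_div, abs_of_pos (show 0 < (L : ℝ) * N ^ (1 - ε) by positivity),
      Real.div_rpow (abs_nonneg _) (show 0 ≤ (L : ℝ) * N ^ (1 - ε) by positivity), ← sum_div, a5]
    refine (div_le_div_of_nonneg_right a1 (by positivity)).trans_eq ?_
    rw [En]; field_simp
  refine ⟨fun d => MM ε (RR h N) (N * d + n) (N * d + n + (0 : ℕ)) / (L * N ^ (1 - ε)),
    fun d => MM ε (RR h N) (N * d + n) (N * d + n + (1 : ℕ)) / (L * N ^ (1 - ε)),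
    fun d => c3 _ d ?_, fun d => c3 _ d ?_, (add_le_add (c4 0) (c4 1)).trans ?_⟩
  · rw [Nat.cast_zero, add_zero]
    exact (c1 d).trans (le_add_of_nonneg_right (by positivity))
  · rw [Nat.cast_one]
    linarith [abs_sub_le (MM ε (RR h N) (N * d + n) (N * d + n + 1))
      (MM ε (RR h N) (N * d + n) (N * d + n)) (L * N ^ (1 - ε) * m d), c1 d, c2 (N * d + n)]
  have c5 : ∀ s : Finset ℤ, ∑ t ∈ s, up (RR h N) t ≤ L * Wb + (2 * ρ + 1) := fun s => by
    refine (RR_up hM hMN hz' s).trans (le_trans (sum_le_sum (g := fun d =>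
      L * max (g d - g (d - 1)) 0 + 1) fun d _ => ?_) ?_)
    · have a1 := Nat.floor_le (mul_nonneg hL0.le (hg d))
      have a2 := Nat.lt_floor_add_one (L * g (d - 1))
      have a3 := mul_le_mul_of_nonneg_left (le_max_left (g d - g (d - 1)) 0) hL0.le
      rcases le_total (h d) (h (d - 1)) with a4 | a4
      · rw [Nat.sub_eq_zero_of_le a4, Nat.cast_zero]; positivity
      · rw [Nat.cast_sub a4]; simp only [hh]; linarith
    · rw [sum_add_distrib, ← mul_sum, sum_const, Int.card_Icc, nsmul_eq_mul, mul_one,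
        show ((ρ : ℤ) + 1 - -ρ).toNat = 2 * ρ + 1 by omega]
      push_cast
      exact add_le_add (mul_le_mul_of_nonneg_left hW hL0.le) le_rfl
  have c6 := fine h0 h1 hq hq5 hS (RR_steps hM hMN) hf (Int.natCast_nonneg K) hf0 c5 (R := K * L)
    (by exact_mod_cast Nat.le_mul_of_pos_right K hL)
  rw [← add_div, div_le_iff₀ hLq]
  refine c6.trans ?_
  have d1 : (L * Wb + (2 * ρ + 1)) ^ q = (Wb + (2 * ρ + 1) / L) ^ q * L ^ q := by
    rw [← Real.mul_rpow (by positivity) hL0.le]; congr 1; field_simp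
  have d2 : (L : ℝ) ^ q = L ^ (q - 2) * L * L := by
    rw [Real.rpow_sub hL0, Real.rpow_two]; field_simp
  have d3 : (1 : ℝ) ≤ L ^ (q - 2) := Real.one_le_rpow hL1 (by linarith)
  have d4 : (2 * K * (L * μ) / ((K * L : ℕ) + 1) : ℝ) ^ q ≤ (2 * μ) ^ q * (L ^ (q - 2) * L) := by
    refine (Real.rpow_le_rpow (by positivity) ?_ hq0.le).trans
      (le_mul_of_one_le_right (by positivity) (by nlinarith))
    rw [div_le_iff₀ (by positivity)]
    push_cast
    nlinarith [show (0 : ℝ) ≤ μ by positivity]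
  have d5 : Real.log (K * L : ℕ) ≤ Real.log ((2 * μ + 3) * (ρ + 2)) + 5 * Real.log L := by
    have a1 : K * L ≤ (2 * μ + 3) * (ρ + 2) * L ^ 5 := by
      have a2 : L ≤ L ^ 4 := Nat.le_self_pow (by norm_num) L
      have a3 : N ≤ (2 * μ + 3) * L ^ 4 := by nlinarith [Nat.mul_le_mul_right μ a2]
      calc K * L ≤ (2 * μ + 3) * L ^ 4 * (ρ + 2) * L := by rw [hK]; gcongr
        _ = _ := by ring
    rw [show (5 : ℝ) = (5 : ℕ) by norm_num, ← Real.log_pow, ← Real.log_mul (by positivity)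
      (by positivity)]
    refine Real.log_le_log (by rw [hK, hN]; positivity) (by exact_mod_cast a1)
  have d6 : 0 ≤ Real.log (K * L : ℕ) := Real.log_natCast_nonneg _
  have d7 : 0 ≤ 4 * q * ((q - 1) * (μ : ℝ) ^ (q - 2)) := by
    have : 0 ≤ q - 1 := by linarith
    positivity
  have d8 : 4 * q * ((q - 1) * (L * μ : ℝ) ^ (q - 2)) * (L * Wb + (2 * ρ + 1)) ≤
      κ * (L ^ (q - 2) * L) := by
    rw [Real.mul_rpow hL0.le (by positivity), hκ]
    have := mul_le_mul_of_nonneg_left (show L * Wb + (2 * ρ + 1) ≤ (Wb + (2 * ρ + 1)) * L by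
      nlinarith [show (0 : ℝ) ≤ ρ by positivity]) (mul_nonneg d7 (zero_le_one.trans d3))
    linarith
  have d9 := mul_le_mul d8 (add_le_add (le_refl 1) d5) (by linarith) (by rw [hκ]; positivity)
  rw [d1, add_mul, add_mul, mul_assoc _ _ (L ^ q : ℝ), add_assoc, add_assoc]
  refine add_le_add le_rfl ?_
  calc _ ≤ 6 * ((2 * μ) ^ q * (L ^ (q - 2) * L)) + κ * (L ^ (q - 2) * L) *
        (1 + (Real.log ((2 * μ + 3) * (ρ + 2)) + 5 * Real.log L)) := by linarith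
    _ = _ := by rw [d2]; field_simp; ring

theorem compact (h0 : 0 ≤ ε) (h1 : ε ≤ 1 / 2) (hq : ε * q = 1) (hq5 : q ≤ 5) (hg : ∀ x, 0 ≤ g x)
    (hμ : ∀ x, g x ≤ μ) (hm1 : ∀ c r, A ε g c r ≤ m c)
    (hm2 : ∀ c b, (∀ r, A ε g c r ≤ b) → m c ≤ b) (hz : ∀ d : ℤ, d < -ρ ∨ ρ < d → g d = 0)
    (hW : ∑ d ∈ Icc (-ρ : ℤ) ρ, max (g d - g (d - 1)) 0 ≤ Wb) {F : Finset ℤ}
    (hF : ∀ d ∈ F, -ρ ≤ d ∧ d ≤ ρ) :
    ∑ d ∈ F, |m (d + 1) - m d| ^ q ≤ (2 / q) ^ q / q * Wb ^ q := by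
  have hq0 : 0 ≤ q := by linarith [two_le h0 h1 hq]
  obtain ⟨C₁, C₂, C₃, C₄, H⟩ := approx h0 h1 hq hq5 hg hμ hm1 hm2 hz hW hF
  choose! a b ha hb hab using H
  have t0 : ∀ C : ℝ, Tendsto (fun L : ℕ => C / L) atTop (𝓝 0) := tendsto_const_div_atTop_nhds_zero_nat
  have t1 : ∀ a : ℕ → ℤ → ℝ, (∀ L : ℕ, 1 ≤ L → ∀ d, |a L d - m d| ≤ C₁ / L) →
      Tendsto (fun L => ∑ d ∈ F, |a L (d + 1) - a L d| ^ q) atTop
        (𝓝 (∑ d ∈ F, |m (d + 1) - m d| ^ q)) := by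
    intro a ha
    have t2 : ∀ d, Tendsto (fun L => a L d) atTop (𝓝 (m d)) := fun d =>
      tendsto_iff_norm_sub_tendsto_zero.2 (squeeze_zero' (.of_forall fun _ => norm_nonneg _)
        ((eventually_ge_atTop 1).mono fun L hL => ha L hL d) (t0 C₁))
    exact tendsto_finsetSum _ fun d _ => ((t2 _).sub (t2 _)).abs.rpow_const (Or.inr hq0)
  have t3 : Tendsto (fun L : ℕ => Real.log L / L) atTop (𝓝 0) :=
    Real.isLittleO_log_id_atTop.tendsto_div_nhds_zero.comp tendsto_natCast_atTop_atTop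
  have t4 := (((((t0 C₂).const_add Wb).rpow_const (Or.inr hq0)).const_mul
    (2 * ((2 / q) ^ q / q))).add (t0 C₃)).add (t3.const_mul C₄)
  have := le_of_tendsto_of_tendsto ((t1 a ha).add (t1 b hb)) t4
    ((eventually_ge_atTop 1).mono hab)
  simp only [add_zero, mul_zero] at this
  linarith

theorem low_pair (h1 : ε ≤ 1 / 2) (hg : ∀ x, 0 ≤ g x) (hm : ∀ c r, A ε g c r ≤ m c) {η : ℝ}
    (hη : 0 < η) (k : ℕ) : ∃ ρ : ℕ, k ≤ ρ ∧ g (-ρ) + g ρ < η := by
  by_contra hc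
  push Not at hc
  have a1 : ∀ r : ℕ, r * η ≤ S g 0 (k + r) := by
    intro r
    induction r with
    | zero => simpa using S_nonneg hg 0 k
    | succ r ih =>
      have := hc (k + r + 1) (by omega)
      rw [← add_assoc, S_succ, zero_sub, zero_add]
      push_cast at this ⊢
      linarith
  obtain ⟨r, hr⟩ := exists_nat_gt (4 * m 0 ^ 2 / η ^ 2 + k + 1)
  have hk : (0 : ℝ) ≤ k := by positivity
  have a0 : 0 ≤ 4 * m 0 ^ 2 / η ^ 2 := by positivity
  have hl := len_pos (k + r)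
  have a2 := (div_le_iff₀ (Real.rpow_pos_of_pos hl ε)).1 (hm 0 (k + r))
  have a3 : (len (k + r) ^ ε) ^ 2 ≤ 4 * r := by
    rw [← Real.rpow_two, ← Real.rpow_mul hl.le]
    refine (Real.rpow_le_rpow_of_exponent_le (len_ge _) (show ε * 2 ≤ 1 by linarith)).trans ?_
    rw [Real.rpow_one, len]; push_cast; linarith
  have a4 := pow_le_pow_left₀ (by positivity) ((a1 r).trans a2) 2
  rw [mul_pow, mul_pow] at a4
  have a5 := mul_le_mul_of_nonneg_left a3 (sq_nonneg (m 0))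
  have a6 := (div_lt_iff₀ (show 0 < η ^ 2 by positivity)).1 (show 4 * m 0 ^ 2 / η ^ 2 < r by linarith)
  nlinarith

theorem rises (g : ℤ → ℝ) {a b : ℤ} (h : a ≤ b) : 2 * ∑ d ∈ Ioc a b, max (g d - g (d - 1)) 0 =
    ∑ d ∈ Ioc a b, |g d - g (d - 1)| + g b - g a := by
  induction b, h using Int.leInduction with
  | base => simp
  | succ b h ih =>
    rw [sum_Ioc_succ _ h, sum_Ioc_succ _ h, add_sub_cancel_right]
    rcases le_total 0 (g (b + 1) - g b) with c | c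
    · rw [max_eq_left c, abs_of_nonneg c]; linarith
    · rw [max_eq_right c, abs_of_nonpos c]; linarith

theorem general (h0 : 0 ≤ ε) (h1 : ε ≤ 1 / 2) (hq : ε * q = 1) (hq5 : q ≤ 5) (hg : ∀ x, 0 ≤ g x)
    (hV : ∀ E : Finset ℤ, ∑ e ∈ E, |g (e + 1) - g e| ≤ V) (hm1 : ∀ c r, A ε g c r ≤ m c)
    (hm2 : ∀ c b, (∀ r, A ε g c r ≤ b) → m c ≤ b) (F : Finset ℤ) :
    ∑ d ∈ F, |m (d + 1) - m d| ^ q ≤ (2 / q) ^ q / q * (V / 2) ^ q := by
  have hq0 : 0 ≤ q := by linarith [two_le h0 h1 hq]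
  choose ρ hρ hlow using fun k : ℕ => low_pair h1 hg hm1 (Nat.one_div_pos_of_nat (n := k)) k
  set G : ℕ → ℤ → ℝ := fun k x => if -(ρ k : ℤ) ≤ x ∧ x ≤ ρ k then g x else 0 with hG
  have g1 : ∀ k x, 0 ≤ G k x := fun k x => by simp only [hG]; split_ifs; exacts [hg x, le_rfl]
  have g2 : ∀ k x, G k x ≤ g x := fun k x => by simp only [hG]; split_ifs; exacts [le_rfl, hg x]
  have g3 : ∀ k c r, A ε (G k) c r ≤ m c := fun k c r => le_trans (div_le_div_of_nonneg_right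
    (sum_le_sum fun x _ => g2 k x) (Real.rpow_nonneg (len_pos r).le _)) (hm1 c r)
  have g4 : ∀ k c r, A ε (G k) c r ≤ ⨆ r, A ε (G k) c r := fun k c r =>
    le_ciSup ⟨m c, by rintro _ ⟨r, rfl⟩; exact g3 k c r⟩ r
  have t1 : ∀ c, Tendsto (fun k => ⨆ r, A ε (G k) c r) atTop (𝓝 (m c)) := by
    intro c
    refine tendsto_order.2 ⟨fun b hb => ?_, fun b hb => .of_forall fun k =>
      (ciSup_le (g3 k c)).trans_lt hb⟩
    obtain ⟨r, hr⟩ : ∃ r, b < A ε g c r := by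
      by_contra hc
      push Not at hc
      exact hb.not_ge (hm2 c b hc)
    refine (eventually_ge_atTop (c.natAbs + r)).mono fun k hk => hr.trans_le (le_trans ?_ (g4 k c r))
    refine le_of_eq (congrArg (· / _) (sum_congr rfl fun x hx => ?_))
    have := hρ k
    rw [mem_W] at hx
    exact (if_pos (by omega)).symm
  obtain ⟨μ, hμ⟩ := exists_nat_ge (V / 2)
  have t2 := ((((tendsto_one_div_add_atTop_nhds_zero_nat (𝕜 := ℝ)).const_add V).div_const
    2).rpow_const (Or.inr hq0)).const_mul ((2 / q) ^ q / q)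
  rw [add_zero] at t2
  refine le_of_tendsto_of_tendsto (tendsto_finsetSum _ fun d _ =>
    ((t1 _).sub (t1 _)).abs.rpow_const (Or.inr hq0)) t2
    ((eventually_ge_atTop (F.sup Int.natAbs)).mono fun k hk => ?_)
  refine compact (ρ := ρ k) (μ := μ) h0 h1 hq hq5 (g1 k)
    (fun x => (g2 k x).trans ((shp_half h1 hg hm1 hV x).trans hμ)) (g4 k)
    (fun c b h => ciSup_le h) (fun d hd => if_neg (by omega)) ?_ fun d hd => ?_
  · have a1 := rises g (show -(ρ k : ℤ) ≤ ρ k by omega)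
    have a2 := hV ((Ioc (-(ρ k : ℤ)) (ρ k)).image fun x => x - 1)
    rw [sum_image fun _ _ _ _ h => by simpa using h] at a2
    simp only [sub_add_cancel] at a2
    have a3 : G k (-(ρ k : ℤ)) - G k (-(ρ k : ℤ) - 1) = g (-(ρ k : ℤ)) := by
      simp only [hG]; rw [if_pos (by omega), if_neg (by omega), sub_zero]
    rw [Icc_eq_cons_Ioc (by omega), sum_cons, a3, max_eq_left (hg _), sum_congr rfl
      (g := fun d => max (g d - g (d - 1)) 0) fun d hd => by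
        rw [mem_Ioc] at hd
        simp only [hG]; rw [if_pos (by omega), if_pos (by omega)]]
    linarith [hlow k]
  · have := le_sup (f := Int.natAbs) hd
    have := hρ k
    omega

theorem exc_upper (β q : ℝ) (hβ0 : 1 / 2 ≤ β) (hβ1 : β ≤ 4 / 5) (hq : q = 1 / (1 - β)) (f : ℤ → ℝ)
    (hf : Summable fun n => |f (n + 1) - f n|) (h0 : ∃ n, maxFn β f n ≠ ⊤) :
    (∀ n, maxFn β f n ≠ ⊤) ∧
      Summable (fun n => |(maxFn β f (n + 1)).toReal - (maxFn β f n).toReal| ^ q) ∧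
      (∑' n, |(maxFn β f (n + 1)).toReal - (maxFn β f n).toReal| ^ q) ^ (1 / q) ≤
        (1 - β) ^ (2 - β) * ∑' n, |f (n + 1) - f n| := by
  obtain ⟨hfin, hs, -⟩ := shp_upper β q hβ0 (by linarith) hq f hf h0
  refine ⟨hfin, hs, ?_⟩
  have hα0 : 0 < 1 - β := by linarith
  have hq0 : 0 < q := by rw [hq]; positivity
  have hq1 : 1 / q = 1 - β := by rw [hq]; field_simp
  have hV0 : 0 ≤ ∑' n, |f (n + 1) - f n| := tsum_nonneg fun _ => abs_nonneg _
  have h1 := general (g := fun x => |f x|) (m := fun c => (maxFn β f c).toReal) (q := q)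
    (V := ∑' n, |f (n + 1) - f n|) hα0.le (by linarith) (by rw [hq]; field_simp)
    (by rw [hq, div_le_iff₀ hα0]; linarith) (fun x => abs_nonneg _)
    (fun E => (sum_le_sum fun e _ => abs_abs_sub_abs_le_abs_sub _ _).trans
      (hf.sum_le_tsum E fun _ _ => abs_nonneg _))
    (fun c r => by
      rw [← ENNReal.ofReal_le_iff_le_toReal (hfin c), maxFn_eq]
      exact le_iSup (fun r : ℕ => ENNReal.ofReal (A (1 - β) (fun x => |f x|) c r)) r)
    fun c b h => ENNReal.toReal_le_of_le_ofReal ((A_nonneg (fun x => abs_nonneg _) c 0).trans (h 0))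
      (by rw [maxFn_eq]; exact iSup_le fun r => ENNReal.ofReal_le_ofReal (h r))
  refine (Real.rpow_le_rpow (tsum_nonneg fun n => by positivity)
    (Real.tsum_le_of_sum_le (fun n => by positivity) h1) (by positivity)).trans_eq ?_
  rw [div_eq_mul_one_div _ q, Real.mul_rpow (by positivity) (by positivity),
    Real.mul_rpow (by positivity) (by positivity), ← Real.rpow_mul (by positivity),
    ← Real.rpow_mul (by positivity), mul_one_div_cancel hq0.ne', Real.rpow_one, Real.rpow_one,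
    div_eq_mul_one_div 2 q, hq1, show 2 - β = 1 - β + 1 by ring, Real.rpow_add_one hα0.ne']
  ring

theorem exc_least (β q : ℝ) (hβ0 : 1 / 2 ≤ β) (hβ1 : β ≤ 4 / 5) (hq : q = 1 / (1 - β)) :
    IsLeast {K : ℝ | ∀ f : ℤ → ℝ, Summable (fun n => |f (n + 1) - f n|) →
      (∃ n, maxFn β f n ≠ ⊤) → (∀ n, maxFn β f n ≠ ⊤) ∧
      Summable (fun n => |(maxFn β f (n + 1)).toReal - (maxFn β f n).toReal| ^ q) ∧
      (∑' n, |(maxFn β f (n + 1)).toReal - (maxFn β f n).toReal| ^ q) ^ (1 / q) ≤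
        K * ∑' n, |f (n + 1) - f n|} ((1 - β) ^ (2 - β)) :=
  ⟨exc_upper β q hβ0 hβ1 hq, fun C hC =>
    shp_lower β q C hβ0 (by linarith) hq fun f hf h0 => (hC f hf h0).2⟩

end Pool.Agent.P.MP_f9323a_an.Exc
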