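import Pool.Agent.P.MP_f9323a_an.Core
import Pool.Agent.P.MP_f9323a_an.Defs

namespace Pool.Agent.P.MP_f9323a_an

open Finset

theorem theta_lt {α : ℝ} (hα1 : α < 1) : 0 < 1 - (3 : ℝ) ^ α / 3 := by
  have : (3 : ℝ) ^ α < 3 ^ (1 : ℝ) := Real.rpow_lt_rpow_of_exponent_lt (by norm_num) hα1
  rw [Real.rpow_one] at this
  linarith

/-- the constant in the window sum -/
noncomputable def K1 (α p : ℝ) : ℝ :=
  (1 - 3 ^ α / 3)⁻¹ * ((7 * (1 - 3 ^ α / 3)⁻¹) ^ p *
    (3 ^ (1 + (1 - α) * p) * (2 * (1 + 1 / ((1 - α) * p)))))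

theorem K1_nonneg {α p : ℝ} (hα1 : α < 1) (hp : 0 < p) : 0 ≤ K1 α p := by
  have := theta_lt hα1
  have : 0 < 1 - α := by linarith
  unfold K1; positivity

theorem window_sum {α p V : ℝ} (hα0 : 0 ≤ α) (hα1 : α < 1) (hp : 0 < p) {g : ℤ → ℝ}
    (hg : ∀ x, 0 ≤ g x) (hV : ∀ E : Finset ℤ, ∑ e ∈ E, |g (e + 1) - g e| ≤ V)
    (ρ : ℤ → ℕ) (G : Finset ℤ) (hG : ∀ c ∈ G, Good α g c (ρ c)) :
    ∑ c ∈ G, av g c (ρ c) ^ (p + 1) / len (ρ c) ≤ K1 α p * V ^ (p + 1) := by
  classical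
  have hθ := theta_lt hα1
  set κ := (1 - (3 : ℝ) ^ α / 3)⁻¹ with hκ
  have hκ0 : 0 < κ := inv_pos.2 hθ
  have hV0 : 0 ≤ V := by simpa using hV ∅
  have h1 : ∀ c ∈ G, av g c (ρ c) ≤ κ * ∑ e ∈ W c (3 * ρ c + 1), |g (e + 1) - g e| := by
    intro c hc
    have := osc (hG c hc)
    rw [hκ, ← div_eq_inv_mul, le_div_iff₀ hθ]
    linarith
  have h2 : ∀ c ∈ G, av g c (ρ c) ≤ κ * V := fun c hc =>
    (h1 c hc).trans (mul_le_mul_of_nonneg_left (hV _) hκ0.le)
  set E := G.biUnion (fun c => W c (3 * ρ c + 1)) with hE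
  have h3 : ∀ c ∈ G, av g c (ρ c) ^ (p + 1) / len (ρ c) ≤
      ∑ e ∈ E, if e ∈ W c (3 * ρ c + 1) then
        κ * |g (e + 1) - g e| * (av g c (ρ c) ^ p / len (ρ c)) else 0 := by
    intro c hc
    have hl := len_pos (ρ c)
    have a0 := av_nonneg hg c (ρ c)
    rw [← Finset.sum_filter]
    have : E.filter (fun e => e ∈ W c (3 * ρ c + 1)) = W c (3 * ρ c + 1) := by
      ext e
      simp only [mem_filter, hE, mem_biUnion]
      exact ⟨fun h => h.2, fun h => ⟨⟨c, hc, h⟩, h⟩⟩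
    rw [this, ← Finset.sum_mul, ← Finset.mul_sum, Real.rpow_add_one' a0 (by linarith),
      mul_comm (av g c (ρ c) ^ p), mul_div_assoc]
    exact mul_le_mul_of_nonneg_right (h1 c hc) (by positivity)
  refine (Finset.sum_le_sum h3).trans ?_
  rw [Finset.sum_comm]
  set T := (7 * (κ * V)) ^ p * (3 ^ (1 + (1 - α) * p) * (2 * (1 + 1 / ((1 - α) * p)))) with hT
  have hT0 : 0 ≤ T := by
    have : 0 < 1 - α := by linarith
    positivity
  have h4 : ∀ e ∈ E, (∑ c ∈ G, if e ∈ W c (3 * ρ c + 1) then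
        κ * |g (e + 1) - g e| * (av g c (ρ c) ^ p / len (ρ c)) else 0) ≤
      κ * T * |g (e + 1) - g e| := by
    intro e _
    rw [← Finset.sum_filter, ← Finset.mul_sum]
    have := edge_sum (B := κ * V) hα0 hα1 hp hg ρ e (G.filter (fun c => e ∈ W c (3 * ρ c + 1)))
      (fun c hc => ⟨hG c (mem_filter.1 hc).1, (mem_filter.1 hc).2, h2 c (mem_filter.1 hc).1⟩)
      (by positivity)
    calc _ ≤ κ * |g (e + 1) - g e| * T := mul_le_mul_of_nonneg_left this (by positivity)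
      _ = _ := by ring
  refine (Finset.sum_le_sum h4).trans ?_
  rw [← Finset.mul_sum]
  calc κ * T * ∑ e ∈ E, |g (e + 1) - g e| ≤ κ * T * V :=
        mul_le_mul_of_nonneg_left (hV E) (by positivity)
    _ = K1 α p * V ^ (p + 1) := by
        rw [Real.rpow_add_one' hV0 (by linarith), hT, K1, ← hκ, ← mul_assoc 7 κ V,
          Real.mul_rpow (by positivity) hV0]
        ring

theorem finite_var {α p V : ℝ} (hα0 : 0 < α) (hα1 : α < 1) (hp : 0 < p) (hq : α * (p + 1) = 1)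
    {g : ℤ → ℝ} (hg : ∀ x, 0 ≤ g x) (hV : ∀ E : Finset ℤ, ∑ e ∈ E, |g (e + 1) - g e| ≤ V)
    {m : ℤ → ℝ} (hm1 : ∀ c r, A α g c r ≤ m c) (hm2 : ∀ c b, (∀ r, A α g c r ≤ b) → m c ≤ b)
    (F : Finset ℤ) :
    ∑ n ∈ F, |m (n + 1) - m n| ^ (p + 1) ≤ 2 * (2 ^ (p + 1) * (K1 α p * V ^ (p + 1))) := by
  classical
  let ρ : ℤ → ℕ := fun c => if h : ∃ r, Good α g c r then h.choose else 0
  have hρ : ∀ c, (∃ r, Good α g c r) → Good α g c (ρ c) := by
    intro c h
    simp only [ρ, dif_pos h]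
    exact h.choose_spec
  let u : ℤ → ℝ := fun c =>
    if Good α g c (ρ c) then 2 ^ (p + 1) * (av g c (ρ c) ^ (p + 1) / len (ρ c)) else 0
  have hu0 : ∀ c, 0 ≤ u c := by
    intro c
    have := av_nonneg hg c (ρ c)
    have := len_pos (ρ c)
    simp only [u]
    split_ifs
    · positivity
    · exact le_rfl
  have hu : ∀ G : Finset ℤ, ∑ c ∈ G, u c ≤ 2 ^ (p + 1) * (K1 α p * V ^ (p + 1)) := by
    intro G
    simp only [u]
    rw [← Finset.sum_filter, ← Finset.mul_sum]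
    exact mul_le_mul_of_nonneg_left
      (window_sum hα0.le hα1 hp hg hV ρ _ (fun c hc => (mem_filter.1 hc).2)) (by positivity)
  have h1 : ∀ n ∈ F, |m (n + 1) - m n| ^ (p + 1) ≤ u n + u (n + 1) := by
    intro n _
    rcases lt_trichotomy (m n) (m (n + 1)) with h | h | h
    · have hgood := hρ (n + 1) (attained hα0.le hα1.le hg hm1 hm2 (by omega) (by omega) h)
      have := incr hα0 hα1.le hq hg hm1 hm2 (c := n + 1) (c' := n) (by omega) (by omega) h.le hgood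
      rw [abs_of_pos (by linarith)]
      have e : u (n + 1) = 2 ^ (p + 1) * (av g (n + 1) (ρ (n + 1)) ^ (p + 1) / len (ρ (n + 1))) :=
        if_pos hgood
      linarith [hu0 n]
    · rw [h, sub_self, abs_zero, Real.zero_rpow (by linarith)]
      linarith [hu0 n, hu0 (n + 1)]
    · have hgood := hρ n (attained hα0.le hα1.le hg hm1 hm2 (c' := n + 1) (by omega) (by omega) h)
      have := incr hα0 hα1.le hq hg hm1 hm2 (c := n) (c' := n + 1) (by omega) (by omega) h.le hgood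
      rw [abs_of_neg (by linarith), neg_sub]
      have e : u n = 2 ^ (p + 1) * (av g n (ρ n) ^ (p + 1) / len (ρ n)) := if_pos hgood
      linarith [hu0 (n + 1)]
  refine (Finset.sum_le_sum h1).trans ?_
  rw [Finset.sum_add_distrib]
  have a1 := hu F
  have a2 := hu (F.map (addRightEmbedding 1))
  rw [Finset.sum_map] at a2
  simp only [addRightEmbedding_apply] at a2
  linarith

theorem maxFn_eq (β : ℝ) (f : ℤ → ℝ) (n : ℤ) :
    maxFn β f n = ⨆ r : ℕ, ENNReal.ofReal (A (1 - β) (fun x => |f x|) n r) := by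
  unfold maxFn A S len W
  congr 1
  ext r
  congr 2
  have : Finset.Icc (n - r) (n + r) = (Finset.Icc (-(r : ℤ)) r).map (addLeftEmbedding n) := by
    rw [Finset.map_add_left_Icc]; congr 1
  rw [this, Finset.sum_map]
  rfl

theorem var_bound (β q : ℝ) (hβ0 : 0 < β) (hβ1 : β < 1) (hq : q = 1 / (1 - β)) :
    ∃ C : ℝ, ∀ f : ℤ → ℝ, Summable (fun n => |f (n + 1) - f n|) → (∃ n, maxFn β f n ≠ ⊤) →
      (∀ n, maxFn β f n ≠ ⊤) ∧
      Summable (fun n => |(maxFn β f (n + 1)).toReal - (maxFn β f n).toReal| ^ q) ∧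
      (∑' n, |(maxFn β f (n + 1)).toReal - (maxFn β f n).toReal| ^ q) ^ (1 / q) ≤
        C * ∑' n, |f (n + 1) - f n| := by
  set α := 1 - β with hα
  have hα0 : 0 < α := by linarith
  have hα1 : α < 1 := by linarith
  have hq1 : 1 < q := by rw [hq, lt_div_iff₀ hα0]; linarith
  obtain ⟨p, rfl⟩ : ∃ p, q = p + 1 := ⟨q - 1, by ring⟩
  have hp : 0 < p := by linarith
  have hαq : α * (p + 1) = 1 := by rw [hq]; field_simp
  have hK := K1_nonneg hα1 hp
  refine ⟨(2 * (2 ^ (p + 1) * K1 α p)) ^ (1 / (p + 1)), ?_⟩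
  rintro f hf ⟨n0, hn0⟩
  set g : ℤ → ℝ := fun x => |f x| with hgdef
  have hg : ∀ x, 0 ≤ g x := fun x => abs_nonneg _
  set V := ∑' n, |f (n + 1) - f n| with hVdef
  have hV : ∀ E : Finset ℤ, ∑ e ∈ E, |g (e + 1) - g e| ≤ V := by
    intro E
    refine le_trans (Finset.sum_le_sum (fun e _ => abs_abs_sub_abs_le_abs_sub _ _)) ?_
    exact hf.sum_le_tsum E (fun _ _ => abs_nonneg _)
  have hV0 : 0 ≤ V := by simpa using hV ∅
  have hle : ∀ c, maxFn β f c ≠ ⊤ → ∀ r, A α g c r ≤ (maxFn β f c).toReal := by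
    intro c hc r
    rw [← ENNReal.ofReal_le_iff_le_toReal hc, maxFn_eq]
    exact le_iSup (fun r : ℕ => ENNReal.ofReal (A (1 - β) (fun x => |f x|) c r)) r
  have hbd : ∀ c b, (∀ r, A α g c r ≤ b) → maxFn β f c ≤ ENNReal.ofReal b := by
    intro c b h
    rw [maxFn_eq]
    exact iSup_le (fun r => ENNReal.ofReal_le_ofReal (h r))
  have hfin : ∀ c, maxFn β f c ≠ ⊤ := by
    intro c
    apply ne_top_of_le_ne_top ENNReal.ofReal_ne_top
      (hbd c ((1 + 2 * ((c - n0).natAbs : ℝ)) * (maxFn β f n0).toReal) _)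
    intro r
    have d0 : (0 : ℝ) ≤ ((c - n0).natAbs : ℝ) := Nat.cast_nonneg _
    have := A_cover hα0.le hα1.le hg (c := c) (c' := n0) (r := r) (t := r + (c - n0).natAbs)
      (by omega) (by omega) (K := 1 + 2 * ((c - n0).natAbs : ℝ))
      (by linarith) (by
        have r0 : (0 : ℝ) ≤ r := Nat.cast_nonneg _
        unfold len; rw [Nat.cast_add]; nlinarith)
    exact this.trans (mul_le_mul_of_nonneg_left (hle n0 hn0 _) (by linarith))
  have hfv := finite_var hα0 hα1 hp hαq hg hV (m := fun c => (maxFn β f c).toReal)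
    (fun c r => hle c (hfin c) r)
    (fun c b h => ENNReal.toReal_le_of_le_ofReal ((A_nonneg hg c 0).trans (h 0)) (hbd c b h))
  have hnn : ∀ n, 0 ≤ |(maxFn β f (n + 1)).toReal - (maxFn β f n).toReal| ^ (p + 1) :=
    fun n => by positivity
  refine ⟨hfin, summable_of_sum_le hnn hfv, ?_⟩
  have h1 := Real.tsum_le_of_sum_le hnn hfv
  calc _ ≤ (2 * (2 ^ (p + 1) * (K1 α p * V ^ (p + 1)))) ^ (1 / (p + 1)) :=
        Real.rpow_le_rpow (tsum_nonneg hnn) h1 (by positivity)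
    _ = (2 * (2 ^ (p + 1) * K1 α p) * V ^ (p + 1)) ^ (1 / (p + 1)) := by congr 1; ring
    _ = _ := by
        rw [Real.mul_rpow (by positivity) (by positivity), ← Real.rpow_mul hV0,
          mul_one_div_cancel (by linarith), Real.rpow_one]

end Pool.Agent.P.MP_f9323a_an
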