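import Pool.Agent.P.MP_f9323a_an.Main

/-! The upper bound of the right order when the order of the operator tends to one. -/

namespace Pool.Agent.P.MP_f9323a_an

open Finset

variable {α q V : ℝ} {g m : ℤ → ℝ}

theorem shp_pair (g : ℤ → ℝ) (x : ℤ) (r : ℕ) :
    ∑ k ∈ range r, (g (x - ((k + 1 : ℕ) : ℤ)) + g (x + ((k + 1 : ℕ) : ℤ))) + g x = S g x r := by
  induction r with
  | zero => simp [S, W]
  | succ r ih =>
    have e : W x (r + 1) =
        insert (x - ((r + 1 : ℕ) : ℤ)) (insert (x + ((r + 1 : ℕ) : ℤ)) (W x r)) := by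
      ext z; simp only [mem_W, mem_insert]; push_cast; omega
    have n1 : x - ((r + 1 : ℕ) : ℤ) ∉ insert (x + ((r + 1 : ℕ) : ℤ)) (W x r) := by
      simp only [mem_W, mem_insert]; push_cast; omega
    have n2 : x + ((r + 1 : ℕ) : ℤ) ∉ W x r := by
      simp only [mem_W]; push_cast; omega
    rw [sum_range_succ, S, e, sum_insert n1, sum_insert n2]
    unfold S at ih
    linarith

theorem shp_two (hV : ∀ E : Finset ℤ, ∑ e ∈ E, |g (e + 1) - g e| ≤ V) (x : ℤ) (k : ℕ) :
    2 * g x - V ≤ g (x - k) + g (x + k) := by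
  have h1 := tele g (x - k) k
  have h2 := tele g x k
  rw [sub_add_cancel] at h1
  have hd : Disjoint (Ico (x - k) x) (Ico x (x + k)) := by
    rw [disjoint_left]; intro z; simp only [mem_Ico]; omega
  have h3 := hV (Ico (x - k) x ∪ Ico x (x + k))
  rw [sum_union hd] at h3
  linarith [(abs_le.1 h1).2, (abs_le.1 h2).1]

theorem shp_half (hα1 : α ≤ 1 / 2) (hg : ∀ x, 0 ≤ g x) (hm : ∀ c r, A α g c r ≤ m c)
    (hV : ∀ E : Finset ℤ, ∑ e ∈ E, |g (e + 1) - g e| ≤ V) (x : ℤ) : g x ≤ V / 2 := by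
  by_contra hc
  have hη : 0 < 2 * g x - V := by linarith [not_le.1 hc]
  set η := 2 * g x - V with hηd
  have hb : 0 ≤ m x := (A_nonneg hg x 0).trans (hm x 0)
  obtain ⟨r, hr⟩ := exists_nat_gt (3 * m x ^ 2 / η ^ 2 + 1)
  have hr1 : (1 : ℝ) ≤ r := by
    have : 0 ≤ 3 * m x ^ 2 / η ^ 2 := by positivity
    linarith
  have h1 : (r : ℝ) * η ≤ S g x r := by
    have h2 := shp_pair g x r
    have h3 : ∑ _k ∈ range r, η ≤
        ∑ k ∈ range r, (g (x - ((k + 1 : ℕ) : ℤ)) + g (x + ((k + 1 : ℕ) : ℤ))) :=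
      sum_le_sum fun k _ => shp_two hV x (k + 1)
    rw [sum_const, card_range, nsmul_eq_mul] at h3
    linarith [hg x]
  have hl := len_pos r
  have p1 : 0 < len r ^ α := Real.rpow_pos_of_pos hl _
  have h4 : S g x r ≤ m x * len r ^ α := by
    have := hm x r
    rwa [A, div_le_iff₀ p1] at this
  have h5 : (len r ^ α) ^ 2 ≤ len r := by
    rw [← Real.rpow_natCast, ← Real.rpow_mul hl.le]
    calc len r ^ (α * ((2 : ℕ) : ℝ)) ≤ len r ^ (1 : ℝ) :=
          Real.rpow_le_rpow_of_exponent_le (len_ge r) (by push_cast; linarith)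
      _ = len r := Real.rpow_one _
  have h6 : ((r : ℝ) * η) ^ 2 ≤ (m x * len r ^ α) ^ 2 :=
    pow_le_pow_left₀ (by positivity) (h1.trans h4) 2
  have h7 : len r ≤ 3 * r := by unfold len; linarith
  have h8 : (m x * len r ^ α) ^ 2 ≤ m x ^ 2 * (3 * r) := by
    rw [mul_pow]; exact mul_le_mul_of_nonneg_left (h5.trans h7) (by positivity)
  have h9 : 3 * m x ^ 2 < r * η ^ 2 := by
    have : 3 * m x ^ 2 / η ^ 2 < r := by linarith
    rwa [div_lt_iff₀ (by positivity)] at this
  nlinarith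

theorem shp_av (hα1 : α ≤ 1 / 2) (hg : ∀ x, 0 ≤ g x) (hm : ∀ c r, A α g c r ≤ m c)
    (hV : ∀ E : Finset ℤ, ∑ e ∈ E, |g (e + 1) - g e| ≤ V) (c : ℤ) (r : ℕ) :
    av g c r ≤ V / 2 := by
  rw [av, div_le_iff₀ (len_pos r), ← card_W c, mul_comm, ← nsmul_eq_mul]
  exact sum_le_card_nsmul _ _ _ fun y _ => shp_half hα1 hg hm hV y

theorem shp_incr (hα0 : 0 < α) (hα1 : α ≤ 1) (hq : α * q = 1) (hg : ∀ x, 0 ≤ g x)
    (hm1 : ∀ c r, A α g c r ≤ m c) (hm2 : ∀ c b, (∀ r, A α g c r ≤ b) → m c ≤ b)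
    {c c' : ℤ} (h1 : c' - 1 ≤ c) (h2 : c ≤ c' + 1) (hle : m c' ≤ m c) {r : ℕ}
    (hr : Good α g c r) : (m c - m c') ^ q ≤ (2 * α) ^ q * (av g c r ^ q / len r) := by
  have hl := len_pos r
  have hq0 : 0 < q := by
    by_contra h
    have : α * q ≤ 0 := mul_nonpos_of_nonneg_of_nonpos hα0.le (not_lt.1 h)
    linarith
  have a1 : m c ≤ A α g c r := hm2 c _ hr
  have p1 : 0 < len r ^ α := Real.rpow_pos_of_pos hl _
  have p2 : 0 < len (r + 1) ^ α := Real.rpow_pos_of_pos (len_pos _) _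
  have b1 : len (r + 1) ^ α ≤ (1 + α * (2 / len r)) * len r ^ α := by
    have e : len (r + 1) = (1 + 2 / len r) * len r := by
      rw [add_mul, div_mul_cancel₀ _ hl.ne']
      unfold len; push_cast; ring
    rw [e, Real.mul_rpow (by positivity) hl.le]
    apply mul_le_mul_of_nonneg_right _ p1.le
    have : (0 : ℝ) < 2 / len r := by positivity
    exact rpow_one_add_le_one_add_mul_self (by linarith) hα0.le hα1
  have a2 : A α g c r ≤ (1 + α * (2 / len r)) * A α g c' (r + 1) := by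
    have hS : S g c r ≤ S g c' (r + 1) := S_mono hg (by push_cast; omega) (by push_cast; omega)
    unfold A
    rw [← mul_div_assoc, div_le_div_iff₀ p1 p2]
    calc S g c r * len (r + 1) ^ α ≤ S g c' (r + 1) * ((1 + α * (2 / len r)) * len r ^ α) :=
          mul_le_mul hS b1 p2.le (S_nonneg hg c' _)
      _ = _ := by ring
  have a3 := hm1 c' (r + 1)
  have a4 : 0 < α * (2 / len r) := by positivity
  have a5 : m c - m c' ≤ α * (2 / len r) * A α g c r := by
    have : α * (2 / len r) * A α g c' (r + 1) ≤ α * (2 / len r) * A α g c r :=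
      mul_le_mul_of_nonneg_left (a3.trans (hle.trans a1)) a4.le
    nlinarith
  have a6 : α * (2 / len r) * A α g c r = 2 * α * (av g c r / len r ^ α) := by
    unfold A av; field_simp
  rw [a6] at a5
  have a0 := av_nonneg hg c r
  calc (m c - m c') ^ q ≤ (2 * α * (av g c r / len r ^ α)) ^ q :=
        Real.rpow_le_rpow (by linarith) a5 hq0.le
    _ = (2 * α) ^ q * (av g c r ^ q / len r) := by
        rw [Real.mul_rpow (by positivity) (by positivity), Real.div_rpow a0 p1.le,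
          ← Real.rpow_mul hl.le, hq, Real.rpow_one]

theorem shp_K1 (hα0 : 0 < α) (hα1 : α ≤ 1 / 2) : K1 α 1 ≤ 2500 := by
  have h1 : (3 : ℝ) ^ α ≤ 9 / 5 := by
    calc (3 : ℝ) ^ α ≤ 3 ^ (1 / 2 : ℝ) := Real.rpow_le_rpow_of_exponent_le (by norm_num) hα1
      _ ≤ ((9 / 5 : ℝ) ^ (2 : ℝ)) ^ (1 / 2 : ℝ) := by
          apply Real.rpow_le_rpow (by norm_num) _ (by norm_num)
          rw [Real.rpow_two]; norm_num
      _ = 9 / 5 := by rw [← Real.rpow_mul (by norm_num)]; norm_num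
  have h2 : (1 - (3 : ℝ) ^ α / 3)⁻¹ ≤ 5 / 2 := by
    rw [inv_le_comm₀ (by linarith) (by norm_num)]; linarith
  have h0 : 0 ≤ (1 - (3 : ℝ) ^ α / 3)⁻¹ := inv_nonneg.2 (by linarith)
  have h3 : (3 : ℝ) ^ (1 + (1 - α) * 1) ≤ 9 := by
    calc (3 : ℝ) ^ (1 + (1 - α) * 1) ≤ 3 ^ (2 : ℝ) :=
          Real.rpow_le_rpow_of_exponent_le (by norm_num) (by linarith)
      _ = 9 := by rw [Real.rpow_two]; norm_num
  have h4 : 1 / ((1 - α) * 1) ≤ 2 := by
    rw [div_le_iff₀ (by linarith)]; linarith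
  have h5 : 0 ≤ 1 / ((1 - α) * 1) := div_nonneg zero_le_one (by linarith)
  unfold K1
  rw [Real.rpow_one]
  calc _ ≤ (5 / 2 : ℝ) * (7 * (5 / 2) * (9 * (2 * (1 + 2)))) := by gcongr
    _ ≤ 2500 := by norm_num

theorem shp_finite (hα0 : 0 < α) (hα1 : α ≤ 1 / 2) (hq : α * q = 1) (hg : ∀ x, 0 ≤ g x)
    (hV : ∀ E : Finset ℤ, ∑ e ∈ E, |g (e + 1) - g e| ≤ V) (hm1 : ∀ c r, A α g c r ≤ m c)
    (hm2 : ∀ c b, (∀ r, A α g c r ≤ b) → m c ≤ b) (F : Finset ℤ) :
    ∑ n ∈ F, |m (n + 1) - m n| ^ q ≤ 20000 * (α * V) ^ q := by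
  classical
  have hα2 : α < 1 := by linarith
  have hq2 : 2 ≤ q := by
    by_contra h
    nlinarith [not_le.1 h]
  have hV0 : 0 ≤ V := by simpa using hV ∅
  let ρ : ℤ → ℕ := fun c => if h : ∃ r, Good α g c r then h.choose else 0
  have hρ : ∀ c, (∃ r, Good α g c r) → Good α g c (ρ c) := by
    intro c h
    simp only [ρ, dif_pos h]
    exact h.choose_spec
  let u : ℤ → ℝ := fun c =>
    if Good α g c (ρ c) then (2 * α) ^ q * (av g c (ρ c) ^ q / len (ρ c)) else 0
  have hu0 : ∀ c, 0 ≤ u c := by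
    intro c
    have := av_nonneg hg c (ρ c)
    have := len_pos (ρ c)
    simp only [u]
    split_ifs
    · positivity
    · exact le_rfl
  have hu : ∀ G : Finset ℤ, ∑ c ∈ G, u c ≤ 10000 * (α * V) ^ q := by
    intro G
    simp only [u]
    rw [← Finset.sum_filter, ← Finset.mul_sum]
    have w := window_sum (p := 1) hα0.le hα2 one_pos hg hV ρ
      (G.filter fun c => Good α g c (ρ c)) (fun c hc => (mem_filter.1 hc).2)
    have w2 : ∑ c ∈ G.filter (fun c => Good α g c (ρ c)), av g c (ρ c) ^ q / len (ρ c) ≤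
        (V / 2) ^ (q - 2) * ∑ c ∈ G.filter (fun c => Good α g c (ρ c)),
          av g c (ρ c) ^ ((1 : ℝ) + 1) / len (ρ c) := by
      rw [mul_sum]
      refine sum_le_sum fun c _ => ?_
      have a0 := av_nonneg hg c (ρ c)
      have hl := len_pos (ρ c)
      rw [← mul_div_assoc]
      apply div_le_div_of_nonneg_right _ hl.le
      have e : q = (q - 2) + ((1 : ℝ) + 1) := by ring
      rw [e, Real.rpow_add' a0 (by linarith), ← e]
      exact mul_le_mul_of_nonneg_right
        (Real.rpow_le_rpow a0 (shp_av hα1 hg hm1 hV c _) (by linarith)) (by positivity)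
    have w3 : K1 α 1 * V ^ ((1 : ℝ) + 1) ≤ 10000 * (V / 2) ^ (2 : ℝ) := by
      rw [show (1 : ℝ) + 1 = 2 by norm_num, Real.rpow_two, Real.rpow_two]
      nlinarith [shp_K1 hα0 hα1, sq_nonneg V]
    have w4 : (V / 2) ^ (q - 2) * (10000 * (V / 2) ^ (2 : ℝ)) = 10000 * (V / 2) ^ q := by
      have e : q = (q - 2) + 2 := by ring
      conv_rhs => rw [e, Real.rpow_add' (by linarith) (by linarith)]
      ring
    calc _ ≤ (2 * α) ^ q * (10000 * (V / 2) ^ q) := by
          apply mul_le_mul_of_nonneg_left _ (by positivity)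
          rw [← w4]
          exact w2.trans (mul_le_mul_of_nonneg_left (w.trans w3) (by positivity))
      _ = 10000 * (α * V) ^ q := by
          rw [show α * V = 2 * α * (V / 2) by ring, Real.mul_rpow (x := 2 * α) (by positivity)
            (by positivity)]
          ring
  have h1 : ∀ n ∈ F, |m (n + 1) - m n| ^ q ≤ u n + u (n + 1) := by
    intro n _
    rcases lt_trichotomy (m n) (m (n + 1)) with h | h | h
    · have hgood := hρ (n + 1) (attained hα0.le hα2.le hg hm1 hm2 (by omega) (by omega) h)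
      have := shp_incr hα0 hα2.le hq hg hm1 hm2 (c := n + 1) (c' := n) (by omega) (by omega)
        h.le hgood
      rw [abs_of_pos (by linarith)]
      have e : u (n + 1) = (2 * α) ^ q * (av g (n + 1) (ρ (n + 1)) ^ q / len (ρ (n + 1))) :=
        if_pos hgood
      linarith [hu0 n]
    · rw [h, sub_self, abs_zero, Real.zero_rpow (by linarith)]
      linarith [hu0 n, hu0 (n + 1)]
    · have hgood := hρ n (attained hα0.le hα2.le hg hm1 hm2 (c' := n + 1) (by omega) (by omega) h)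
      have := shp_incr hα0 hα2.le hq hg hm1 hm2 (c := n) (c' := n + 1) (by omega) (by omega)
        h.le hgood
      rw [abs_of_neg (by linarith), neg_sub]
      have e : u n = (2 * α) ^ q * (av g n (ρ n) ^ q / len (ρ n)) := if_pos hgood
      linarith [hu0 (n + 1)]
  refine (Finset.sum_le_sum h1).trans ?_
  rw [Finset.sum_add_distrib]
  have a1 := hu F
  have a2 := hu (F.map (addRightEmbedding 1))
  rw [Finset.sum_map] at a2
  simp only [addRightEmbedding_apply] at a2
  linarith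

theorem shp_upper (β q : ℝ) (hβ0 : 1 / 2 ≤ β) (hβ1 : β < 1) (hq : q = 1 / (1 - β)) (f : ℤ → ℝ)
    (hf : Summable fun n => |f (n + 1) - f n|) (h0 : ∃ n, maxFn β f n ≠ ⊤) :
    (∀ n, maxFn β f n ≠ ⊤) ∧
      Summable (fun n => |(maxFn β f (n + 1)).toReal - (maxFn β f n).toReal| ^ q) ∧
      (∑' n, |(maxFn β f (n + 1)).toReal - (maxFn β f n).toReal| ^ q) ^ (1 / q) ≤
        (1 - β) * 20000 ^ (1 - β) * ∑' n, |f (n + 1) - f n| := by
  obtain ⟨C, hC⟩ := var_bound β q (by linarith) hβ1 hq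
  obtain ⟨hfin, hs, -⟩ := hC f hf h0
  refine ⟨hfin, hs, ?_⟩
  have hα0 : 0 < 1 - β := by linarith
  have hq0 : 0 < q := by rw [hq]; positivity
  have hV0 : 0 ≤ ∑' n, |f (n + 1) - f n| := tsum_nonneg fun _ => abs_nonneg _
  have h1 := shp_finite (g := fun x => |f x|) (m := fun c => (maxFn β f c).toReal) (q := q)
    (V := ∑' n, |f (n + 1) - f n|) hα0 (by linarith) (by rw [hq]; field_simp)
    (fun x => abs_nonneg _)
    (fun E => (sum_le_sum fun e _ => abs_abs_sub_abs_le_abs_sub _ _).trans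
      (hf.sum_le_tsum E fun _ _ => abs_nonneg _))
    (fun c r => by
      rw [← ENNReal.ofReal_le_iff_le_toReal (hfin c), maxFn_eq]
      exact le_iSup (fun r : ℕ => ENNReal.ofReal (A (1 - β) (fun x => |f x|) c r)) r)
    fun c b h => ENNReal.toReal_le_of_le_ofReal ((A_nonneg (fun x => abs_nonneg _) c 0).trans (h 0))
      (by rw [maxFn_eq]; exact iSup_le fun r => ENNReal.ofReal_le_ofReal (h r))
  refine (Real.rpow_le_rpow (tsum_nonneg fun n => by positivity)
    (Real.tsum_le_of_sum_le (fun n => by positivity) h1) (by positivity)).trans_eq ?_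
  rw [Real.mul_rpow (by norm_num) (by positivity), ← Real.rpow_mul (by positivity),
    mul_one_div_cancel hq0.ne', Real.rpow_one, show 1 / q = 1 - β by rw [hq]; field_simp]
  ring

end Pool.Agent.P.MP_f9323a_an
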