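import Pool.Agent.P.MP_f9323a_an.Main

/-! Trace form of the variation bound: charging optimal windows to level bands. -/

namespace Pool.Agent.P.MP_f9323a_an.Tr

open Finset MeasureTheory

/-- truncation to the band between `lo` and `hi` -/
def cl (lo hi x : ℝ) : ℝ := max lo (min x hi)

theorem lip {ι : Type*} (G : Finset ι) (l lo hi : ι → ℝ) (K : ℝ) (hl : ∀ c, 0 ≤ l c)
    (hK : ∀ t, ∑ c ∈ G with lo c < t ∧ t ≤ hi c, l c ≤ K) (u v : ℝ) :
    ∑ c ∈ G, l c * |cl (lo c) (hi c) v - cl (lo c) (hi c) u| ≤ K * |v - u| := by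
  wlog h : u ≤ v generalizing u v
  · simpa only [abs_sub_comm] using this v u (le_of_not_ge h)
  have hi' : ∀ c, Integrable ((Set.Ioc (lo c) (hi c)).indicator fun _ => l c)
      (volume.restrict (Set.Ioc u v)) := fun c =>
    (integrable_const _).indicator measurableSet_Ioc
  calc _ ≤ ∑ c ∈ G, ∫ t in Set.Ioc u v, (Set.Ioc (lo c) (hi c)).indicator (fun _ => l c) t := by
        refine sum_le_sum fun c _ => ?_
        rw [integral_indicator measurableSet_Ioc, setIntegral_const,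
          measureReal_restrict_apply measurableSet_Ioc, Set.Ioc_inter_Ioc, Real.volume_real_Ioc,
          smul_eq_mul, mul_comm]
        refine mul_le_mul_of_nonneg_right ?_ (hl c)
        rw [abs_le]
        simp only [cl, max_def, min_def]
        constructor <;> split_ifs <;> linarith
    _ = ∫ t in Set.Ioc u v, ∑ c ∈ G, (Set.Ioc (lo c) (hi c)).indicator (fun _ => l c) t :=
        (integral_finsetSum _ fun c _ => hi' c).symm
    _ ≤ ∫ _ in Set.Ioc u v, K := by
        refine integral_mono (integrable_finsetSum _ fun c _ => hi' c) (integrable_const _)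
          fun t => le_trans (le_of_eq ?_) (hK t)
        simp only [sum_filter, Set.indicator_apply, Set.mem_Ioc]
    _ = _ := by
        rw [setIntegral_const, Real.volume_real_Ioc, smul_eq_mul, mul_comm,
          max_eq_left (by linarith), abs_of_nonneg (by linarith)]

variable {α : ℝ} {g w : ℤ → ℝ}

theorem osc' {c : ℤ} {r : ℕ} (hr : Good α g c r) :
    (1 - 3 ^ α / 3) * av g c r ≤ ∑ e ∈ W c (3 * r + 1),
      |cl (3 ^ α / 3 * av g c r) (av g c r) (g (e + 1)) -
        cl (3 ^ α / 3 * av g c r) (av g c r) (g e)| := by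
  have hl := len_pos r
  have hlen : len (3 * r + 1) = 3 * len r := by unfold len; push_cast; ring
  have p1 : 0 < len r ^ α := Real.rpow_pos_of_pos hl _
  have p3 : (0 : ℝ) < 3 ^ α := Real.rpow_pos_of_pos (by norm_num) _
  have h1 := hr (3 * r + 1)
  unfold A at h1
  rw [hlen, Real.mul_rpow (by norm_num) hl.le, div_le_div_iff₀ (by positivity) p1] at h1
  have h2 : S g c (3 * r + 1) ≤ 3 ^ α * S g c r := by
    have : S g c (3 * r + 1) * len r ^ α ≤ (3 ^ α * S g c r) * len r ^ α := by linarith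
    exact le_of_mul_le_mul_right this p1
  obtain ⟨x, hx, hx'⟩ : ∃ x ∈ W c r, av g c r ≤ g x := by
    apply Finset.exists_le_of_sum_le (W_nonempty c r)
    rw [Finset.sum_const, nsmul_eq_mul, card_W]
    unfold av
    rw [mul_div_cancel₀ _ hl.ne']
    exact le_rfl
  obtain ⟨y, hy, hy'⟩ : ∃ y ∈ W c (3 * r + 1), g y ≤ 3 ^ α / 3 * av g c r := by
    apply Finset.exists_le_of_sum_le (W_nonempty c _)
    rw [Finset.sum_const, nsmul_eq_mul, card_W, hlen]
    have : 3 * len r * (3 ^ α / 3 * av g c r) = 3 ^ α * S g c r := by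
      unfold av; field_simp
    rw [this]
    exact h2
  have hx2 : x ∈ W c (3 * r + 1) := by
    rw [mem_W] at hx ⊢; push_cast; omega
  have h3 := (le_abs_self _).trans
    (tele_W (fun z => cl (3 ^ α / 3 * av g c r) (av g c r) (g z)) hy hx2)
  have h4 : av g c r ≤ cl (3 ^ α / 3 * av g c r) (av g c r) (g x) :=
    le_max_of_le_right (le_min hx' le_rfl)
  have h5 : cl (3 ^ α / 3 * av g c r) (av g c r) (g y) ≤ 3 ^ α / 3 * av g c r :=
    max_le le_rfl (min_le_of_left_le hy')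
  linarith

/-- the constant for one edge and one level -/
noncomputable def K2 (α : ℝ) : ℝ := (3 / (3 ^ α / 3 / 7) ^ (1 - α)⁻¹) ^ α

theorem level (hα0 : 0 < α) (hα1 : α < 1) (hg : ∀ x, 0 ≤ g x) (hw0 : ∀ n, 0 ≤ w n)
    (hw : ∀ (x : ℤ) (N : ℕ), ∑ n ∈ Ico x (x + N), w n ≤ (N : ℝ) ^ α) (ρ : ℤ → ℕ) (e : ℤ) (t : ℝ)
    (N : Finset ℤ) (hN : ∀ c ∈ N, Good α g c (ρ c) ∧ e ∈ W c (3 * ρ c + 1) ∧
      3 ^ α / 3 * av g c (ρ c) < t ∧ t ≤ av g c (ρ c)) :
    ∑ c ∈ N, w c / len (ρ c) ^ α ≤ K2 α := by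
  have p3 : (0 : ℝ) < 3 ^ α / 3 := by positivity
  rcases N.eq_empty_or_nonempty with rfl | hne
  · unfold K2
    rw [sum_empty]
    positivity
  obtain ⟨c0, h0, hmin⟩ := exists_min_image N ρ hne
  obtain ⟨c1, h1, hmax⟩ := exists_max_image N ρ hne
  have l0 := len_pos (ρ c0)
  have l1 := len_pos (ρ c1)
  obtain ⟨a1, a2, a3, -⟩ := hN c0 h0
  obtain ⟨-, b2, -, b4⟩ := hN c1 h1
  have ht : 0 < t := lt_of_le_of_lt (mul_nonneg p3.le (av_nonneg hg _ _)) a3
  have hd := decay hα0.le hα1.le hg a1 a2 b2 (hmin c1 h1)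
  set x := (len (ρ c0) / len (ρ c1)) ^ (1 - α) with hx
  have hx0 : 0 < x := by positivity
  have h2 : 3 ^ α / 3 / 7 ≤ x := by
    have : 3 ^ α / 3 * t ≤ 7 * x * t := by
      calc 3 ^ α / 3 * t ≤ 3 ^ α / 3 * (7 * av g c0 (ρ c0) * x) :=
            mul_le_mul_of_nonneg_left (b4.trans hd) p3.le
        _ = 7 * x * (3 ^ α / 3 * av g c0 (ρ c0)) := by ring
        _ ≤ _ := mul_le_mul_of_nonneg_left a3.le (by positivity)
    have := le_of_mul_le_mul_right this ht
    linarith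
  have h3 : (3 ^ α / 3 / 7) ^ (1 - α)⁻¹ ≤ len (ρ c0) / len (ρ c1) :=
    (Real.rpow_inv_le_iff_of_pos (by positivity) (by positivity) (by linarith)).2 h2
  have h4 : ∑ c ∈ N, w c ≤ (3 * len (ρ c1)) ^ α := by
    have h5 := hw (e - (3 * ρ c1 + 1)) (6 * ρ c1 + 3)
    have h6 : ((6 * ρ c1 + 3 : ℕ) : ℝ) = 3 * len (ρ c1) := by unfold len; push_cast; ring
    rw [h6] at h5
    refine (sum_le_sum_of_subset_of_nonneg (fun c hc => ?_) fun c _ _ => hw0 c).trans h5
    have h7 := (hN c hc).2.1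
    have h8 := hmax c hc
    rw [mem_W] at h7
    rw [mem_Ico]
    push_cast at h7 ⊢
    omega
  calc _ ≤ ∑ c ∈ N, w c / len (ρ c0) ^ α := by
        refine sum_le_sum fun c hc => div_le_div_of_nonneg_left (hw0 c) (by positivity)
          (Real.rpow_le_rpow l0.le ?_ hα0.le)
        have : (ρ c0 : ℝ) ≤ ρ c := by exact_mod_cast hmin c hc
        unfold len
        linarith
    _ ≤ (3 * len (ρ c1)) ^ α / len (ρ c0) ^ α := by
        rw [← sum_div]
        exact div_le_div_of_nonneg_right h4 (by positivity)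
    _ = (3 / (len (ρ c0) / len (ρ c1))) ^ α := by
        rw [← Real.div_rpow (by positivity) l0.le]
        congr 1
        field_simp
    _ ≤ _ := Real.rpow_le_rpow (by positivity)
        (div_le_div_of_nonneg_left (by norm_num) (by positivity) h3) hα0.le

theorem window (hα0 : 0 < α) (hα1 : α < 1) (hg : ∀ x, 0 ≤ g x) {V : ℝ}
    (hV : ∀ E : Finset ℤ, ∑ e ∈ E, |g (e + 1) - g e| ≤ V) (hw0 : ∀ n, 0 ≤ w n)
    (hw : ∀ (x : ℤ) (N : ℕ), ∑ n ∈ Ico x (x + N), w n ≤ (N : ℝ) ^ α) (ρ : ℤ → ℕ) (G : Finset ℤ)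
    (hG : ∀ c ∈ G, Good α g c (ρ c)) :
    ∑ c ∈ G, w c * (av g c (ρ c) / len (ρ c) ^ α) ≤ (1 - 3 ^ α / 3)⁻¹ * (K2 α * V) := by
  have hθ := theta_lt hα1
  have hl : ∀ c, 0 ≤ w c / len (ρ c) ^ α := fun c =>
    div_nonneg (hw0 c) (Real.rpow_nonneg (len_pos _).le _)
  rw [le_inv_mul_iff₀ hθ, mul_sum]
  set E := G.biUnion fun c => W c (3 * ρ c + 1) with hE
  calc _ ≤ ∑ c ∈ G, ∑ e ∈ E, if e ∈ W c (3 * ρ c + 1) then w c / len (ρ c) ^ α *
          |cl (3 ^ α / 3 * av g c (ρ c)) (av g c (ρ c)) (g (e + 1)) -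
            cl (3 ^ α / 3 * av g c (ρ c)) (av g c (ρ c)) (g e)| else 0 := by
        refine sum_le_sum fun c hc => ?_
        have : E.filter (fun e => e ∈ W c (3 * ρ c + 1)) = W c (3 * ρ c + 1) := by
          ext e
          simp only [mem_filter, hE, mem_biUnion]
          exact ⟨fun h => h.2, fun h => ⟨⟨c, hc, h⟩, h⟩⟩
        rw [← sum_filter, this, ← mul_sum]
        refine le_trans (le_of_eq (by ring))
          (mul_le_mul_of_nonneg_left (osc' (hG c hc)) (hl c))
    _ ≤ ∑ e ∈ E, K2 α * |g (e + 1) - g e| := by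
        rw [sum_comm]
        refine sum_le_sum fun e _ => ?_
        rw [← sum_filter]
        refine lip _ _ _ _ _ hl (fun t => level hα0 hα1 hg hw0 hw ρ e t _ fun c hc => ?_) _ _
        simp only [mem_filter] at hc
        exact ⟨hG c hc.1.1, hc.1.2, hc.2⟩
    _ ≤ _ := by
        rw [← mul_sum]
        exact mul_le_mul_of_nonneg_left (hV E) (by unfold K2; positivity)

end Pool.Agent.P.MP_f9323a_an.Tr
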