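import Pool.Agent.P.MP_f9323a_an.TrA

/-! Trace form of the variation bound: the main estimate and two families of weights. -/

namespace Pool.Agent.P.MP_f9323a_an.Tr

open Finset

variable {α : ℝ} {g w m : ℤ → ℝ}

theorem incr1 (hα0 : 0 < α) (hα1 : α < 1) (hg : ∀ x, 0 ≤ g x) (hm1 : ∀ c r, A α g c r ≤ m c)
    (hm2 : ∀ c b, (∀ r, A α g c r ≤ b) → m c ≤ b) {c c' : ℤ} (h1 : c' - 1 ≤ c) (h2 : c ≤ c' + 1)
    (hle : m c' ≤ m c) {r : ℕ} (hr : Good α g c r) :
    m c - m c' ≤ 2 * (av g c r / len r ^ α) := by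
  have hl := len_pos r
  have a1 : m c ≤ A α g c r := hm2 c _ hr
  have a2 := A_nbr hα0.le hα1.le hg h1 h2 r
  have a3 := hm1 c' (r + 1)
  have a4 : 0 < 2 / len r := by positivity
  have a5 : 2 / len r * A α g c' (r + 1) ≤ 2 / len r * A α g c r :=
    mul_le_mul_of_nonneg_left (a3.trans (hle.trans a1)) a4.le
  have p1 : 0 < len r ^ α := Real.rpow_pos_of_pos hl _
  have a6 : 2 / len r * A α g c r = 2 * (av g c r / len r ^ α) := by
    unfold A av; field_simp
  nlinarith

theorem finite_tr (hα0 : 0 < α) (hα1 : α < 1) (hg : ∀ x, 0 ≤ g x) {V : ℝ}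
    (hV : ∀ E : Finset ℤ, ∑ e ∈ E, |g (e + 1) - g e| ≤ V) (hm1 : ∀ c r, A α g c r ≤ m c)
    (hm2 : ∀ c b, (∀ r, A α g c r ≤ b) → m c ≤ b) (hw0 : ∀ n, 0 ≤ w n)
    (hw : ∀ (x : ℤ) (N : ℕ), ∑ n ∈ Ico x (x + N), w n ≤ (N : ℝ) ^ α) (F : Finset ℤ) :
    ∑ n ∈ F, w n * |m (n + 1) - m n| ≤ 4 * ((1 - 3 ^ α / 3)⁻¹ * (K2 α * V)) := by
  classical
  let ρ : ℤ → ℕ := fun c => if h : ∃ r, Good α g c r then h.choose else 0
  have hρ : ∀ c, (∃ r, Good α g c r) → Good α g c (ρ c) := by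
    intro c h
    simp only [ρ, dif_pos h]
    exact h.choose_spec
  let u : ℤ → ℝ := fun c => if Good α g c (ρ c) then av g c (ρ c) / len (ρ c) ^ α else 0
  have hu0 : ∀ c, 0 ≤ u c := by
    intro c
    have := av_nonneg hg c (ρ c)
    have := len_pos (ρ c)
    simp only [u]
    split_ifs
    · positivity
    · exact le_rfl
  have hu : ∀ w : ℤ → ℝ, (∀ n, 0 ≤ w n) →
      (∀ (x : ℤ) (N : ℕ), ∑ n ∈ Ico x (x + N), w n ≤ (N : ℝ) ^ α) → ∀ G : Finset ℤ,
      ∑ c ∈ G, w c * u c ≤ (1 - 3 ^ α / 3)⁻¹ * (K2 α * V) := by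
    intro w hw0 hw G
    simp only [u, mul_ite, mul_zero]
    rw [← sum_filter]
    exact window hα0 hα1 hg hV hw0 hw ρ _ fun c hc => (mem_filter.1 hc).2
  have h1 : ∀ n, |m (n + 1) - m n| ≤ 2 * (u n + u (n + 1)) := by
    intro n
    rcases lt_trichotomy (m n) (m (n + 1)) with h | h | h
    · have hgood := hρ (n + 1) (attained hα0.le hα1.le hg hm1 hm2 (by omega) (by omega) h)
      have := incr1 hα0 hα1 hg hm1 hm2 (c := n + 1) (c' := n) (by omega) (by omega) h.le hgood
      have e : u (n + 1) = _ := if_pos hgood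
      rw [abs_of_pos (by linarith)]
      linarith [hu0 n]
    · rw [h, sub_self, abs_zero]
      linarith [hu0 n, hu0 (n + 1)]
    · have hgood := hρ n (attained hα0.le hα1.le hg hm1 hm2 (c' := n + 1) (by omega) (by omega) h)
      have := incr1 hα0 hα1 hg hm1 hm2 (c := n) (c' := n + 1) (by omega) (by omega) h.le hgood
      have e : u n = _ := if_pos hgood
      rw [abs_of_neg (by linarith), neg_sub]
      linarith [hu0 (n + 1)]
  have a1 := hu w hw0 hw F
  have a2 := hu (fun c => w (c - 1)) (fun _ => hw0 _) (fun x N => by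
    have h2 := sum_Ico_add' (fun n => w (n - 1)) (x - 1) (x - 1 + N) 1
    simp only [add_sub_cancel_right] at h2
    rw [sub_add_cancel, show x - 1 + N + 1 = x + N by ring] at h2
    exact h2.ge.trans (hw (x - 1) N)) (F.map (addRightEmbedding 1))
  rw [sum_map] at a2
  simp only [addRightEmbedding_apply, add_sub_cancel_right] at a2
  calc _ ≤ ∑ n ∈ F, 2 * (w n * u n + w n * u (n + 1)) := sum_le_sum fun n _ =>
        (mul_le_mul_of_nonneg_left (h1 n) (hw0 n)).trans (le_of_eq (by ring))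
    _ ≤ _ := by
        rw [← mul_sum, sum_add_distrib]
        linarith

theorem trace (β : ℝ) (hβ0 : 0 < β) (hβ1 : β < 1) :
    ∃ C : ℝ, ∀ f : ℤ → ℝ, Summable (fun n => |f (n + 1) - f n|) → (∃ n, maxFn β f n ≠ ⊤) →
      (∀ n, maxFn β f n ≠ ⊤) ∧ ∀ w : ℤ → ℝ, (∀ n, 0 ≤ w n) →
        (∀ (x : ℤ) (N : ℕ), ∑ n ∈ Finset.Ico x (x + N), w n ≤ (N : ℝ) ^ (1 - β)) →
        Summable (fun n => w n * |(maxFn β f (n + 1)).toReal - (maxFn β f n).toReal|) ∧
        ∑' n, w n * |(maxFn β f (n + 1)).toReal - (maxFn β f n).toReal| ≤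
          C * ∑' n, |f (n + 1) - f n| := by
  obtain ⟨C, hC⟩ := var_bound β _ hβ0 hβ1 rfl
  refine ⟨4 * ((1 - 3 ^ (1 - β) / 3)⁻¹ * K2 (1 - β)), fun f hf h0 => ?_⟩
  have hfin := (hC f hf h0).1
  refine ⟨hfin, fun w hw0 hw => ?_⟩
  have hg : ∀ x, 0 ≤ (fun x => |f x|) x := fun x => abs_nonneg _
  have h := finite_tr (α := 1 - β) (V := ∑' n, |f (n + 1) - f n|)
    (m := fun c => (maxFn β f c).toReal) (by linarith) (by linarith) hg
    (fun E => (sum_le_sum fun e _ => abs_abs_sub_abs_le_abs_sub _ _).trans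
      (hf.sum_le_tsum E fun _ _ => abs_nonneg _))
    (fun c r => by
      rw [← ENNReal.ofReal_le_iff_le_toReal (hfin c), maxFn_eq]
      exact le_iSup (fun r : ℕ => ENNReal.ofReal (A (1 - β) (fun x => |f x|) c r)) r)
    (fun c b h => ENNReal.toReal_le_of_le_ofReal ((A_nonneg hg c 0).trans (h 0)) (by
      rw [maxFn_eq]
      exact iSup_le fun r => ENNReal.ofReal_le_ofReal (h r))) hw0 hw
  have hnn : ∀ n, 0 ≤ w n * |(maxFn β f (n + 1)).toReal - (maxFn β f n).toReal| :=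
    fun n => mul_nonneg (hw0 n) (abs_nonneg _)
  exact ⟨summable_of_sum_le hnn h, (Real.tsum_le_of_sum_le hnn h).trans (le_of_eq (by ring))⟩

/-- Weights from the inequality of Hoelder. -/
theorem dual_lq {β q B : ℝ} (hβ0 : 0 < β) (hβ1 : β < 1) (hq : q = 1 / (1 - β)) {d : ℤ → ℝ}
    (hd : ∀ n, 0 ≤ d n) (h : ∀ w : ℤ → ℝ, (∀ n, 0 ≤ w n) →
      (∀ (x : ℤ) (N : ℕ), ∑ n ∈ Ico x (x + N), w n ≤ (N : ℝ) ^ (1 - β)) →
      Summable (fun n => w n * d n) ∧ ∑' n, w n * d n ≤ B) :
    Summable (fun n => d n ^ q) ∧ (∑' n, d n ^ q) ^ (1 / q) ≤ B := by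
  classical
  have hα : 0 < 1 - β := by linarith
  have hq1 : 1 < q := by rw [hq, lt_div_iff₀ hα]; linarith
  have hq' : 1 / q = 1 - β := by rw [hq, one_div_one_div]
  have hB : 0 ≤ B := by simpa using (h 0 (fun _ => le_rfl) fun x N => by simp; positivity).2
  have hn : ∀ n, 0 ≤ d n ^ q := fun n => Real.rpow_nonneg (hd n) _
  have key : ∀ F : Finset ℤ, ∑ n ∈ F, d n ^ q ≤ B ^ q := by
    intro F
    obtain ⟨s, hs⟩ : ∃ s, s = ∑ n ∈ F, d n ^ q := ⟨_, rfl⟩
    have hs0 : 0 ≤ s := hs ▸ sum_nonneg fun n _ => hn n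
    rw [← hs]
    rcases hs0.eq_or_lt with h0 | h0
    · rw [← h0]
      positivity
    have hw0 : ∀ n, 0 ≤ if n ∈ F then (d n ^ q / s) ^ β else 0 := fun n => by
      have := hn n
      positivity
    obtain ⟨h1, h2⟩ := h _ hw0 fun x N => by
      have hc : (1 / β).HolderConjugate q := by
        rw [Real.holderConjugate_iff, one_div, inv_inv, ← one_div q, hq', one_lt_inv₀ hβ0]
        exact ⟨hβ1, by ring⟩
      have h3 := Real.inner_le_Lp_mul_Lq_of_nonneg (Ico x (x + N)) hc (fun n _ => hw0 n)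
        (g := fun _ => 1) fun _ _ => zero_le_one
      have h4 : ∑ n ∈ Ico x (x + N), (if n ∈ F then (d n ^ q / s) ^ β else 0) ^ (1 / β) ≤ 1 := by
        calc _ = ∑ n ∈ Ico x (x + N) with n ∈ F, d n ^ q / s := by
              rw [sum_filter]
              refine sum_congr rfl fun n _ => ?_
              split_ifs
              · rw [one_div, Real.rpow_rpow_inv (div_nonneg (hn n) h0.le) hβ0.ne']
              · exact Real.zero_rpow (by positivity)
          _ ≤ ∑ n ∈ F, d n ^ q / s := sum_le_sum_of_subset_of_nonneg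
              (fun n h => (mem_filter.1 h).2) fun n _ _ => div_nonneg (hn n) h0.le
          _ = 1 := by rw [← sum_div, ← hs, div_self h0.ne']
      have h5 := Real.rpow_le_one (sum_nonneg fun n _ => Real.rpow_nonneg (hw0 n) _) h4
        (z := 1 / (1 / β)) (by positivity)
      simp only [mul_one, Real.one_rpow, sum_const, Int.card_Ico, add_sub_cancel_left,
        Int.toNat_natCast, nsmul_eq_mul, hq'] at h3
      exact h3.trans (mul_le_of_le_one_left (by positivity) h5)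
    have h3 := (h1.sum_le_tsum F fun n _ => mul_nonneg (hw0 n) (hd n)).trans h2
    have h4 : ∑ n ∈ F, (if n ∈ F then (d n ^ q / s) ^ β else 0) * d n = s ^ (1 / q) := by
      have e : s / s ^ β = ∑ n ∈ F, d n ^ q / s ^ β := by rw [← sum_div, ← hs]
      rw [hq', Real.rpow_sub h0, Real.rpow_one, e]
      refine sum_congr rfl fun n hF => ?_
      rw [if_pos hF, Real.div_rpow (hn n) h0.le, ← Real.rpow_mul (hd n), div_mul_eq_mul_div,
        ← Real.rpow_add_one' (hd n) (by positivity)]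
      congr 2
      rw [hq]
      field_simp
      ring
    rw [h4, one_div, Real.rpow_inv_le_iff_of_pos h0.le hB (by linarith)] at h3
    exact h3
  refine ⟨summable_of_sum_le hn key, ?_⟩
  rw [one_div, Real.rpow_inv_le_iff_of_pos (tsum_nonneg hn) hB (by linarith)]
  exact Real.tsum_le_of_sum_le hn key

theorem sum_pow_le {β : ℝ} (hβ0 : 0 < β) (hβ1 : β < 1) (J : Finset ℕ) :
    ∑ j ∈ J, (1 - β) * ((j : ℝ) + 1) ^ (-β) ≤ (J.card : ℝ) ^ (1 - β) := by
  induction J using Finset.induction_on_max with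
  | empty => simp; positivity
  | insert a J ha ih =>
    have hn : a ∉ J := fun h => lt_irrefl _ (ha a h)
    have hk : (J.card : ℝ) ≤ a := by
      exact_mod_cast (card_le_card fun j hj => mem_range.2 (ha j hj)).trans_eq (card_range a)
    rw [sum_insert hn, card_insert_of_notMem hn]
    push_cast
    have kn : (0 : ℝ) ≤ J.card := Nat.cast_nonneg _
    generalize (J.card : ℝ) = k at *
    have k0 : 0 < k + 1 := by positivity
    have h1 : ((a : ℝ) + 1) ^ (-β) ≤ (k + 1) ^ (-β) :=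
      Real.rpow_le_rpow_of_nonpos k0 (by linarith) (by linarith)
    have h2 := rpow_one_add_le_one_add_mul_self (s := -(1 / (k + 1))) (p := 1 - β)
      (by rw [neg_le_neg_iff, div_le_one k0]; linarith) (by linarith) (by linarith)
    have e : 1 + -(1 / (k + 1)) = k / (k + 1) := by field_simp; ring
    have p : 0 < (k + 1) ^ (1 - β) := by positivity
    rw [e, Real.div_rpow kn k0.le, div_le_iff₀ p] at h2
    have e2 : (k + 1) ^ (-β) = 1 / (k + 1) * (k + 1) ^ (1 - β) := by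
      rw [sub_eq_add_neg, Real.rpow_add k0, Real.rpow_one]
      field_simp
    nlinarith

/-- Weights of the Lorentz norm. -/
theorem dual_lorentz {β B : ℝ} (hβ0 : 0 < β) (hβ1 : β < 1) {d : ℤ → ℝ}
    (h : ∀ w : ℤ → ℝ, (∀ n, 0 ≤ w n) →
      (∀ (x : ℤ) (N : ℕ), ∑ n ∈ Ico x (x + N), w n ≤ (N : ℝ) ^ (1 - β)) →
      Summable (fun n => w n * d n) ∧ ∑' n, w n * d n ≤ B) (ν : ℕ → ℤ)
    (hν : Function.Injective ν) :
    Summable (fun j : ℕ => (1 - β) * ((j : ℝ) + 1) ^ (-β) * d (ν j)) ∧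
      ∑' j : ℕ, (1 - β) * ((j : ℝ) + 1) ^ (-β) * d (ν j) ≤ B := by
  classical
  set φ : ℕ → ℝ := fun j => (1 - β) * ((j : ℝ) + 1) ^ (-β) with hφ
  have h0 : ∀ n, n ∉ Set.range ν → Function.extend ν φ 0 n = 0 := fun n hn =>
    Function.extend_apply' _ _ _ hn
  obtain ⟨h1, h2⟩ := h (Function.extend ν φ 0) (fun n => by
      by_cases hn : n ∈ Set.range ν
      · obtain ⟨j, rfl⟩ := hn
        have : 0 < 1 - β := by linarith
        rw [hν.extend_apply]
        positivity
      · exact (h0 n hn).ge) fun x N => by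
    rw [← sum_preimage ν _ hν.injOn _ fun n _ hn => h0 n hn]
    simp only [hν.extend_apply]
    refine (sum_pow_le hβ0 hβ1 _).trans (Real.rpow_le_rpow (by positivity) ?_ (by linarith))
    have := card_le_card_of_injOn (s := preimage (Ico x (x + N)) ν hν.injOn) (t := Ico x (x + N)) ν
      (fun j hj => mem_preimage.1 hj) hν.injOn
    simpa using this
  have hs : Function.support (fun n => Function.extend ν φ 0 n * d n) ⊆ Set.range ν := by
    intro n hn
    by_contra hc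
    exact hn (by simp [h0 n hc])
  have e := hν.tsum_eq hs
  have h3 := h1.comp_injective hν
  simp only [Function.comp_def, hν.extend_apply] at e h3
  exact ⟨h3, e.trans_le h2⟩

end Pool.Agent.P.MP_f9323a_an.Tr
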