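import Pool.Agent.P.MP_f9323a_an.TrB

/-! The growth condition on the weight is necessary. -/

namespace Pool.Agent.P.MP_f9323a_an.Tr

open Finset

/-- the indicator of the `N` points to the left of `x` -/
def blk (x : ℤ) (N : ℕ) (y : ℤ) : ℝ := if x - N ≤ y ∧ y < x then 1 else 0

theorem blk_S (x : ℤ) (N k r : ℕ) :
    S (fun y => |blk x N y|) (x + k) r = ((min (r - k) N : ℕ) : ℝ) := by
  have e : (fun y => |blk x N y|) = blk x N := by
    funext y; unfold blk; split_ifs <;> simp
  have e2 : (Ico (max (x + k - r) (x - N)) x).card = min (r - k) N := by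
    rw [Int.card_Ico]; omega
  rw [e]
  unfold S blk
  rw [sum_boole, ← e2]
  congr 2
  ext y
  simp only [mem_filter, mem_W, mem_Ico]
  omega

theorem blk_max {β : ℝ} (hβ0 : 0 < β) (hβ1 : β < 1) (x : ℤ) (N k : ℕ) :
    maxFn β (blk x N) (x + k) = ENNReal.ofReal (N / len (N + k) ^ (1 - β)) := by
  rw [maxFn_eq]
  refine le_antisymm (iSup_le fun r => ENNReal.ofReal_le_ofReal ?_)
    (le_iSup_of_le (N + k) (le_of_eq ?_))
  · have hl := len_pos r
    have hw := len_pos (N + k)
    have p1 : 0 < len r ^ (1 - β) := by positivity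
    have p2 : 0 < len (N + k) ^ (1 - β) := by positivity
    rw [A, blk_S]
    rcases le_total (N + k) r with h | h
    · rw [min_eq_right (by omega)]
      refine div_le_div_of_nonneg_left (by positivity) p2 (Real.rpow_le_rpow hw.le ?_ (by linarith))
      have : ((N + k : ℕ) : ℝ) ≤ r := by exact_mod_cast h
      unfold len
      linarith
    · have h1 : (r - k) * (2 * (N + k) + 1) ≤ N * (2 * r + 1) := by
        rcases le_total r k with h2 | h2
        · simp [Nat.sub_eq_zero_of_le h2]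
        · obtain ⟨j, rfl⟩ := Nat.exists_eq_add_of_le h2
          rw [Nat.add_sub_cancel_left]
          have : j ≤ N := by omega
          nlinarith
      have h2 : ((r - k : ℕ) : ℝ) * len (N + k) ≤ N * len r := by
        unfold len; exact_mod_cast h1
      have h3 : len r / len (N + k) ≤ (len r / len (N + k)) ^ (1 - β) := by
        refine Real.self_le_rpow_of_le_one (by positivity) ((div_le_one hw).2 ?_) (by linarith)
        have : (r : ℝ) ≤ ((N + k : ℕ) : ℝ) := by exact_mod_cast h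
        unfold len
        linarith
      rw [Real.div_rpow hl.le hw.le, div_le_div_iff₀ hw p2] at h3
      rw [min_eq_left (by omega), div_le_div_iff₀ p1 p2]
      refine le_of_mul_le_mul_right ?_ hw
      nlinarith [mul_le_mul_of_nonneg_right h2 p2.le,
        mul_le_mul_of_nonneg_left h3 (Nat.cast_nonneg (α := ℝ) N)]
  · rw [A, blk_S, Nat.add_sub_cancel, min_self]

theorem blk_var (x : ℤ) {N : ℕ} (hN : 0 < N) :
    Summable (fun n => |blk x N (n + 1) - blk x N n|) ∧
      ∑' n, |blk x N (n + 1) - blk x N n| = 2 := by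
  have h : ∀ n ∉ ({x - 1, x - N - 1} : Finset ℤ), |blk x N (n + 1) - blk x N n| = 0 := by
    intro n hn
    simp only [mem_insert, mem_singleton, not_or] at hn
    unfold blk
    split_ifs <;> first | omega | simp
  refine ⟨summable_of_ne_finset_zero h, ?_⟩
  rw [tsum_eq_sum h, sum_pair (by omega)]
  unfold blk
  rw [if_neg (by omega), if_pos (by omega), if_pos (by omega), if_neg (by omega)]
  norm_num

theorem converse {β K : ℝ} (hβ0 : 0 < β) (hβ1 : β < 1) {w : ℤ → ℝ} (hw0 : ∀ n, 0 ≤ w n)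
    (H : ∀ f : ℤ → ℝ, Summable (fun n => |f (n + 1) - f n|) → (∃ n, maxFn β f n ≠ ⊤) →
      Summable (fun n => w n * |(maxFn β f (n + 1)).toReal - (maxFn β f n).toReal|) ∧
      ∑' n, w n * |(maxFn β f (n + 1)).toReal - (maxFn β f n).toReal| ≤
        K * ∑' n, |f (n + 1) - f n|) (x : ℤ) (N : ℕ) :
    ∑ n ∈ Ico x (x + N), w n ≤ 32 / (1 - β) * K * (N : ℝ) ^ (1 - β) := by
  have hα : 0 < 1 - β := by linarith
  rcases N.eq_zero_or_pos with rfl | hN
  · simp [Real.zero_rpow hα.ne']
  have N0 : (0 : ℝ) < N := by exact_mod_cast hN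
  obtain ⟨v1, v2⟩ := blk_var x hN
  obtain ⟨h1, h2⟩ := H _ v1 ⟨x + (0 : ℕ), by rw [blk_max hβ0 hβ1]; exact ENNReal.ofReal_ne_top⟩
  have hnn : ∀ n, 0 ≤ w n * |(maxFn β (blk x N) (n + 1)).toReal - (maxFn β (blk x N) n).toReal| :=
    fun n => mul_nonneg (hw0 n) (abs_nonneg _)
  have p : 0 < (N : ℝ) ^ (1 - β) := by positivity
  have h3 : ∀ n ∈ Ico x (x + N), w n * ((1 - β) / 16 / (N : ℝ) ^ (1 - β)) ≤
      w n * |(maxFn β (blk x N) (n + 1)).toReal - (maxFn β (blk x N) n).toReal| := by
    intro n hn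
    refine mul_le_mul_of_nonneg_left ?_ (hw0 n)
    rw [mem_Ico] at hn
    obtain ⟨k, rfl⟩ := Int.le.dest hn.1
    have hk : (k : ℝ) + 1 ≤ N := by exact_mod_cast (by omega : k + 1 ≤ N)
    have l1 := len_pos (N + k)
    have l2 := len_pos (N + (k + 1))
    rw [show x + k + 1 = x + (k + 1 : ℕ) by push_cast; ring, blk_max hβ0 hβ1, blk_max hβ0 hβ1,
      ENNReal.toReal_ofReal (by positivity), ENNReal.toReal_ofReal (by positivity), abs_sub_comm]
    refine le_trans ?_ (le_abs_self _)
    have a1 := pow_step hα l1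
    have a2 : len (N + (k + 1)) ^ (-(1 - β)) ≤ (len (N + k) + 1) ^ (-(1 - β)) :=
      Real.rpow_le_rpow_of_nonpos (by linarith) (by unfold len; push_cast; linarith) (by linarith)
    have a3 : (4 * N : ℝ) ^ (-(1 + (1 - β))) ≤ (len (N + k) + 1) ^ (-(1 + (1 - β))) :=
      Real.rpow_le_rpow_of_nonpos (by linarith) (by unfold len; push_cast; linarith) (by linarith)
    have a4 : (4 : ℝ) ^ (1 + (1 - β)) ≤ 16 := by
      refine (Real.rpow_le_rpow_of_exponent_le (by norm_num) (show _ ≤ (2 : ℝ) by linarith)).trans ?_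
      norm_num
    have a5 : 1 / 16 / (N : ℝ) ^ (1 - β) ≤ N * (4 * N : ℝ) ^ (-(1 + (1 - β))) := by
      rw [Real.rpow_neg (by positivity), Real.mul_rpow (by norm_num) N0.le, Real.rpow_add N0,
        Real.rpow_one, ← div_eq_mul_inv, div_div, div_le_div_iff₀ (by positivity) (by positivity)]
      nlinarith [mul_le_mul_of_nonneg_right a4 (mul_pos N0 p).le]
    rw [Real.rpow_neg l1.le] at a1
    rw [Real.rpow_neg l2.le] at a2
    rw [div_eq_mul_inv (N : ℝ), div_eq_mul_inv (N : ℝ), ← mul_sub]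
    calc _ = (1 - β) * (1 / 16 / (N : ℝ) ^ (1 - β)) := by ring
      _ ≤ (1 - β) * (N * (len (N + k) + 1) ^ (-(1 + (1 - β)))) :=
          mul_le_mul_of_nonneg_left (a5.trans (mul_le_mul_of_nonneg_left a3 N0.le)) hα.le
      _ = N * ((1 - β) * (len (N + k) + 1) ^ (-(1 + (1 - β)))) := by ring
      _ ≤ _ := mul_le_mul_of_nonneg_left (by linarith) N0.le
  have h4 := (sum_le_sum h3).trans ((h1.sum_le_tsum _ fun n _ => hnn n).trans h2)
  rw [← sum_mul, ← le_div_iff₀ (by positivity), v2] at h4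
  refine h4.trans (le_of_eq ?_)
  field_simp
  ring

end Pool.Agent.P.MP_f9323a_an.Tr
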