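import Pool.Agent.P.MP_f9323a_an.ExcF
import Pool.Agent.P.MP_f9323a_an.UncDefs

/-! The sharp upper bound for the uncentered operator. -/

namespace Pool.Agent.P.MP_f9323a_an.Unc

open Finset Filter Topology Exc

variable {ε q V : ℝ} {g m : ℤ → ℝ} {a b y lo n : ℤ}

theorem conv_inc (hq : 1 ≤ q) {t t' d d' : ℝ} (h0 : 0 ≤ t) (h1 : t ≤ t') (h2 : 0 ≤ d) (h3 : d ≤ d') :
    (t + d) ^ q - t ^ q ≤ (t' + d') ^ q - t' ^ q := by
  have a0 : (t' + d) ^ q ≤ (t' + d') ^ q := Real.rpow_le_rpow (by linarith) (by linarith) (by linarith)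
  have a1 : ∀ u v : ℝ, 0 ≤ u → u ≤ v → q * u ^ (q - 1) ≤ q * v ^ (q - 1) := fun u v h4 h5 =>
    mul_le_mul_of_nonneg_left (Real.rpow_le_rpow h4 h5 (by linarith)) (by linarith)
  rcases le_total (t + d) t' with h | h
  · nlinarith [tang hq (a := t + d) (b := t) (by linarith) h0,
      tang hq (a := t') (b := t' + d) (by linarith) (by linarith),
      mul_le_mul_of_nonneg_right (a1 _ _ (by linarith) h) h2]
  · nlinarith [tang hq (a := t') (b := t) (by linarith) h0,
      tang hq (a := t + d) (b := t' + d) (by linarith) (by linarith),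
      mul_le_mul_of_nonneg_right (a1 _ _ (by linarith) h) (sub_nonneg.2 h1)]

theorem one_lt (h0 : 0 < ε) (h1 : ε < 1) (hq : ε * q = 1) : 1 < q := by
  by_contra hc
  nlinarith [not_lt.1 hc]

theorem one_step (h0 : 0 < ε) (h1 : ε < 1) (hq : ε * q = 1) {S s l D : ℝ} (hS : 0 ≤ S) (hs : 0 ≤ s)
    (hl : 0 < l) (hD : 0 < D) (hD2 : D ≤ S / l ^ ε - (S + s) / (l + 1) ^ ε) :
    s * l < S ∧ D ^ q ≤ ε ^ q / q * ((S / l) ^ q - ((S + s) / (l + 1)) ^ q) := by
  have hq1 := one_lt h0 h1 hq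
  have hq0 : 0 < q := by linarith
  have k1 : s * l < S := by
    by_contra hc
    have p1 := Real.rpow_pos_of_pos hl ε
    have a1 : (l + 1) ^ ε ≤ l ^ ε * (1 + 1 / l) := by
      rw [show l + 1 = l * (1 + 1 / l) by field_simp, Real.mul_rpow hl.le (by positivity)]
      refine mul_le_mul_of_nonneg_left ?_ p1.le
      have : 0 < 1 / l := by positivity
      exact Real.rpow_le_self_of_one_le (by linarith) h1.le
    have a2 : S * (1 + 1 / l) ≤ S + s := by
      rw [mul_add, mul_one, mul_one_div, add_le_add_iff_left, div_le_iff₀ hl]; linarith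
    have a3 : S / l ^ ε ≤ (S + s) / (l + 1) ^ ε := by
      rw [div_le_div_iff₀ p1 (by positivity)]
      nlinarith [mul_le_mul_of_nonneg_left a1 hS, mul_le_mul_of_nonneg_right a2 p1.le]
    linarith
  refine ⟨k1, ?_⟩
  have hd : ∀ y : ℝ, 0 ≤ y → HasDerivAt (fun y : ℝ => ε ^ q / q * ((S + s * y) / (l + y)) ^ q +
      D ^ q * y - q * D ^ (q - 1) * ((S + s * y) / (l + y) ^ ε + D * y))
      (ε ^ q / q * ((s * 1 * (l + y) - (S + s * y) * 1) / (l + y) ^ 2 * q *
        ((S + s * y) / (l + y)) ^ (q - 1)) + D ^ q * 1 - q * D ^ (q - 1) *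
        ((s * 1 * (l + y) ^ ε - (S + s * y) * (1 * ε * (l + y) ^ (ε - 1))) / ((l + y) ^ ε) ^ 2 +
          D * 1)) y := by
    intro y hy
    have d1 := ((hasDerivAt_id y).const_mul s).const_add S
    have d2 := (hasDerivAt_id y).const_add l
    have hly : 0 < l + y := by linarith
    exact ((((d1.div d2 hly.ne').rpow_const (Or.inr hq1.le)).const_mul _).add
      ((hasDerivAt_id y).const_mul _)).sub (((d1.div (d2.rpow_const (Or.inl hly.ne'))
        (Real.rpow_pos_of_pos hly ε).ne').add ((hasDerivAt_id y).const_mul _)).const_mul _)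
  have hm := antitoneOn_of_deriv_nonpos (convex_Ici (0 : ℝ))
    (fun y hy => (hd y hy).continuousAt.continuousWithinAt)
    (fun y hy => (hd y (interior_subset hy)).differentiableAt.differentiableWithinAt)
    (fun y hy => by
      have hy0 : 0 ≤ y := interior_subset hy
      rw [(hd y hy0).deriv]
      have hly : 0 < l + y := by linarith
      have p1 := Real.rpow_pos_of_pos hly ε
      obtain ⟨u, hu⟩ : ∃ u, S + s * y = u * (l + y) := ⟨(S + s * y) / (l + y), by field_simp⟩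
      have hus : s ≤ u := le_of_mul_le_mul_right (by linarith) hly
      have hu0 : 0 ≤ ε * u := mul_nonneg h0.le (hs.trans hus)
      rw [hu, mul_div_cancel_right₀ _ hly.ne', Real.rpow_sub_one hly.ne']
      have e1 : (s * 1 * (l + y) ^ ε - u * (l + y) * (1 * ε * ((l + y) ^ ε / (l + y)))) /
          ((l + y) ^ ε) ^ 2 = -((ε * u - s) / (l + y) ^ ε) := by field_simp; ring
      have e2 : ε ^ q / q * ((s * 1 * (l + y) - u * (l + y) * 1) / (l + y) ^ 2 * q * u ^ (q - 1)) =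
          -((ε * u) ^ (q - 1) * (ε * (u - s)) / (l + y)) := by
        rw [Real.mul_rpow h0.le (hs.trans hus), Real.rpow_sub_one h0.ne']; field_simp; ring
      have w0 := le_max_right (ε * u - s) 0
      have w1 := le_max_left (ε * u - s) 0
      have w2 : max (ε * u - s) 0 ≤ ε * (u - s) := max_le (by nlinarith) (by nlinarith)
      have a1 := tang hq1.le hD.le (div_nonneg w0 p1.le)
      have a2 : (max (ε * u - s) 0 / (l + y) ^ ε) ^ q ≤ (ε * u) ^ (q - 1) * (ε * (u - s)) / (l + y) := by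
        rw [Real.div_rpow w0 p1.le, ← Real.rpow_mul hly.le, hq, Real.rpow_one]
        refine div_le_div_of_nonneg_right ?_ hly.le
        conv_lhs => rw [show q = q - 1 + 1 by ring, Real.rpow_add_one' w0 (by linarith)]
        exact mul_le_mul (Real.rpow_le_rpow w0 (max_le (by linarith) hu0) (by linarith)) w2 w0
          (by positivity)
      have a3 := mul_le_mul_of_nonneg_left (div_le_div_of_nonneg_right w1 p1.le)
        (show 0 ≤ q * D ^ (q - 1) by positivity)
      rw [e1, e2]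
      linarith)
  have := hm (Set.mem_Ici.2 le_rfl) (Set.mem_Ici.2 zero_le_one) zero_le_one
  simp only [mul_zero, add_zero, mul_one] at this
  nlinarith [mul_le_mul_of_nonneg_left hD2 (show 0 ≤ q * D ^ (q - 1) by positivity)]

/-- Sum over an interval. -/
noncomputable def T (g : ℤ → ℝ) (a b : ℤ) : ℝ := ∑ t ∈ Icc a b, g t

/-- Mean over an interval. -/
noncomputable def mean (g : ℤ → ℝ) (a b : ℤ) : ℝ := T g a b / (b - a + 1)

/-- Fractional mean over an interval. -/
noncomputable def Gu (ε : ℝ) (g : ℤ → ℝ) (a b : ℤ) : ℝ := T g a b / (b - a + 1) ^ ε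

/-- Largest mean over the intervals ending at `b` and starting at `y` or later. -/
noncomputable def X (g : ℤ → ℝ) (y b : ℤ) : ℝ := (Icc y b).fold max 0 fun a => mean g a b

theorem T_succ (g : ℤ → ℝ) (h : a ≤ b + 1) : T g a (b + 1) = T g a b + g (b + 1) := by
  rw [T, show Icc a (b + 1) = insert (b + 1) (Icc a b) by
    ext; simp only [mem_Icc, mem_insert]; omega, sum_insert (by simp), add_comm, T]

theorem T_nonneg (hg : ∀ x, 0 ≤ g x) (a b : ℤ) : 0 ≤ T g a b := sum_nonneg fun _ _ => hg _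

theorem mean_self (g : ℤ → ℝ) (b : ℤ) : mean g b b = g b := by simp [mean, T]

theorem mean_le_X (g : ℤ → ℝ) (h1 : y ≤ a) (h2 : a ≤ b) : mean g a b ≤ X g y b :=
  (le_fold_max _).2 (Or.inr ⟨a, mem_Icc.2 ⟨h1, h2⟩, le_rfl⟩)

theorem X_le {B : ℝ} (h0 : 0 ≤ B) (h : ∀ a, y ≤ a → a ≤ b → mean g a b ≤ B) : X g y b ≤ B :=
  (fold_max_le _).2 ⟨h0, fun a ha => h a (mem_Icc.1 ha).1 (mem_Icc.1 ha).2⟩

theorem X_nonneg (g : ℤ → ℝ) (y b : ℤ) : 0 ≤ X g y b := (le_fold_max _).2 (Or.inl le_rfl)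

theorem X_ex (hg : ∀ x, 0 ≤ g x) (h : y ≤ b) : ∃ a, y ≤ a ∧ a ≤ b ∧ X g y b = mean g a b := by
  obtain ⟨a, ha, h1⟩ := exists_max_image (Icc y b) (fun a => mean g a b) ⟨y, mem_Icc.2 ⟨le_rfl, h⟩⟩
  rw [mem_Icc] at ha
  exact ⟨a, ha.1, ha.2, le_antisymm (X_le (div_nonneg (T_nonneg hg _ _) (ln_pos ha.2).le)
    fun a' h2 h3 => h1 a' (mem_Icc.2 ⟨h2, h3⟩)) (mean_le_X g ha.1 ha.2)⟩

theorem X_succ (g : ℤ → ℝ) (y b : ℤ) : X g y (b + 1) ≤ max (X g y b) (g (b + 1)) := by
  refine X_le ((X_nonneg g y b).trans (le_max_left _ _)) fun a h1 h2 => ?_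
  rcases h2.eq_or_lt with h | h
  · rw [h, mean_self]; exact le_max_right _ _
  · have h3 : a ≤ b := by omega
    have h4 := (mean_le_X g h1 h3).trans (le_max_left _ (g (b + 1)))
    have h5 := le_max_right (X g y b) (g (b + 1))
    rw [mean, div_le_iff₀ (ln_pos h3)] at h4
    rw [mean, div_le_iff₀ (ln_pos h2), T_succ g h2]
    push_cast
    linarith

theorem drops (hq : 1 ≤ q) (hg : ∀ x, 0 ≤ g x) (h0 : g y = 0) (h : y ≤ b) :
    g b ≤ ∑ t ∈ Ioc y b, max (g t - g (t - 1)) 0 ∧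
    ∑ t ∈ Ioc y b, max (X g y (t - 1) ^ q - X g y t ^ q) 0 + X g y b ^ q ≤
      (∑ t ∈ Ioc y b, max (g t - g (t - 1)) 0) ^ q := by
  induction b, h using Int.leInduction with
  | base =>
    have : X g y y = 0 := le_antisymm (X_le le_rfl fun a h1 h2 => by
      rw [le_antisymm h2 h1, mean_self, h0]) (X_nonneg _ _ _)
    simp [h0, this]
  | succ b h ih =>
    rw [sum_Ioc_succ _ h, sum_Ioc_succ _ h, add_sub_cancel_right]
    have h3 := le_max_left (g (b + 1) - g b) 0
    have h4 := le_max_right (g (b + 1) - g b) 0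
    refine ⟨by linarith [ih.1], ?_⟩
    have h1 : g b ^ q ≤ X g y b ^ q :=
      Real.rpow_le_rpow (hg b) ((mean_self g b).ge.trans (mean_le_X g h le_rfl)) (by linarith)
    have h5 := conv_inc hq (hg b) ih.1 h4 le_rfl
    have h6 : g (b + 1) ^ q ≤ (g b + max (g (b + 1) - g b) 0) ^ q :=
      Real.rpow_le_rpow (hg _) (by linarith) (by linarith)
    have h7 : g b ^ q ≤ (g b + max (g (b + 1) - g b) 0) ^ q :=
      Real.rpow_le_rpow (hg _) (by linarith) (by linarith)
    rcases le_total (X g y b ^ q - X g y (b + 1) ^ q) 0 with h8 | h8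
    · rw [max_eq_right h8]
      rcases le_max_iff.1 (X_succ g y b) with h9 | h9 <;>
        linarith [Real.rpow_le_rpow (X_nonneg _ _ _) h9 (show 0 ≤ q by linarith), ih.2]
    · rw [max_eq_left h8]; linarith [ih.2]

theorem step (h0 : 0 < ε) (h1 : ε < 1) (hq : ε * q = 1) (hg : ∀ x, 0 ≤ g x)
    (hm1 : ∀ a b, a ≤ n + 1 → n + 1 ≤ b → Gu ε g a b ≤ m (n + 1)) (h2 : lo ≤ a) (h3 : a ≤ n)
    (hD : m (n + 1) < Gu ε g a n) :
    (Gu ε g a n - m (n + 1)) ^ q ≤ ε ^ q / q * (X g lo n ^ q - X g lo (n + 1) ^ q) := by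
  have hq1 := one_lt h0 h1 hq
  have hq0 : 0 < q := by linarith
  have hl := ln_pos h3
  obtain ⟨c, c1, c2, c3⟩ := X_ex hg (show lo ≤ n + 1 by omega)
  have e0 : ((n + 1 : ℤ) : ℝ) - a + 1 = n - a + 1 + 1 := by push_cast; ring
  have a1 := mean_le_X g h2 (show a ≤ n + 1 by omega)
  rw [mean, T_succ g (by omega), e0] at a1
  rcases lt_or_ge c a with h | h
  · have a2 := (div_le_iff₀ (by linarith)).1 a1
    have hc := ln_pos c2
    have a3 : X g lo (n + 1) * (n - a + 1 + 1) / (n - a + 1 + 1 : ℝ) ^ ε ≤ m (n + 1) := by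
      refine le_trans ?_ (hm1 c (n + 1) c2 le_rfl)
      have e1 : T g c (n + 1) = X g lo (n + 1) * (((n + 1 : ℤ) : ℝ) - c + 1) := by
        rw [c3, mean, div_mul_cancel₀ _ hc.ne']
      have e2 : ∀ t : ℝ, 0 < t → t / t ^ ε = t ^ (1 - ε) := fun t ht => by
        rw [Real.rpow_sub ht, Real.rpow_one]
      have e3 : (c : ℝ) ≤ a := by exact_mod_cast h.le
      rw [Gu, e1, mul_div_assoc, mul_div_assoc, e2 _ hc, e2 _ (by linarith)]
      exact mul_le_mul_of_nonneg_left (Real.rpow_le_rpow (by linarith) (by push_cast; linarith)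
        (by linarith)) (X_nonneg _ _ _)
    obtain ⟨-, a4⟩ := one_step h0 h1 hq (T_nonneg hg a n)
      (s := X g lo (n + 1) * (n - a + 1 + 1) - T g a n) (by linarith [hg (n + 1)]) hl
      (sub_pos.2 hD) (by rw [add_sub_cancel]; exact sub_le_sub_left a3 _)
    rw [add_sub_cancel, mul_div_cancel_right₀ _ (by linarith)] at a4
    refine a4.trans (mul_le_mul_of_nonneg_left (sub_le_sub_right (Real.rpow_le_rpow
      (div_nonneg (T_nonneg hg _ _) hl.le) (mean_le_X g h2 h3) hq0.le) _) (by positivity))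
  · have a2 := hm1 a (n + 1) (by omega) le_rfl
    rw [Gu, T_succ g (by omega), e0] at a2
    obtain ⟨a3, a4⟩ := one_step h0 h1 hq (T_nonneg hg a n) (hg (n + 1)) hl (sub_pos.2 hD)
      (sub_le_sub_left a2 _)
    refine a4.trans (mul_le_mul_of_nonneg_left ?_ (by positivity))
    have a5 : g (n + 1) < (T g a n + g (n + 1)) / (n - a + 1 + 1) := by
      rw [lt_div_iff₀ (by linarith)]; linarith
    have c4 : c ≤ n := by
      by_contra hc
      rw [show c = n + 1 by omega, mean_self] at c3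
      linarith
    have hc := ln_pos c4
    have a6 := mean_le_X g c1 c4
    have e1 : mean g c n = X g lo (n + 1) + (X g lo (n + 1) - g (n + 1)) / (n - c + 1) := by
      rw [c3, mean, mean, T_succ g c2]; push_cast
      have : (n : ℝ) + 1 - c + 1 ≠ 0 := by linarith
      field_simp; ring
    have e2 : T g a n / (n - a + 1) = (T g a n + g (n + 1)) / (n - a + 1 + 1) +
        ((T g a n + g (n + 1)) / (n - a + 1 + 1) - g (n + 1)) / (n - a + 1) := by
      have : (n : ℝ) - a + 1 + 1 ≠ 0 := by linarith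
      field_simp; ring
    have a7 := conv_inc hq1.le ((hg _).trans a5.le) a1 (div_nonneg (sub_pos.2 a5).le hl.le)
      (div_le_div₀ (c := X g lo (n + 1) - g (n + 1)) (by linarith) (by linarith) hc
        (by have : (a : ℝ) ≤ c := by exact_mod_cast h
            linarith))
    rw [← e1, ← e2] at a7
    refine a7.trans (sub_le_sub_right (Real.rpow_le_rpow ?_ a6 hq0.le) _)
    exact div_nonneg (T_nonneg hg _ _) hc.le

theorem falls (h0 : 0 < ε) (h1 : ε < 1) (hq : ε * q = 1) (hg : ∀ x, 0 ≤ g x)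
    (hV : ∀ E : Finset ℤ, ∑ e ∈ E, |g (e + 1) - g e| ≤ V)
    (hm1 : ∀ n a b, a ≤ n → n ≤ b → Gu ε g a b ≤ m n)
    (hm2 : ∀ n C, (∀ a b, a ≤ n → n ≤ b → Gu ε g a b ≤ C) → m n ≤ C) {K : ℤ} (hK : 0 ≤ K)
    (hz : ∀ t, t ≤ -K ∨ K ≤ t → g t = 0) :
    ∑ t ∈ Ioc (-K) K, max (m (t - 1) - m t) 0 ^ q ≤ ε ^ q / q * (V / 2) ^ q := by
  have hq1 := one_lt h0 h1 hq
  have hq0 : 0 < q := by linarith
  have a1 := (drops hq1.le hg (hz (-K) (by omega)) (show -K ≤ K by omega)).2
  have a2 := rises g (show -K ≤ K by omega)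
  have a3 := hV ((Ioc (-K) K).image fun x => x - 1)
  rw [sum_image fun _ _ _ _ h => by simpa using h] at a3
  simp only [sub_add_cancel] at a3
  rw [hz K (by omega), hz (-K) (by omega)] at a2
  have a4 := Real.rpow_le_rpow (sum_nonneg fun t _ => le_max_right _ _)
    (show ∑ t ∈ Ioc (-K) K, max (g t - g (t - 1)) 0 ≤ V / 2 by linarith) hq0.le
  refine le_trans ?_ (mul_le_mul_of_nonneg_left (le_trans (le_add_of_nonneg_right
    (Real.rpow_nonneg (X_nonneg _ _ _) q)) (a1.trans a4)) (by positivity))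
  rw [mul_sum]
  refine sum_le_sum fun t ht => ?_
  obtain ⟨n, rfl⟩ : ∃ n, t = n + 1 := ⟨t - 1, by ring⟩
  rw [mem_Ioc] at ht
  rw [add_sub_cancel_right]
  set B := ε ^ q / q * max (X g (-K) n ^ q - X g (-K) (n + 1) ^ q) 0 with hB
  have B0 : 0 ≤ B := by positivity
  have B1 := Real.rpow_nonneg B0 q⁻¹
  have key : ∀ a, -K ≤ a → a ≤ n → Gu ε g a n ≤ m (n + 1) + B ^ q⁻¹ := fun a h2 h3 => by
    rcases le_or_gt (Gu ε g a n) (m (n + 1)) with h | h
    · linarith
    · rw [← sub_le_iff_le_add', Real.le_rpow_inv_iff_of_pos (by linarith) B0 hq0]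
      exact (step h0 h1 hq hg (hm1 _) h2 h3 h).trans
        (mul_le_mul_of_nonneg_left (le_max_left _ _) (by positivity))
  rw [← Real.le_rpow_inv_iff_of_pos (le_max_right _ _) B0 hq0]
  refine max_le (sub_le_iff_le_add'.2 (hm2 n _ fun a b h2 h3 => ?_)) B1
  rcases h3.eq_or_lt with h | h
  · subst h
    rcases le_or_gt (-K) a with h4 | h4
    · exact key a h4 h2
    · refine le_trans ?_ (key (-K) le_rfl (by omega))
      have e : T g a n = T g (-K) n := (sum_subset (Icc_subset_Icc_left h4.le) fun t h5 h6 =>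
        hz t (by rw [mem_Icc] at h5 h6; omega)).symm
      have hl := ln_pos (show -K ≤ n by omega)
      rw [Gu, Gu, e]
      refine div_le_div_of_nonneg_left (T_nonneg hg _ _) (by positivity)
        (Real.rpow_le_rpow hl.le ?_ h0.le)
      have : (a : ℝ) ≤ (-K : ℤ) := by exact_mod_cast h4.le
      linarith
  · linarith [hm1 (n + 1) a b (by omega) (by omega)]

theorem Gu_neg (ε : ℝ) (g : ℤ → ℝ) (a b : ℤ) : Gu ε (fun t => g (-t)) a b = Gu ε g (-b) (-a) := by
  rw [Gu, Gu]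
  congr 1
  · refine sum_nbij' (fun t => -t) (fun t => -t) ?_ ?_ ?_ ?_ ?_ <;>
      intro t ht <;> simp only [mem_Icc, neg_neg] at ht ⊢ <;> omega
  · congr 1; push_cast; ring

theorem finite_supp (h0 : 0 < ε) (h1 : ε < 1) (hq : ε * q = 1) (hg : ∀ x, 0 ≤ g x)
    (hV : ∀ E : Finset ℤ, ∑ e ∈ E, |g (e + 1) - g e| ≤ V)
    (hm1 : ∀ n a b, a ≤ n → n ≤ b → Gu ε g a b ≤ m n)
    (hm2 : ∀ n C, (∀ a b, a ≤ n → n ≤ b → Gu ε g a b ≤ C) → m n ≤ C) {K : ℤ} (hK : 0 ≤ K)
    (hz : ∀ t, t ≤ -K ∨ K ≤ t → g t = 0) {F : Finset ℤ} (hF : ∀ d ∈ F, -K ≤ d ∧ d < K) :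
    ∑ d ∈ F, |m (d + 1) - m d| ^ q ≤ 2 * (ε ^ q / q) * (V / 2) ^ q := by
  have hq1 := one_lt h0 h1 hq
  have a1 := falls h0 h1 hq hg hV hm1 hm2 hK hz
  have a2 := falls (g := fun t => g (-t)) (m := fun t => m (-t)) (V := V) h0 h1 hq (fun _ => hg _)
    (fun E => by
      have := hV (E.image fun e => -(e + 1))
      rw [sum_image fun _ _ _ _ h => by simpa using h] at this
      refine le_of_eq_of_le (sum_congr rfl fun e _ => ?_) this
      rw [abs_sub_comm, show -(e + 1) + 1 = -e by ring])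
    (fun n a b h2 h3 => by rw [Gu_neg]; exact hm1 _ _ _ (by omega) (by omega))
    (fun n C h => hm2 _ C fun a b h2 h3 => by
      have := h (-b) (-a) (by omega) (by omega)
      rwa [Gu_neg, neg_neg, neg_neg] at this) hK fun t ht => hz _ (by omega)
  rw [sum_flip] at a2
  have a3 := sum_inj (s := F) (t := Ioc (-K) K) (fun d => d + 1) (fun _ _ _ _ h => by simpa using h)
    (fun d hd => by have := hF d hd; rw [mem_Ioc]; omega)
    (F := fun t => |m t - m (t - 1)| ^ q) fun _ => by positivity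
  simp only [add_sub_cancel_right] at a3
  refine a3.trans (le_trans (le_of_eq ?_) ((add_le_add a1 a2).trans_eq (by ring)))
  rw [← sum_add_distrib]
  refine sum_congr rfl fun t _ => ?_
  rw [show -(1 - t - 1) = t by ring, show -(1 - t) = t - 1 by ring]
  rcases le_total (m t) (m (t - 1)) with h | h
  · rw [max_eq_left (by linarith), max_eq_right (by linarith), Real.zero_rpow (by linarith),
      add_zero, abs_sub_comm, abs_of_nonneg (by linarith)]
  · rw [max_eq_right (by linarith), max_eq_left (by linarith), Real.zero_rpow (by linarith),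
      zero_add, abs_of_nonneg (by linarith)]

theorem low_two (h0 : 0 < ε) (h1 : ε < 1) (hg : ∀ x, 0 ≤ g x) {B : ℝ} (hm : ∀ r, A ε g 0 r ≤ B)
    {η : ℝ} (hη : 0 < η) (k : ℕ) : ∃ ρ : ℕ, k ≤ ρ ∧ g (-ρ) + g ρ < η := by
  by_contra hc
  push Not at hc
  have a1 : ∀ r : ℕ, r * η ≤ S g 0 (k + r) := by
    intro r
    induction r with
    | zero => simpa using S_nonneg hg 0 k
    | succ r ih =>
      have := hc (k + r + 1) (by omega)
      rw [← add_assoc, S_succ, zero_sub, zero_add]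
      push_cast at this ⊢
      linarith
  have B0 : 0 ≤ B := (A_nonneg hg 0 0).trans (hm 0)
  obtain ⟨r, h2, h3⟩ := ((((tendsto_rpow_atTop (sub_pos.2 h1)).comp
    tendsto_natCast_atTop_atTop).eventually_gt_atTop (4 * B / η)).and
    (eventually_ge_atTop (k + 1))).exists
  have h4 : (k : ℝ) + 1 ≤ r := by exact_mod_cast h3
  have hk : (0 : ℝ) ≤ k := by positivity
  have hr : (0 : ℝ) < r := by linarith
  have a2 := (div_le_iff₀ (Real.rpow_pos_of_pos (len_pos (k + r)) ε)).1 (hm (k + r))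
  have a3 : len (k + r) ^ ε ≤ 4 * r ^ ε := by
    refine (Real.rpow_le_rpow (len_pos _).le (show len (k + r) ≤ 4 * r by
      rw [len]; push_cast; linarith) h0.le).trans ?_
    rw [Real.mul_rpow (by norm_num) hr.le]
    exact mul_le_mul_of_nonneg_right (Real.rpow_le_self_of_one_le (by norm_num) h1.le)
      (by positivity)
  rw [Function.comp, Real.rpow_sub hr, Real.rpow_one, div_lt_div_iff₀ hη (by positivity)] at h2
  nlinarith [a1 r, mul_le_mul_of_nonneg_left a3 B0]

theorem all_supp (h0 : 0 < ε) (h1 : ε < 1) (hq : ε * q = 1) (hg : ∀ x, 0 ≤ g x)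
    (hV : ∀ E : Finset ℤ, ∑ e ∈ E, |g (e + 1) - g e| ≤ V)
    (hm1 : ∀ n a b, a ≤ n → n ≤ b → Gu ε g a b ≤ m n)
    (hm2 : ∀ n C, (∀ a b, a ≤ n → n ≤ b → Gu ε g a b ≤ C) → m n ≤ C) (F : Finset ℤ) :
    ∑ d ∈ F, |m (d + 1) - m d| ^ q ≤ 2 * (ε ^ q / q) * (V / 2) ^ q := by
  have hq0 : 0 ≤ q := by linarith [one_lt h0 h1 hq]
  have hB : ∀ r, A ε g 0 r ≤ m 0 := fun r => by
    have := hm1 0 (0 - r) (0 + r) (by omega) (by omega)
    rwa [Gu, show ((0 + r : ℤ) : ℝ) - ((0 - r : ℤ) : ℝ) + 1 = len r by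
      unfold len; push_cast; ring] at this
  choose ρ hρ hlow using fun k : ℕ => low_two h0 h1 hg hB (Nat.one_div_pos_of_nat (n := k)) k
  set G : ℕ → ℤ → ℝ := fun k x => if -(ρ k : ℤ) ≤ x ∧ x ≤ ρ k then g x else 0 with hG
  have g1 : ∀ k x, 0 ≤ G k x := fun k x => by simp only [hG]; split_ifs; exacts [hg x, le_rfl]
  have g2 : ∀ k x, G k x ≤ g x := fun k x => by simp only [hG]; split_ifs; exacts [le_rfl, hg x]
  set M : ℕ → ℤ → ℝ := fun k n => sSup {x | ∃ a b, a ≤ n ∧ n ≤ b ∧ x = Gu ε (G k) a b} with hM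
  have g3 : ∀ k n a b, a ≤ n → n ≤ b → Gu ε (G k) a b ≤ m n := fun k n a b h2 h3 =>
    le_trans (div_le_div_of_nonneg_right (sum_le_sum fun x _ => g2 k x)
      (Real.rpow_nonneg (ln_pos (h2.trans h3)).le _)) (hm1 n a b h2 h3)
  have g4 : ∀ k n a b, a ≤ n → n ≤ b → Gu ε (G k) a b ≤ M k n := fun k n a b h2 h3 =>
    le_csSup ⟨m n, by rintro _ ⟨a, b, h4, h5, rfl⟩; exact g3 k n a b h4 h5⟩ ⟨a, b, h2, h3, rfl⟩
  have g5 : ∀ k n C, (∀ a b, a ≤ n → n ≤ b → Gu ε (G k) a b ≤ C) → M k n ≤ C := fun k n C h =>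
    csSup_le ⟨_, n, n, le_rfl, le_rfl, rfl⟩ (by rintro _ ⟨a, b, h4, h5, rfl⟩; exact h a b h4 h5)
  have t1 : ∀ c, Tendsto (fun k => M k c) atTop (𝓝 (m c)) := by
    intro c
    refine tendsto_order.2 ⟨fun y hy => ?_, fun y hy => .of_forall fun k =>
      (g5 k c _ (g3 k c)).trans_lt hy⟩
    obtain ⟨a, b, h2, h3, hr⟩ : ∃ a b, a ≤ c ∧ c ≤ b ∧ y < Gu ε g a b := by
      by_contra hc
      push Not at hc
      exact hy.not_ge (hm2 c y hc)
    refine (eventually_ge_atTop (a.natAbs + b.natAbs)).mono fun k hk =>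
      hr.trans_le (le_trans ?_ (g4 k c a b h2 h3))
    refine le_of_eq (congrArg (· / _) (sum_congr rfl fun x hx => ?_))
    have := hρ k
    rw [mem_Icc] at hx
    exact (if_pos (by omega)).symm
  have t2 := ((((tendsto_one_div_add_atTop_nhds_zero_nat (𝕜 := ℝ)).const_add V).div_const
    2).rpow_const (Or.inr hq0)).const_mul (2 * (ε ^ q / q))
  rw [add_zero] at t2
  refine le_of_tendsto_of_tendsto (tendsto_finsetSum _ fun d _ =>
    ((t1 _).sub (t1 _)).abs.rpow_const (Or.inr hq0)) t2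
    ((eventually_ge_atTop (F.sup Int.natAbs)).mono fun k hk => ?_)
  refine finite_supp (K := ρ k + 1) h0 h1 hq (g1 k) (fun E => ?_) (g4 k) (g5 k) (by omega)
    (fun d hd => if_neg (by omega)) fun d hd => ?_
  · refine (sum_le_sum (g := fun e => |g (e + 1) - g e| + ((if e = -(ρ k : ℤ) - 1 then
      g (-(ρ k : ℤ)) else 0) + if e = ρ k then g (ρ k) else 0)) fun e _ => ?_).trans ?_
    · have a1 := abs_nonneg (g (e + 1) - g e)
      simp only [hG]
      by_cases c1 : e = -(ρ k : ℤ) - 1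
      · rw [if_pos (by omega), if_neg (by omega), if_pos c1, if_neg (by omega), sub_zero,
          abs_of_nonneg (hg _), show e + 1 = -(ρ k : ℤ) by omega] at *
        linarith
      · by_cases c2 : e = ρ k
        · rw [if_neg (by omega), if_pos (by omega), if_neg c1, if_pos c2, zero_sub, abs_neg,
            abs_of_nonneg (hg _), ← c2]
          linarith
        · rw [if_neg c1, if_neg c2, add_zero, add_zero]
          split_ifs <;> first | omega | simp
    · rw [sum_add_distrib, sum_add_distrib, sum_ite_eq', sum_ite_eq']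
      have := hg (-(ρ k : ℤ))
      have := hg (ρ k)
      split_ifs <;> linarith [hV E, hlow k]
  · have := le_sup (f := Int.natAbs) hd
    have := hρ k
    omega

end Pool.Agent.P.MP_f9323a_an.Unc
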