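import Pool.Agent.P.MP_f9323a_an.UncA

/-! The best constant for the uncentered operator. -/

namespace Pool.Agent.P.MP_f9323a_an.Unc

open Finset Filter Topology Exc

variable {β q : ℝ}

theorem Gu_eq (ε : ℝ) (f : ℤ → ℝ) (n : ℤ) (r s : ℕ) :
    (∑ k ∈ Icc (-(r : ℤ)) (s : ℤ), |f (n + k)|) / ((r : ℝ) + (s : ℝ) + 1) ^ ε =
      Gu ε (fun x => |f x|) (n - r) (n + s) := by
  rw [Gu, T, show Icc (n - r) (n + s) = (Icc (-(r : ℤ)) s).map (addLeftEmbedding n) by
    rw [map_add_left_Icc]; congr 1, sum_map]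
  congr 2
  push_cast; ring

theorem le_maxU (β : ℝ) (f : ℤ → ℝ) {n a b : ℤ} (h1 : a ≤ n) (h2 : n ≤ b) :
    ENNReal.ofReal (Gu (1 - β) (fun x => |f x|) a b) ≤ maxFnU β f n := by
  obtain ⟨r, rfl⟩ : ∃ r : ℕ, a = n - r := ⟨(n - a).toNat, by omega⟩
  obtain ⟨s, rfl⟩ : ∃ s : ℕ, b = n + s := ⟨(b - n).toNat, by omega⟩
  rw [← Gu_eq]
  exact le_iSup₂_of_le r s le_rfl

theorem maxU_le {f : ℤ → ℝ} {n : ℤ} {C : ℝ}
    (h : ∀ a b, a ≤ n → n ≤ b → Gu (1 - β) (fun x => |f x|) a b ≤ C) :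
    maxFnU β f n ≤ ENNReal.ofReal C :=
  iSup₂_le fun r s => ENNReal.ofReal_le_ofReal (by
    rw [Gu_eq]; exact h _ _ (by omega) (by omega))

theorem const_eq (hβ1 : β < 1) (hq : q = 1 / (1 - β)) {V : ℝ} (hV : 0 ≤ V) :
    2 * ((1 - β) ^ q / q) * (V / 2) ^ q = (2 ^ (-β) * (1 - β) ^ (2 - β) * V) ^ q := by
  have h0 : 0 < 1 - β := by linarith
  have h1 : (1 - β) * q = 1 := by rw [hq]; field_simp
  have h2 : q⁻¹ = 1 - β := by rw [hq]; simp
  rw [Real.mul_rpow (by positivity) hV, Real.mul_rpow (by positivity) (by positivity),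
    ← Real.rpow_mul (by norm_num), ← Real.rpow_mul h0.le, show -β * q = 1 - q by linarith,
    show (2 - β) * q = q + 1 by linarith, Real.rpow_add_one h0.ne', Real.rpow_sub (by norm_num),
    Real.rpow_one, Real.div_rpow hV (by norm_num), div_eq_mul_inv _ q, h2]
  ring

theorem upper (hβ0 : 0 < β) (hβ1 : β < 1) (hq : q = 1 / (1 - β)) (f : ℤ → ℝ)
    (hf : Summable fun n => |f (n + 1) - f n|) (h0 : ∃ n, maxFnU β f n ≠ ⊤) :
    (∀ n, maxFnU β f n ≠ ⊤) ∧
      Summable (fun n => |(maxFnU β f (n + 1)).toReal - (maxFnU β f n).toReal| ^ q) ∧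
      (∑' n, |(maxFnU β f (n + 1)).toReal - (maxFnU β f n).toReal| ^ q) ^ (1 / q) ≤
        2 ^ (-β) * (1 - β) ^ (2 - β) * ∑' n, |f (n + 1) - f n| := by
  obtain ⟨n0, hn0⟩ := h0
  have hα0 : 0 < 1 - β := by linarith
  have hq0 : 0 < q := by rw [hq]; positivity
  have hg : ∀ x, 0 ≤ |f x| := fun x => abs_nonneg _
  have hle : ∀ c, maxFnU β f c ≠ ⊤ → ∀ a b, a ≤ c → c ≤ b →
      Gu (1 - β) (fun x => |f x|) a b ≤ (maxFnU β f c).toReal := fun c hc a b h1 h2 => by
    rw [← ENNReal.ofReal_le_iff_le_toReal hc]; exact le_maxU β f h1 h2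
  have hfin : ∀ c, maxFnU β f c ≠ ⊤ := fun c => by
    refine ne_top_of_le_ne_top ENNReal.ofReal_ne_top (maxU_le
      (C := (1 + ((c - n0).natAbs : ℝ)) * (maxFnU β f n0).toReal) fun a b h1 h2 => ?_)
    refine le_trans ?_ (mul_le_mul_of_nonneg_left (hle n0 hn0 (min a n0) (max b n0)
      (min_le_right _ _) (le_max_right _ _)) (by positivity))
    have l1 := ln_one (h1.trans h2)
    have l2 := ln_pos (show min a n0 ≤ max b n0 by omega)
    have l3 : ((max b n0 : ℤ) : ℝ) - (min a n0 : ℤ) + 1 ≤ b - a + 1 + (c - n0).natAbs := by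
      generalize hk : (c - n0).natAbs = k
      exact_mod_cast (by omega : max b n0 - min a n0 + 1 ≤ b - a + 1 + k)
    have d0 : (0 : ℝ) ≤ (c - n0).natAbs := by positivity
    have l4 : (((max b n0 : ℤ) : ℝ) - (min a n0 : ℤ) + 1) ^ (1 - β) ≤
        (1 + ((c - n0).natAbs : ℝ)) * (b - a + 1) ^ (1 - β) := by
      refine (Real.rpow_le_rpow l2.le (show _ ≤ (1 + ((c - n0).natAbs : ℝ)) * (b - a + 1) by
        nlinarith) hα0.le).trans ?_
      rw [Real.mul_rpow (by positivity) (by linarith)]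
      exact mul_le_mul_of_nonneg_right (Real.rpow_le_self_of_one_le (by linarith) (by linarith))
        (Real.rpow_nonneg (by linarith) _)
    have l5 : T (fun x => |f x|) a b ≤ T (fun x => |f x|) (min a n0) (max b n0) :=
      sum_le_sum_of_subset_of_nonneg (Icc_subset_Icc (min_le_left _ _) (le_max_left _ _))
        fun _ _ _ => hg _
    rw [Gu, Gu, ← mul_div_assoc, div_le_div_iff₀ (Real.rpow_pos_of_pos (by linarith) _)
      (Real.rpow_pos_of_pos l2 _)]
    exact (mul_le_mul l5 l4 (Real.rpow_nonneg l2.le _) (T_nonneg hg _ _)).trans_eq (by ring)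
  have hV0 : 0 ≤ ∑' n, |f (n + 1) - f n| := tsum_nonneg fun _ => abs_nonneg _
  have h1 := all_supp (m := fun c => (maxFnU β f c).toReal) (q := q)
    (V := ∑' n, |f (n + 1) - f n|) hα0 (by linarith) (by rw [hq]; field_simp) hg
    (fun E => (sum_le_sum fun e _ => abs_abs_sub_abs_le_abs_sub _ _).trans
      (hf.sum_le_tsum E fun _ _ => abs_nonneg _)) (fun c => hle c (hfin c))
    fun c C h => ENNReal.toReal_le_of_le_ofReal (le_trans (div_nonneg (T_nonneg hg _ _)
      (Real.rpow_nonneg (ln_pos le_rfl).le _)) (h c c le_rfl le_rfl)) (maxU_le h)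
  refine ⟨hfin, summable_of_sum_le (fun n => by positivity) h1, ?_⟩
  refine (Real.rpow_le_rpow (tsum_nonneg fun n => by positivity)
    (Real.tsum_le_of_sum_le (fun n => by positivity) h1) (by positivity)).trans_eq ?_
  rw [const_eq hβ1 hq hV0, ← Real.rpow_mul (by positivity), mul_one_div_cancel hq0.ne',
    Real.rpow_one]

theorem ind_T (L : ℕ) (a b : ℤ) :
    T (ind L) a b = ((min b L + 1 - max a (-(L : ℤ))).toNat : ℝ) := by
  unfold T ind
  rw [sum_boole, ← Int.card_Icc]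
  congr 2
  ext x
  simp only [mem_filter, mem_Icc]
  omega

theorem ind_maxU (hβ0 : 0 < β) (hβ1 : β < 1) (L j : ℕ) {n : ℤ} (hn : n.natAbs = L + j) :
    maxFnU β (ind L) n = ENNReal.ofReal (len L / (len L + j) ^ (1 - β)) := by
  have hN := len_pos L
  have hj : (0 : ℝ) ≤ j := by positivity
  refine le_antisymm (maxU_le fun a b h1 h2 => ?_) (le_trans (le_of_eq ?_)
    (le_maxU β (ind L) (min_le_left n (-(L : ℤ))) (le_max_left n L)))
  · rw [ind_abs, Gu, ind_T]
    set c := (min b L + 1 - max a (-(L : ℤ))).toNat with hc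
    rcases Nat.eq_zero_or_pos c with c0 | c0
    · rw [c0, Nat.cast_zero, zero_div]; positivity
    have c1 : (0 : ℝ) < c := by exact_mod_cast c0
    have c2 : (c : ℝ) ≤ len L := by unfold len; exact_mod_cast (by omega : c ≤ 2 * L + 1)
    have c3 : (c : ℝ) + j ≤ b - a + 1 := by exact_mod_cast (by omega : (c : ℤ) + j ≤ b - a + 1)
    have c4 : 1 ≤ len L / c := (one_le_div c1).2 c2
    have c5 : (len L + j) ^ (1 - β) ≤ len L / c * (b - a + 1) ^ (1 - β) := by
      refine (Real.rpow_le_rpow (by positivity) (show _ ≤ len L / c * (b - a + 1) from ?_)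
        (by linarith)).trans ?_
      · refine le_trans ?_ (mul_le_mul_of_nonneg_left c3 (by positivity))
        rw [mul_add, div_mul_cancel₀ _ c1.ne']
        nlinarith
      · rw [Real.mul_rpow (by positivity) (by linarith)]
        exact mul_le_mul_of_nonneg_right (Real.rpow_le_self_of_one_le c4 (by linarith))
          (Real.rpow_nonneg (by linarith) _)
    rw [div_le_div_iff₀ (Real.rpow_pos_of_pos (by linarith) _) (by positivity)]
    exact (mul_le_mul_of_nonneg_left c5 c1.le).trans_eq (by field_simp)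
  · rw [ind_abs, Gu, ind_T, show (min (max n L) L + 1 - max (min n (-(L : ℤ))) (-(L : ℤ))).toNat =
      2 * L + 1 by omega]
    have : ((max n L : ℤ) : ℝ) - (min n (-(L : ℤ)) : ℤ) + 1 = len L + j := by
      unfold len
      exact_mod_cast (by omega : max n L - min n (-(L : ℤ)) + 1 = 2 * L + 1 + j)
    rw [this, len]; push_cast; rfl

theorem tail_step {α N y : ℝ} (h0 : 0 < α) (hq : α * q = 1) (hN : 0 < N) (hy : 0 < y) :
    α ^ q / q * ((N / (y + 1)) ^ q - (N / (y + 1 + 1)) ^ q) ≤ |N / y ^ α - N / (y + 1) ^ α| ^ q := by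
  have hq0 : 0 < q := (mul_pos_iff_of_pos_left h0).1 (by linarith)
  have y1 : 0 < y + 1 := by linarith
  have a1 : N * (α * (y + 1) ^ (-(1 + α))) ≤ |N / y ^ α - N / (y + 1) ^ α| := by
    refine (mul_le_mul_of_nonneg_left (pow_step h0 hy) hN.le).trans (le_trans (le_of_eq ?_)
      (le_abs_self _))
    rw [Real.rpow_neg hy.le, Real.rpow_neg y1.le]; ring
  refine le_trans ?_ (Real.rpow_le_rpow (by positivity) a1 hq0.le)
  rw [Real.mul_rpow hN.le (by positivity), Real.mul_rpow h0.le (by positivity),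
    ← Real.rpow_mul y1.le, show -(1 + α) * q = -(1 + q) by linarith, Real.div_rpow hN.le y1.le,
    Real.div_rpow hN.le (by linarith), div_eq_mul_inv (N ^ q), div_eq_mul_inv (N ^ q),
    ← Real.rpow_neg y1.le, ← Real.rpow_neg (by linarith), ← mul_sub]
  calc _ ≤ α ^ q / q * (N ^ q * (q * (y + 1) ^ (-(1 + q)))) := by
        gcongr; exact pow_step_rev hq0 y1
    _ = _ := by field_simp

theorem lower {C : ℝ} (hβ0 : 0 < β) (hβ1 : β < 1) (hq : q = 1 / (1 - β))
    (H : ∀ f : ℤ → ℝ, Summable (fun n => |f (n + 1) - f n|) → (∃ n, maxFnU β f n ≠ ⊤) →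
      Summable (fun n => |(maxFnU β f (n + 1)).toReal - (maxFnU β f n).toReal| ^ q) ∧
      (∑' n, |(maxFnU β f (n + 1)).toReal - (maxFnU β f n).toReal| ^ q) ^ (1 / q) ≤
        C * ∑' n, |f (n + 1) - f n|) : 2 ^ (-β) * (1 - β) ^ (2 - β) ≤ C := by
  have hα0 : 0 < 1 - β := by linarith
  have hαq : (1 - β) * q = 1 := by rw [hq]; field_simp
  have hq0 : 0 < q := by rw [hq]; positivity
  have key : ∀ L k : ℕ, 0 ≤ C * 2 ∧ 2 * ((1 - β) ^ q / q) * ((len L / (len L + 1)) ^ q -
      (len L / (len L + k + 1)) ^ q) ≤ (C * 2) ^ q := by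
    intro L k
    have hN := len_pos L
    obtain ⟨hs, hb⟩ := H (ind L) (summable_of_ne_finset_zero (ind_zero L))
      ⟨L, by rw [ind_maxU hβ0 hβ1 L 0 (by simp)]; exact ENNReal.ofReal_ne_top⟩
    rw [ind_var] at hb
    set t : ℤ → ℝ := fun n =>
      |(maxFnU β (ind L) (n + 1)).toReal - (maxFnU β (ind L) n).toReal| ^ q with ht
    have t0 : ∀ n, 0 ≤ t n := fun n => by positivity
    have T0 : 0 ≤ ∑' n, t n := tsum_nonneg t0
    refine ⟨le_trans (by positivity) hb, ?_⟩
    have b1 : ∑' n, t n ≤ (C * 2) ^ q := by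
      have := Real.rpow_le_rpow (by positivity) hb hq0.le
      rwa [← Real.rpow_mul T0, one_div_mul_cancel hq0.ne', Real.rpow_one] at this
    have hm : ∀ (j : ℕ) (n : ℤ), n.natAbs = L + j →
        (maxFnU β (ind L) n).toReal = len L / (len L + j) ^ (1 - β) := fun j n hn => by
      rw [ind_maxU hβ0 hβ1 L j hn, ENNReal.toReal_ofReal (by positivity)]
    set d : ℕ → ℝ := fun j => (len L / (len L + j + 1)) ^ q with hd
    have s0 : ∀ j : ℕ, (1 - β) ^ q / q * (d j - d (j + 1)) ≤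
        |len L / (len L + j) ^ (1 - β) - len L / (len L + (j + 1 : ℕ)) ^ (1 - β)| ^ q := fun j => by
      simp only [hd, Nat.cast_add, Nat.cast_one, ← add_assoc]
      exact tail_step hα0 hαq hN (by positivity)
    have s1 : ∀ j ∈ range k, (1 - β) ^ q / q * (d j - d (j + 1)) ≤ t (L + j) := fun j _ => by
      simp only [ht]
      rw [hm j (L + j) (by omega), hm (j + 1) (L + j + 1) (by omega), abs_sub_comm]
      exact s0 j
    have s2 : ∀ j ∈ range k, (1 - β) ^ q / q * (d j - d (j + 1)) ≤ t (-L - j - 1) := fun j _ => by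
      simp only [ht]
      rw [hm j (-L - j - 1 + 1) (by omega), hm (j + 1) (-L - j - 1) (by omega)]
      exact s0 j
    have s3 : ∑ j ∈ range k, t (L + j) + ∑ j ∈ range k, t (-L - j - 1) ≤ ∑' n, t n := by
      have i1 : Set.InjOn (fun j : ℕ => (L : ℤ) + j) (range k : Set ℕ) := fun a _ b _ h => by
        simpa using h
      have i2 : Set.InjOn (fun j : ℕ => -(L : ℤ) - j - 1) (range k : Set ℕ) := fun a _ b _ h => by
        simpa using h
      rw [← sum_image (f := t) i1, ← sum_image (f := t) i2, ← sum_union]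
      · exact hs.sum_le_tsum _ fun n _ => t0 n
      · rw [disjoint_left]
        intro z
        simp only [mem_image]
        rintro ⟨a, -, rfl⟩ ⟨b, -, hb⟩
        omega
    have s5 := sum_le_sum s1
    have s6 := sum_le_sum s2
    rw [← mul_sum, sum_range_sub'] at s5 s6
    simp only [hd, Nat.cast_zero, add_zero] at s5 s6
    linarith
  have k1 : ∀ L : ℕ, 2 * ((1 - β) ^ q / q) * (len L / (len L + 1)) ^ q ≤ (C * 2) ^ q := by
    intro L
    have l1 : Tendsto (fun k : ℕ => len L / (len L + k + 1)) atTop (𝓝 0) :=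
      tendsto_const_nhds.div_atTop (tendsto_atTop_add_const_right _ _
        (tendsto_atTop_add_const_left _ _ tendsto_natCast_atTop_atTop))
    have l2 := l1.rpow_const (p := q) (Or.inr hq0.le)
    rw [Real.zero_rpow hq0.ne'] at l2
    have l3 := (l2.const_sub ((len L / (len L + 1)) ^ q)).const_mul (2 * ((1 - β) ^ q / q))
    rw [sub_zero] at l3
    exact le_of_tendsto' l3 fun k => (key L k).2
  have l0 : Tendsto (fun L : ℕ => 1 / 2 / ((L : ℝ) + 1)) atTop (𝓝 0) :=
    tendsto_const_nhds.div_atTop (tendsto_atTop_add_const_right _ _ tendsto_natCast_atTop_atTop)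
  have l1 : Tendsto (fun L : ℕ => len L / (len L + 1)) atTop (𝓝 1) := by
    have := l0.const_sub 1
    rw [sub_zero] at this
    refine this.congr fun L => ?_
    unfold len; field_simp; ring
  have k2 := le_of_tendsto' ((l1.rpow_const (p := q) (Or.inr hq0.le)).const_mul _) k1
  rw [show (1 : ℝ) ^ q = (2 / 2) ^ q by norm_num, const_eq hβ1 hq zero_le_two,
    Real.rpow_le_rpow_iff (by positivity) (key 0 0).1 hq0] at k2
  linarith

theorem best (β q : ℝ) (hβ0 : 0 < β) (hβ1 : β < 1) (hq : q = 1 / (1 - β)) :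
    IsLeast {K : ℝ | ∀ f : ℤ → ℝ, Summable (fun n => |f (n + 1) - f n|) →
      (∃ n, maxFnU β f n ≠ ⊤) → (∀ n, maxFnU β f n ≠ ⊤) ∧
      Summable (fun n => |(maxFnU β f (n + 1)).toReal - (maxFnU β f n).toReal| ^ q) ∧
      (∑' n, |(maxFnU β f (n + 1)).toReal - (maxFnU β f n).toReal| ^ q) ^ (1 / q) ≤
        K * ∑' n, |f (n + 1) - f n|} (2 ^ (-β) * (1 - β) ^ (2 - β)) :=
  ⟨upper hβ0 hβ1 hq, fun _ hC => lower hβ0 hβ1 hq fun f hf h0 => (hC f hf h0).2⟩

end Pool.Agent.P.MP_f9323a_an.Unc
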