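import Pool.Agent.P.MP_f9323a_an.UniC
import Pool.Agent.P.MP_f9323a_an.Main

/-! The variation bound with a constant that does not depend on the order. -/

namespace Pool.Agent.P.MP_f9323a_an

open Finset

variable {α q V : ℝ} {g m : ℤ → ℝ}

theorem av_le (hα1 : α < 1) (hg : ∀ x, 0 ≤ g x) (hm : ∀ c r, A α g c r ≤ m c)
    (hV : ∀ E : Finset ℤ, ∑ e ∈ E, |g (e + 1) - g e| ≤ V) (c : ℤ) (r : ℕ) : av g c r ≤ V := by
  rw [av, div_le_iff₀ (len_pos r), ← card_W c, mul_comm, ← nsmul_eq_mul]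
  refine sum_le_card_nsmul _ _ _ fun y _ => le_of_forall_pos_le_add fun ε hε => ?_
  obtain ⟨z, h1, h2⟩ := exists_low hα1 hg hm hε y
  obtain ⟨n, rfl⟩ := Int.le.dest h1.le
  linarith [(abs_le.1 ((tele g y n).trans (hV _))).1]

theorem rise_sum (hα0 : 3 / 4 ≤ α) (hα1 : α < 1) (hq : α * q = 1) (hg : ∀ x, 0 ≤ g x)
    (hV : ∀ E : Finset ℤ, ∑ e ∈ E, |g (e + 1) - g e| ≤ V) (hm1 : ∀ c r, A α g c r ≤ m c)
    (hm2 : ∀ c b, (∀ r, A α g c r ≤ b) → m c ≤ b) (U : Finset ℤ) (hU : ∀ u ∈ U, m (u - 1) < m u) :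
    ∑ u ∈ U, (m u - m (u - 1)) ^ q ≤ (60000 * V) ^ q := by
  have hα : 0 < α := by linarith
  have hq1 : 1 < q := by nlinarith [(mul_pos_iff_of_pos_left hα).1 (hq ▸ one_pos)]
  have hV0 : 0 ≤ V := by simpa using hV ∅
  have h1 : ∀ u, ∃ r, u ∈ U → Good α g u r := fun u => by
    by_cases hu : u ∈ U
    · exact (attained hα.le hα1.le hg hm1 hm2 (by omega) (by omega) (hU u hu)).imp fun _ h _ => h
    · exact ⟨0, fun h => absurd h hu⟩
  choose ρ hρ using h1
  have h2 : ∀ u ∈ U, A α g u (ρ u) = m u := fun u hu => (hm1 _ _).antisymm (hm2 _ _ (hρ u hu))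
  have h3 := add_le_add
    (short_sum hα.le hα1.le hg hm1 hV ρ U fun u hu => ⟨h2 u hu, (hU u hu).le⟩)
    (long_sum hα0 hα1 hg hm1 hV ρ U fun u hu => ⟨h2 u hu, hU u hu⟩)
  simp only [← sum_add_distrib, ← add_div, sub_add_sub_cancel] at h3
  have h4 : ∀ u ∈ U, (m u - m (u - 1)) ^ q ≤
      (60000 * V) ^ (q - 1) * ((m u - m (u - 1)) / len (ρ u) ^ (1 - α)) := by
    intro u hu
    have h5 := sub_pos.2 (hU u hu)
    have h6 := incr hα hα1.le hq hg hm1 hm2 (c := u) (c' := u - 1) (by omega) (by omega)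
      (hU u hu).le (hρ u hu)
    rw [← mul_div_assoc, ← Real.mul_rpow (by norm_num) (av_nonneg hg _ _)] at h6
    have h7 : (2 * av g u (ρ u)) ^ q ≤ (60000 * V) ^ q := Real.rpow_le_rpow
      (by linarith [av_nonneg hg u (ρ u)]) (by linarith [av_le hα1 hg hm1 hV u (ρ u)]) (by linarith)
    have h8 := Real.rpow_le_rpow (by positivity)
      (h6.trans (div_le_div_of_nonneg_right h7 (len_pos _).le)) (sub_pos.2 hα1).le
    rw [Real.div_rpow (by positivity) (len_pos _).le, ← Real.rpow_mul h5.le,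
      ← Real.rpow_mul (by positivity), show q * (1 - α) = q - 1 by linarith] at h8
    rw [← sub_add_cancel q 1, Real.rpow_add_one h5.ne', add_sub_cancel_right, mul_div_left_comm,
      mul_comm]
    exact mul_le_mul_of_nonneg_left h8 h5.le
  refine (sum_le_sum h4).trans ?_
  rw [← mul_sum]
  conv_rhs => rw [← sub_add_cancel q 1, Real.rpow_add_one' (by positivity) (by linarith)]
  exact mul_le_mul_of_nonneg_left (by linarith) (by positivity)

theorem A_neg (α : ℝ) (g : ℤ → ℝ) (c : ℤ) (r : ℕ) : A α (fun x => g (-x)) c r = A α g (-c) r := by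
  unfold A S
  congr 1
  refine sum_nbij' (fun x => -x) (fun x => -x) ?_ ?_ ?_ ?_ ?_ <;> simp only [mem_W] <;> intros <;>
    first | omega | trivial

theorem finite_near_one (hα0 : 3 / 4 ≤ α) (hα1 : α < 1) (hq : α * q = 1) (hg : ∀ x, 0 ≤ g x)
    (hV : ∀ E : Finset ℤ, ∑ e ∈ E, |g (e + 1) - g e| ≤ V) (hm1 : ∀ c r, A α g c r ≤ m c)
    (hm2 : ∀ c b, (∀ r, A α g c r ≤ b) → m c ≤ b) (F : Finset ℤ) :
    ∑ n ∈ F, |m (n + 1) - m n| ^ q ≤ 2 * (60000 * V) ^ q := by
  classical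
  have hq0 : 0 < q := (mul_pos_iff_of_pos_left (by linarith)).1 (hq ▸ one_pos)
  have h1 := rise_sum hα0 hα1 hq hg hV hm1 hm2
    ((F.filter fun n => m n < m (n + 1)).image fun n => n + 1)
    (forall_mem_image.2 fun n hn => by simpa using (mem_filter.1 hn).2)
  have h2 := rise_sum (g := fun x => g (-x)) (m := fun x => m (-x)) (V := V) hα0 hα1 hq
    (fun x => hg _) (fun E => by
      refine le_trans (le_of_eq ?_) (hV (E.image fun e => -(e + 1)))
      rw [sum_image fun _ _ _ _ h => by simpa using h]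
      exact sum_congr rfl fun e _ => by rw [abs_sub_comm]; congr 3; ring)
    (fun c r => (A_neg α g c r).trans_le (hm1 _ _))
    (fun c b h => hm2 _ _ fun r => (A_neg α g c r).ge.trans (h r))
    ((F.filter fun n => m (n + 1) < m n).image fun n => -n)
    (forall_mem_image.2 fun n hn => by
      rw [neg_neg, show -(-n - 1) = n + 1 by ring]
      exact (mem_filter.1 hn).2)
  rw [sum_image fun _ _ _ _ h => by simpa using h, sum_filter] at h1 h2
  rw [two_mul]
  refine le_trans ?_ (add_le_add h1 h2)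
  rw [← sum_add_distrib]
  refine sum_le_sum fun n _ => le_of_eq ?_
  rw [add_sub_cancel_right, neg_neg, show -(-n - 1) = n + 1 by ring]
  rcases lt_trichotomy (m n) (m (n + 1)) with h | h | h
  · rw [if_pos h, if_neg h.not_gt, add_zero, abs_of_pos (sub_pos.2 h)]
  · simp [h, hq0.ne']
  · rw [if_neg h.not_gt, if_pos h, zero_add, abs_sub_comm, abs_of_pos (sub_pos.2 h)]

theorem K1_le {p : ℝ} (hα0 : 0 < α) (hα1 : α ≤ 3 / 4) (hq : α * (p + 1) = 1) :
    K1 α p ≤ 390 ^ (p + 1) := by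
  have hp : 1 / 3 ≤ p := by nlinarith [(mul_pos_iff_of_pos_left hα0).1 (hq ▸ one_pos)]
  have h1 : (3 : ℝ) ^ α ≤ 12 / 5 := by
    refine (Real.rpow_le_rpow_of_exponent_le (by norm_num) hα1).trans ?_
    refine le_of_pow_le_pow_left₀ four_ne_zero (by norm_num) ?_
    rw [← Real.rpow_natCast, ← Real.rpow_mul (by norm_num)]
    norm_num
  have h2 : (1 - 3 ^ α / 3)⁻¹ ≤ (5 : ℝ) := inv_le_of_inv_le₀ (by norm_num) (by linarith)
  have h3 : 0 ≤ (1 - 3 ^ α / 3 : ℝ)⁻¹ := inv_nonneg.2 (by linarith)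
  have h4 : 1 / ((1 - α) * p) ≤ 12 := by
    rw [div_le_iff₀ (by nlinarith)]
    nlinarith
  have h5 : 0 ≤ 1 / ((1 - α) * p) := div_nonneg zero_le_one (by nlinarith)
  calc K1 α p ≤ 5 * ((7 * 5) ^ p * (3 ^ (1 + p) * (2 * (1 + 12)))) := by
        unfold K1
        gcongr
        · norm_num
        · nlinarith
    _ = (7 * 5 * 3) ^ p * 390 := by
        rw [add_comm 1 p, Real.rpow_add_one (by norm_num),
          Real.mul_rpow (x := 7 * 5) (by norm_num) (by norm_num)]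
        ring
    _ ≤ _ := by
        rw [Real.rpow_add_one (by norm_num)]
        gcongr
        norm_num

theorem finite_unif (hα0 : 0 < α) (hα1 : α < 1) (hq : α * q = 1) (hg : ∀ x, 0 ≤ g x)
    (hV : ∀ E : Finset ℤ, ∑ e ∈ E, |g (e + 1) - g e| ≤ V) (hm1 : ∀ c r, A α g c r ≤ m c)
    (hm2 : ∀ c b, (∀ r, A α g c r ≤ b) → m c ≤ b) (F : Finset ℤ) :
    ∑ n ∈ F, |m (n + 1) - m n| ^ q ≤ (120000 * V) ^ q := by
  have hq1 : 1 < q := by nlinarith [(mul_pos_iff_of_pos_left hα0).1 (hq ▸ one_pos)]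
  have hV0 : 0 ≤ V := by simpa using hV ∅
  refine le_trans (b := 2 * (60000 * V) ^ q) ?_ ?_
  · rcases le_total (3 / 4) α with h | h
    · exact finite_near_one h hα1 hq hg hV hm1 hm2 F
    obtain ⟨p, rfl⟩ : ∃ p, q = p + 1 := ⟨q - 1, by ring⟩
    refine (finite_var hα0 hα1 (by linarith) hq hg hV hm1 hm2 F).trans ?_
    refine mul_le_mul_of_nonneg_left ((mul_le_mul_of_nonneg_left (mul_le_mul_of_nonneg_right
      (K1_le hα0 h hq) (by positivity)) (by positivity)).trans ?_) zero_le_two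
    rw [← Real.mul_rpow (by norm_num) hV0, ← Real.mul_rpow (by norm_num) (by positivity)]
    exact Real.rpow_le_rpow (by positivity) (by linarith) (by linarith)
  · rw [show 120000 * V = 2 * (60000 * V) by ring, Real.mul_rpow (x := 2) (by norm_num) (by positivity)]
    exact mul_le_mul_of_nonneg_right (Real.self_le_rpow_of_one_le (by norm_num) hq1.le)
      (by positivity)

theorem var_unif (β q : ℝ) (hβ0 : 0 < β) (hβ1 : β < 1) (hq : q = 1 / (1 - β)) (f : ℤ → ℝ)
    (hf : Summable fun n => |f (n + 1) - f n|) (h0 : ∃ n, maxFn β f n ≠ ⊤) :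
    (∀ n, maxFn β f n ≠ ⊤) ∧
      Summable (fun n => |(maxFn β f (n + 1)).toReal - (maxFn β f n).toReal| ^ q) ∧
      (∑' n, |(maxFn β f (n + 1)).toReal - (maxFn β f n).toReal| ^ q) ^ (1 / q) ≤
        120000 * ∑' n, |f (n + 1) - f n| := by
  obtain ⟨C, hC⟩ := var_bound β q hβ0 hβ1 hq
  obtain ⟨hfin, hs, -⟩ := hC f hf h0
  refine ⟨hfin, hs, ?_⟩
  have hα0 : 0 < 1 - β := by linarith
  have hq0 : 0 < q := by rw [hq]; positivity
  have hV0 : 0 ≤ ∑' n, |f (n + 1) - f n| := tsum_nonneg fun _ => abs_nonneg _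
  have h1 := finite_unif (g := fun x => |f x|) (m := fun c => (maxFn β f c).toReal) (q := q)
    (V := ∑' n, |f (n + 1) - f n|) hα0 (by linarith) (by rw [hq]; field_simp)
    (fun x => abs_nonneg _)
    (fun E => (sum_le_sum fun e _ => abs_abs_sub_abs_le_abs_sub _ _).trans
      (hf.sum_le_tsum E fun _ _ => abs_nonneg _))
    (fun c r => by
      rw [← ENNReal.ofReal_le_iff_le_toReal (hfin c), maxFn_eq]
      exact le_iSup (fun r : ℕ => ENNReal.ofReal (A (1 - β) (fun x => |f x|) c r)) r)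
    fun c b h => ENNReal.toReal_le_of_le_ofReal ((A_nonneg (fun x => abs_nonneg _) c 0).trans (h 0))
      (by rw [maxFn_eq]; exact iSup_le fun r => ENNReal.ofReal_le_ofReal (h r))
  refine (Real.rpow_le_rpow (tsum_nonneg fun n => by positivity)
    (Real.tsum_le_of_sum_le (fun n => by positivity) h1) (by positivity)).trans_eq ?_
  rw [← Real.rpow_mul (by positivity), mul_one_div_cancel hq0.ne', Real.rpow_one]

end Pool.Agent.P.MP_f9323a_an
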