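import Pool.Agent.P.MP_f9323a_an.Core

/-! Level set bookkeeping: charging intervals of levels to down crossings, sums of hills. -/

namespace Pool.Agent.P.MP_f9323a_an

open Finset MeasureTheory

theorem integrable_ind (a b w : ℝ) : Integrable ((Set.Ico a b).indicator fun _ => w) :=
  (integrableOn_const (by simp)).integrable_indicator measurableSet_Ico

theorem integral_sum_ind {ι : Type*} (I : Finset ι) (a b w : ι → ℝ) :
    ∫ t, ∑ i ∈ I, (Set.Ico (a i) (b i)).indicator (fun _ => w i) t =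
      ∑ i ∈ I, w i * max (b i - a i) 0 := by
  rw [integral_finsetSum _ fun i _ => integrable_ind _ _ _]
  refine sum_congr rfl fun i _ => ?_
  rw [integral_indicator_const _ measurableSet_Ico, Real.volume_real_Ico, smul_eq_mul, mul_comm]

/-- intervals of levels are charged to the first down crossing -/
theorem layer_down {ι : Type*} (I : Finset ι) (a b w : ι → ℝ) (y z : ι → ℤ) {g : ℤ → ℝ}
    {V C : ℝ} (hC : 0 ≤ C) (hV : ∀ E : Finset ℤ, ∑ e ∈ E, |g (e + 1) - g e| ≤ V)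
    (hw : ∀ i ∈ I, 0 ≤ w i) (hz : ∀ i ∈ I, y i < z i ∧ g (z i) ≤ a i) (hy : ∀ i ∈ I, b i ≤ g (y i))
    (hm : ∀ (t : ℝ) (e : ℤ) (J : Finset ι), J ⊆ I → g e ≤ t → (∀ i ∈ J, a i ≤ t ∧ t < b i ∧
      y i < e ∧ e ≤ z i ∧ ∀ x, y i ≤ x → x < e → t < g x) → ∑ i ∈ J, w i ≤ C) :
    ∑ i ∈ I, w i * max (b i - a i) 0 ≤ C * V := by
  classical
  let E := I.biUnion fun i => Icc (y i) (z i)
  have h1 : ∑ e ∈ E, C * max (g e - g (e + 1)) 0 ≤ C * V := by
    rw [← mul_sum]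
    refine mul_le_mul_of_nonneg_left ((sum_le_sum fun e _ => ?_).trans (hV E)) hC
    exact max_le (by rw [abs_sub_comm]; exact le_abs_self _) (abs_nonneg _)
  refine le_trans ?_ h1
  rw [← integral_sum_ind, ← integral_sum_ind E (fun e => g (e + 1)) g fun _ => C]
  refine integral_mono (integrable_finsetSum _ fun i _ => integrable_ind _ _ _)
    (integrable_finsetSum _ fun i _ => integrable_ind _ _ _) fun t => ?_
  let R : ι → ℤ → Prop := fun i e => a i ≤ t ∧ t < b i ∧ y i < e + 1 ∧ e + 1 ≤ z i ∧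
    ∀ x, y i ≤ x → x < e + 1 → t < g x
  have h2 : ∀ i ∈ I, (Set.Ico (a i) (b i)).indicator (fun _ => w i) t ≤
      ∑ e ∈ E, if g (e + 1) ≤ t ∧ R i e then w i else 0 := by
    intro i hi
    have h0 : ∀ e ∈ E, 0 ≤ if g (e + 1) ≤ t ∧ R i e then w i else 0 := fun e _ => by
      split_ifs
      exacts [hw i hi, le_rfl]
    by_cases ht : t ∈ Set.Ico (a i) (b i)
    · obtain ⟨e, ⟨h3, h4⟩, h5⟩ := Int.exists_least_of_bdd (P := fun x => y i < x ∧ g x ≤ t)
        ⟨y i, fun x hx => hx.1.le⟩ ⟨z i, (hz i hi).1, (hz i hi).2.trans ht.1⟩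
      have h6 := h5 _ ⟨(hz i hi).1, (hz i hi).2.trans ht.1⟩
      rw [Set.indicator_of_mem ht]
      refine le_trans ?_ (single_le_sum h0 (a := e - 1)
        (mem_biUnion.2 ⟨i, hi, mem_Icc.2 ⟨by omega, by omega⟩⟩))
      rw [if_pos]
      simp only [R, sub_add_cancel]
      refine ⟨h4, ht.1, ht.2, h3, h6, fun x h7 h8 => ?_⟩
      rcases h7.eq_or_lt with rfl | h7
      · exact ht.2.trans_le (hy i hi)
      · by_contra h9
        have := h5 x ⟨h7, not_lt.1 h9⟩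
        omega
    · rw [Set.indicator_of_notMem ht]
      exact sum_nonneg h0
  refine (sum_le_sum h2).trans ?_
  rw [sum_comm]
  refine sum_le_sum fun e _ => ?_
  rw [← sum_filter]
  by_cases ht : t ∈ Set.Ico (g (e + 1)) (g e)
  · rw [Set.indicator_of_mem ht]
    exact hm t (e + 1) _ (filter_subset _ _) ht.1 fun i hi => (mem_filter.1 hi).2.2
  · rw [Set.indicator_of_notMem ht, filter_false_of_mem, sum_empty]
    rintro i - ⟨h3, -, -, h4, -, h5⟩
    exact ht ⟨h3, h5 e (by omega) (by omega)⟩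

theorem sum_inv_pow_le (T : Finset ℕ) {x : ℝ} (hx : 0 < x) (h : ∀ j ∈ T, x ≤ 2 ^ j) :
    ∑ j ∈ T, 1 / (2 : ℝ) ^ j ≤ 2 / x := by
  rcases T.eq_empty_or_nonempty with rfl | hT
  · rw [sum_empty]
    positivity
  have h1 : T ⊆ Ico (T.min' hT) (T.max' hT + 1) := fun j hj =>
    mem_Ico.2 ⟨min'_le _ _ hj, Nat.lt_succ_of_le (le_max' _ _ hj)⟩
  refine (sum_le_sum_of_subset_of_nonneg h1 fun _ _ _ => by positivity).trans ?_
  simp only [← one_div_pow]
  refine (geom_sum_Ico_le_of_lt_one (by norm_num) (by norm_num)).trans ?_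
  have h2 := one_div_le_one_div_of_le hx (h _ (min'_mem _ hT))
  rw [one_div_pow, div_eq_mul_one_div 2 x, div_le_iff₀ (by norm_num)]
  linarith

/-- mass of `g` between `s` and `t` above the larger endpoint value -/
noncomputable def HM (g : ℤ → ℝ) (s t : ℤ) : ℝ := ∑ z ∈ Ioo s t, max (g z - max (g s) (g t)) 0

theorem HM_nonneg (g : ℤ → ℝ) (s t : ℤ) : 0 ≤ HM g s t := sum_nonneg fun _ _ => le_max_right _ _

theorem hill_sum {g : ℤ → ℝ} {V : ℝ} (hV : ∀ E : Finset ℤ, ∑ e ∈ E, |g (e + 1) - g e| ≤ V)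
    (Ω : Finset (ℕ × ℤ)) (s t : ℕ × ℤ → ℤ) (hs : ∀ w ∈ Ω, (w.2 - 3) * 2 ^ w.1 ≤ s w)
    (ht : ∀ w ∈ Ω, t w ≤ (w.2 + 28) * 2 ^ w.1) :
    ∑ w ∈ Ω, HM g (s w) (t w) / 2 ^ w.1 ≤ 1984 * V := by
  classical
  have h1 := layer_down (Ω.sigma fun w => Ioo (s w) (t w)) (fun i => max (g (s i.1)) (g (t i.1)))
    (fun i => g i.2) (fun i => 1 / 2 ^ i.1.1) (fun i => i.2) (fun i => t i.1) (C := 1984)
    (by norm_num) hV (fun _ _ => by positivity)
    (fun i hi => ⟨(mem_Ioo.1 (mem_sigma.1 hi).2).2, le_max_right _ _⟩) (fun _ _ => le_rfl) ?_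
  · rw [sum_sigma] at h1
    simpa only [HM, sum_div, one_div_mul_eq_div] using h1
  intro l e J hJ he h
  rcases J.eq_empty_or_nonempty with rfl | hne
  · simp
  obtain ⟨i0, hi0, hmin⟩ := exists_min_image J (fun i => i.2) hne
  have h0 := (h i0 hi0).2.2.1
  have h2 : ∀ i ∈ J, (i.1.2 - 3) * 2 ^ i.1.1 ≤ s i.1 ∧ s i.1 < i0.2 ∧ e ≤ (i.1.2 + 28) * 2 ^ i.1.1 := by
    intro i hi
    obtain ⟨h3, h4⟩ := mem_sigma.1 (hJ hi)
    obtain ⟨h5, -, h6, h7, -⟩ := h i hi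
    refine ⟨hs _ h3, ?_, h7.trans (ht _ h3)⟩
    by_contra h8
    exact ((h i0 hi0).2.2.2.2 _ (not_lt.1 h8) ((mem_Ioo.1 h4).1.trans h6)).not_ge
      ((le_max_left _ _).trans h5)
  have h3 : (0 : ℝ) < ((e - i0.2 : ℤ) : ℝ) := by exact_mod_cast sub_pos.2 h0
  rw [← sum_fiberwise_of_maps_to (t := J.image fun i => i.1.1) (g := fun i => i.1.1)
    fun i hi => mem_image_of_mem _ hi]
  have h4 : ∀ j ∈ J.image fun i => i.1.1, ∑ i ∈ J with i.1.1 = j, 1 / (2 : ℝ) ^ i.1.1 ≤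
      32 * ((e - i0.2 : ℤ) : ℝ) * (1 / 2 ^ j) := by
    intro j _
    rw [sum_congr rfl fun i hi => by rw [(mem_filter.1 hi).2], sum_const, nsmul_eq_mul]
    refine mul_le_mul_of_nonneg_right ?_ (by positivity)
    have h5 := card_le_card_of_injOn (s := J.filter fun i => i.1.1 = j)
      (t := Icc (e / 2 ^ j - 28) (e / 2 ^ j + 3) ×ˢ Ico i0.2 e) (fun i => (i.1.2, i.2)) (by
        intro i hi'
        obtain ⟨hi, hj⟩ := mem_filter.1 hi'
        rw [← hj]
        obtain ⟨h6, h7, h8⟩ := h2 i hi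
        have h9 := (Int.le_ediv_iff_mul_le (by positivity)).2 (h6.trans (h7.trans h0).le)
        have h10 := Int.ediv_le_of_le_mul (by positivity) h8
        simp only [coe_product, Set.mem_prod, mem_coe, mem_Icc, mem_Ico]
        exact ⟨⟨by omega, by omega⟩, hmin i hi, (h i hi).2.2.1⟩) (by
        rintro ⟨⟨j1, i1⟩, z1⟩ h6 ⟨⟨j2, i2⟩, z2⟩ h7 h8
        obtain ⟨rfl, rfl⟩ := Prod.mk.inj h8
        obtain rfl : j1 = j2 := (mem_filter.1 h6).2.trans (mem_filter.1 h7).2.symm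
        rfl)
    rw [card_product, Int.card_Icc, Int.card_Ico,
      show (e / 2 ^ j + 3 + 1 - (e / 2 ^ j - 28)).toNat = 32 by omega] at h5
    have h6 : (((e - i0.2).toNat : ℤ) : ℝ) = ((e - i0.2 : ℤ) : ℝ) := by
      rw [Int.toNat_of_nonneg (by omega)]
    rw [← h6]
    exact_mod_cast h5
  refine (sum_le_sum h4).trans ?_
  rw [← mul_sum]
  refine (mul_le_mul_of_nonneg_left (sum_inv_pow_le _ (x := ((e - i0.2 : ℤ) : ℝ) / 31)
    (by positivity) fun j hj => ?_) (by positivity)).trans_eq ?_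
  · obtain ⟨i, hi, rfl⟩ := mem_image.1 hj
    obtain ⟨h6, h7, h8⟩ := h2 i hi
    rw [div_le_iff₀ (by norm_num)]
    have : e - i0.2 ≤ 2 ^ i.1.1 * 31 := by linarith
    exact_mod_cast this
  · field_simp
    norm_num

end Pool.Agent.P.MP_f9323a_an
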