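import Pool.Agent.P.MP_f9323a_an.UniA

/-! Short peaks: windows and hills. -/

namespace Pool.Agent.P.MP_f9323a_an

open Finset

variable {α : ℝ} {g m : ℤ → ℝ}

theorem S_eq_A (α : ℝ) (g : ℤ → ℝ) (c : ℤ) (r : ℕ) : S g c r = A α g c r * len r ^ α :=
  (div_mul_cancel₀ _ (Real.rpow_pos_of_pos (len_pos r) _).ne').symm

theorem S_eq_av (g : ℤ → ℝ) (c : ℤ) (r : ℕ) : S g c r = av g c r * len r :=
  (div_mul_cancel₀ _ (len_pos r).ne').symm

theorem len_split (α : ℝ) (r : ℕ) : len r = len r ^ (1 - α) * len r ^ α := by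
  rw [← Real.rpow_add (len_pos r), sub_add_cancel, Real.rpow_one]

theorem A_eq_av (α : ℝ) (g : ℤ → ℝ) (c : ℤ) (r : ℕ) : A α g c r = av g c r * len r ^ (1 - α) := by
  rw [A, S_eq_av, div_eq_iff (Real.rpow_pos_of_pos (len_pos r) _).ne', mul_assoc, ← len_split]

theorem outside (hα1 : α ≤ 1) (hg : ∀ x, 0 ≤ g x) (hm : ∀ c r, A α g c r ≤ m c) {x y : ℤ}
    {ρ l : ℕ} (hr : A α g x ρ = m x) (hl : 0 < l) (h1 : y - l ≤ x) (h2 : x ≤ y + l) {γ : ℝ}
    (h : γ * (2 * l) ≤ (m x - m y) * len (ρ + l) ^ α) :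
    ∃ z ∈ W y (ρ + l), z ∉ W x ρ ∧ g z ≤ av g x ρ - γ := by
  have hsub : W x ρ ⊆ W y (ρ + l) := fun z hz => by
    rw [mem_W] at hz ⊢
    push_cast
    omega
  have hl0 := len_pos ρ
  have hl1 : (0 : ℝ) < l := by exact_mod_cast hl
  have hlen : len (ρ + l) = len ρ * (1 + 2 * l / len ρ) := by
    field_simp
    unfold len
    push_cast
    ring
  have hcard : (#(W y (ρ + l) \ W x ρ) : ℝ) = 2 * l := by
    rw [card_sdiff_of_subset hsub, Nat.cast_sub (card_le_card hsub), card_W, card_W]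
    unfold len
    push_cast
    ring
  have h3 : len (ρ + l) ^ α ≤ len ρ ^ α * (1 + 2 * l / len ρ) := by
    rw [hlen, Real.mul_rpow hl0.le (by positivity)]
    exact mul_le_mul_of_nonneg_left (Real.rpow_le_self_of_one_le
      (le_add_of_nonneg_right (by positivity)) hα1) (by positivity)
  have h4 := mul_le_mul_of_nonneg_left h3 (A_nonneg (α := α) hg x ρ)
  rw [← mul_assoc, ← S_eq_A, mul_add, mul_one, mul_div_left_comm, ← av, hr] at h4
  have h5 := mul_le_mul_of_nonneg_right (hm y (ρ + l))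
    (Real.rpow_nonneg (len_pos (ρ + l)).le α)
  rw [← S_eq_A, S, ← sum_sdiff hsub, ← S] at h5
  obtain ⟨z, hz, h6⟩ := exists_le_of_sum_le (s := W y (ρ + l) \ W x ρ) (f := g)
    (g := fun _ => av g x ρ - γ) (card_pos.1 (by
      have : (0 : ℝ) < #(W y (ρ + l) \ W x ρ) := by rw [hcard]; positivity
      exact_mod_cast this)) (by rw [sum_const, nsmul_eq_mul, hcard]; linarith)
  exact ⟨z, (mem_sdiff.1 hz).1, (mem_sdiff.1 hz).2, h6⟩

theorem peak (hα1 : α ≤ 1) (hg : ∀ x, 0 ≤ g x) (hm : ∀ c r, A α g c r ≤ m c) {x : ℤ}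
    {ρ lp lq : ℕ} (hr : A α g x ρ = m x) (hp : 0 < lp) (hq : 0 < lq) {γ : ℝ}
    (h1 : γ * (2 * lp) ≤ (m x - m (x - lp)) * len (ρ + lp) ^ α)
    (h2 : γ * (2 * lq) ≤ (m x - m (x + lq)) * len (ρ + lq) ^ α) :
    ∃ s t, x - ρ - 2 * lp ≤ s ∧ t ≤ x + ρ + 2 * lq ∧ len ρ * γ ≤ HM g s t := by
  obtain ⟨s, s1, s2, s3⟩ := outside hα1 hg hm hr hp (by omega) (by omega) h1
  obtain ⟨t, t1, t2, t3⟩ := outside hα1 hg hm hr hq (by omega) (by omega) h2
  rw [mem_W] at s1 s2 t1 t2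
  push_cast at s1 t1
  refine ⟨s, t, by omega, by omega, ?_⟩
  refine le_trans ?_ (sum_le_sum_of_subset_of_nonneg (s := W x ρ)
    (fun z hz => by rw [mem_W] at hz; exact mem_Ioo.2 ⟨by omega, by omega⟩)
    fun _ _ _ => le_max_right _ _)
  refine le_trans ?_ (sum_le_sum fun z _ => le_max_left _ _)
  rw [sum_sub_distrib, ← S, S_eq_av, sum_const, nsmul_eq_mul, card_W]
  nlinarith [max_le s3 t3, len_pos ρ]

/-- minimum of `m` on `[u, u + n]` -/
noncomputable def cm (m : ℤ → ℝ) (u : ℤ) (n : ℕ) : ℝ :=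
  (Icc u (u + n)).inf' (nonempty_Icc.2 (by omega)) m

theorem cm_le {u y : ℤ} {n : ℕ} (h1 : u ≤ y) (h2 : y ≤ u + n) : cm m u n ≤ m y :=
  inf'_le _ (mem_Icc.2 ⟨h1, h2⟩)

theorem exists_cm (m : ℤ → ℝ) (u : ℤ) (n : ℕ) : ∃ y, u ≤ y ∧ y ≤ u + n ∧ cm m u n = m y := by
  obtain ⟨y, h1, h2⟩ := exists_mem_eq_inf' (s := Icc u (u + n)) (nonempty_Icc.2 (by omega)) m
  exact ⟨y, (mem_Icc.1 h1).1, (mem_Icc.1 h1).2, h2⟩

theorem tele_gentle {χ : ℤ → ℝ} {K : ℝ} (B : Finset ℤ) (hB : B.Nonempty)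
    (h : ∀ v ∈ B, ∀ u ∈ B, v < u → χ v - χ (u - 1) ≤ K * (u - v)) :
    ∃ v ∈ B, ∃ v0 ∈ B, v0 ≤ v ∧ ∑ u ∈ B, (χ u - χ (u - 1)) ≤ χ v - χ (v0 - 1) + K * (v - v0) := by
  induction B using Finset.induction_on_max with
  | empty => exact absurd hB not_nonempty_empty
  | insert u B hu ih =>
    rw [sum_insert fun h' => (hu u h').false]
    rcases B.eq_empty_or_nonempty with rfl | hne
    · exact ⟨u, by simp, u, by simp, le_rfl, by simp⟩
    obtain ⟨v, hv, v0, hv0, h1, h2⟩ := ih hne fun v hv w hw =>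
      h v (mem_insert_of_mem hv) w (mem_insert_of_mem hw)
    refine ⟨u, by simp, v0, mem_insert_of_mem hv0, h1.trans (hu v hv).le, ?_⟩
    linarith [h v (mem_insert_of_mem hv) u (by simp) (hu v hv)]

theorem window_short (hα0 : 0 ≤ α) (hα1 : α ≤ 1) (hg : ∀ x, 0 ≤ g x)
    (hm : ∀ c r, A α g c r ≤ m c) (ρ : ℤ → ℕ) {N : ℕ} (hN : 0 < N) (a : ℤ) (U : Finset ℤ)
    (hU : ∀ u ∈ U, A α g u (ρ u) = m u ∧ m (u - 1) ≤ m u ∧ N ≤ 2 * ρ u + 1 ∧ 2 * ρ u + 1 < 2 * N ∧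
      a ≤ u ∧ u < a + N) {D : ℝ} (hD0 : 0 ≤ D)
    (hD : ∀ s t, a - 3 * N ≤ s → t ≤ a + 28 * N → HM g s t ≤ D * N) :
    ∑ u ∈ U, (m u - max (m (u - 1)) (cm m u (3 * (4 * ρ u + 2)))) ≤ 30 * D * N ^ (1 - α) := by
  classical
  have hN1 : (1 : ℝ) ≤ N := by exact_mod_cast hN
  have hNa : (0 : ℝ) < N ^ α := by positivity
  have hlen : ∀ u ∈ U, ∀ l, (N : ℝ) ≤ len (ρ u + l) := fun u hu l => by
    have : N ≤ 2 * (ρ u + l) + 1 := by linarith [(hU u hu).2.2.1, Nat.zero_le l]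
    unfold len
    exact_mod_cast this
  obtain ⟨K, hK⟩ : ∃ K, K = 2 * D / N ^ α := ⟨_, rfl⟩
  have hK0 : 0 ≤ K := by rw [hK]; positivity
  have hKN : K * N = 2 * D * N ^ (1 - α) := by
    rw [hK, Real.rpow_sub (by positivity), Real.rpow_one]
    ring
  have hcard : (#U : ℝ) ≤ N := by
    have := card_le_card (s := U) (t := Ico a (a + N)) fun u hu =>
      mem_Ico.2 (hU u hu).2.2.2.2
    rw [Int.card_Ico, add_sub_cancel_left, Int.toNat_natCast] at this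
    exact_mod_cast this
  rw [← sum_filter_add_sum_filter_not U fun u => m u - m (u - 1) ≤ K]
  have h1 : ∑ u ∈ U with m u - m (u - 1) ≤ K,
      (m u - max (m (u - 1)) (cm m u (3 * (4 * ρ u + 2)))) ≤ K * N := by
    refine (sum_le_card_nsmul _ _ K fun u hu => ?_).trans ?_
    · linarith [(mem_filter.1 hu).2, le_max_left (m (u - 1)) (cm m u (3 * (4 * ρ u + 2)))]
    · rw [nsmul_eq_mul, mul_comm]
      exact mul_le_mul_of_nonneg_left (le_trans (by exact_mod_cast card_filter_le _ _) hcard) hK0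
  generalize hB : U.filter (fun u => ¬m u - m (u - 1) ≤ K) = B
  have hBU : ∀ u ∈ B, u ∈ U ∧ K < m u - m (u - 1) := fun u hu => by
    simpa only [← hB, mem_filter, not_le] using hu
  rcases B.eq_empty_or_nonempty with rfl | hne
  · rw [sum_empty]
    nlinarith [mul_nonneg hD0 (Real.rpow_nonneg (zero_le_one.trans hN1) (1 - α))]
  have gentle : ∀ v ∈ B, ∀ y, v ≤ y → y ≤ v + N → m v - m y ≤ K * (y - v) := by
    intro v hv y h2 h3
    obtain ⟨l, rfl⟩ := Int.le.dest h2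
    rcases l.eq_zero_or_pos with rfl | hl
    · simp
    obtain ⟨hv1, hv2⟩ := hBU v hv
    obtain ⟨u1, -, u2, u3, u4, u5⟩ := hU v hv1
    by_contra h4
    push_cast at h4
    rw [add_sub_cancel_left, not_le, ← lt_div_iff₀ (by exact_mod_cast hl)] at h4
    obtain ⟨K', k1, k2⟩ := exists_between (lt_min hv2 h4)
    have k3 := (lt_min_iff.1 k2).2
    rw [lt_div_iff₀ (by exact_mod_cast hl)] at k3
    have k4 : ∀ l, (N : ℝ) ^ α ≤ len (ρ v + l) ^ α := fun l =>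
      Real.rpow_le_rpow (by positivity) (hlen v hv1 l) hα0
    obtain ⟨s, t, s1, t1, h5⟩ := peak hα1 hg hm u1 one_pos hl (γ := K' * N ^ α / 2)
      (by
        push_cast
        nlinarith [mul_le_mul (lt_min_iff.1 k2).1.le (k4 1) hNa.le (by linarith)])
      (by nlinarith [mul_le_mul k3.le (k4 l) hNa.le (by nlinarith [Nat.cast_nonneg (α := ℝ) l])])
    have h6 := h5.trans (hD s t (by omega) (by omega))
    rw [hK, div_lt_iff₀ hNa] at k1
    have h7 := hlen v hv1 0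
    rw [add_zero] at h7
    nlinarith [mul_le_mul_of_nonneg_right h7 (by linarith : 0 ≤ K' * N ^ α / 2)]
  obtain ⟨ψ, ψ1, ψ2⟩ : ∃ ψ : ℤ → ℝ, (∀ x y, x ≤ y → y ≤ a + 13 * N → ψ x ≤ m y) ∧
      ∀ x, x ≤ a + 13 * N → ∃ y, x ≤ y ∧ y ≤ a + 13 * N ∧ ψ x = m y := by
    refine ⟨fun x => cm m x (a + 13 * N - x).toNat, fun x y h2 h3 => cm_le h2 (by omega),
      fun x hx => ?_⟩
    obtain ⟨y, h2, h3, h4⟩ := exists_cm m x (a + 13 * N - x).toNat
    exact ⟨y, h2, by omega, h4⟩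
  obtain ⟨v, hv, v0, hv0, h2, h3⟩ := tele_gentle (χ := fun x => m x - ψ x) (K := K) B hne (by
    intro v hv u hu h
    obtain ⟨-, -, -, -, v1, v2⟩ := hU v (hBU v hv).1
    obtain ⟨-, -, -, -, u1, u2⟩ := hU u (hBU u hu).1
    obtain ⟨y, y1, y2, y3⟩ := ψ2 v (by omega)
    rcases le_or_gt y (u - 1) with h4 | h4
    · have h5 : (y : ℝ) ≤ u := by exact_mod_cast (by omega : y ≤ u)
      nlinarith [gentle v hv y y1 (by omega), ψ1 (u - 1) (u - 1) le_rfl (by omega)]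
    · have h5 := gentle v hv (u - 1) (by omega) (by omega)
      push_cast at h5
      nlinarith [ψ1 (u - 1) y h4.le y2])
  have h4 : ∑ u ∈ B, (m u - max (m (u - 1)) (cm m u (3 * (4 * ρ u + 2)))) ≤
      ∑ u ∈ B, (m u - ψ u - (m (u - 1) - ψ (u - 1))) := by
    refine sum_le_sum fun u hu => ?_
    obtain ⟨-, -, -, u0, u1, u2⟩ := hU u (hBU u hu).1
    obtain ⟨y, y1, y2, y3⟩ := ψ2 (u - 1) (by omega)
    rcases y1.eq_or_lt with rfl | y1
    · obtain ⟨z, z1, z2, z3⟩ := exists_cm m u (3 * (4 * ρ u + 2))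
      linarith [ψ1 u z z1 (by omega), le_max_right (m (u - 1)) (cm m u (3 * (4 * ρ u + 2)))]
    · linarith [ψ1 u y (by omega) y2, le_max_left (m (u - 1)) (cm m u (3 * (4 * ρ u + 2)))]
  obtain ⟨v1, -, v2, v3, v4, v5⟩ := hU v (hBU v hv).1
  obtain ⟨-, -, -, -, w4, w5⟩ := hU v0 (hBU v0 hv0).1
  have h5 : K * ((v : ℝ) - v0) ≤ K * N :=
    mul_le_mul_of_nonneg_left (by exact_mod_cast (by omega : v - v0 ≤ N)) hK0
  suffices m v - ψ v - (m (v0 - 1) - ψ (v0 - 1)) ≤ 26 * D * N ^ (1 - α) by linarith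
  obtain ⟨q, q1, q2, q3⟩ := ψ2 v (by omega)
  have h6 := ψ1 (v0 - 1) q (by omega) q2
  have h7 := ψ1 (v0 - 1) (v0 - 1) le_rfl (by omega)
  generalize hδ : m v - ψ v - (m (v0 - 1) - ψ (v0 - 1)) = δ
  have hNb : (0 : ℝ) < N ^ (1 - α) := by positivity
  rcases le_or_gt δ 0 with h8 | h8
  · exact h8.trans (by positivity)
  obtain ⟨lq, rfl⟩ := Int.le.dest q1
  obtain ⟨lp, hlp⟩ := Int.le.dest (by omega : v0 - 1 ≤ v)
  have key : ∀ l : ℕ, l ≤ 13 * N → ∀ d, δ ≤ d →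
      δ / (26 * N ^ (1 - α)) * (2 * l) ≤ d * len (ρ v + l) ^ α := by
    intro l hl d hd
    have k1 : 2 * (l : ℝ) ≤ len (ρ v + l) := by
      unfold len
      push_cast
      linarith [Nat.cast_nonneg (α := ℝ) (ρ v)]
    have k2 : (2 * (l : ℝ)) ^ (1 - α) ≤ 26 * N ^ (1 - α) := by
      refine (Real.rpow_le_rpow (by positivity) (show 2 * (l : ℝ) ≤ 26 * N by
        exact_mod_cast (by omega : 2 * l ≤ 26 * N)) (by linarith)).trans ?_
      rw [Real.mul_rpow (by norm_num) (by positivity)]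
      exact mul_le_mul_of_nonneg_right (Real.rpow_le_self_of_one_le (by norm_num) (by linarith))
        hNb.le
    have k3 : 2 * (l : ℝ) ≤ 26 * N ^ (1 - α) * len (ρ v + l) ^ α := by
      refine le_trans ?_ (mul_le_mul k2 (Real.rpow_le_rpow (by positivity) k1 hα0)
        (by positivity) (by positivity))
      rw [← Real.rpow_add' (by positivity) (by norm_num), sub_add_cancel, Real.rpow_one]
    refine (mul_le_mul_of_nonneg_left k3 (by positivity)).trans ?_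
    rw [← mul_assoc, div_mul_cancel₀ _ (by positivity)]
    exact mul_le_mul_of_nonneg_right hd (Real.rpow_nonneg (len_pos _).le _)
  have hq0 : 0 < lq := by
    rcases lq.eq_zero_or_pos with rfl | h9
    · simp only [Nat.cast_zero, add_zero] at q3 h6
      linarith
    · exact h9
  obtain ⟨s, t, s1, t1, h9⟩ := peak hα1 hg hm v1 (lp := lp) (by omega) hq0
    (key lp (by omega) _ (by rw [show v - lp = v0 - 1 by omega]; linarith))
    (key lq (by omega) _ (by linarith))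
  have h10 := hlen v (hBU v hv).1 0
  rw [add_zero] at h10
  have h11 := ((mul_le_mul_of_nonneg_right h10 (by positivity)).trans h9).trans
    (hD s t (by omega) (by omega))
  rw [mul_comm D, mul_le_mul_iff_right₀ (by positivity), div_le_iff₀ (by positivity)] at h11
  linarith

theorem short_sum (hα0 : 0 ≤ α) (hα1 : α ≤ 1) (hg : ∀ x, 0 ≤ g x)
    (hm : ∀ c r, A α g c r ≤ m c) {V : ℝ} (hV : ∀ E : Finset ℤ, ∑ e ∈ E, |g (e + 1) - g e| ≤ V)
    (ρ : ℤ → ℕ) (U : Finset ℤ) (hU : ∀ u ∈ U, A α g u (ρ u) = m u ∧ m (u - 1) ≤ m u) :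
    ∑ u ∈ U, (m u - max (m (u - 1)) (cm m u (3 * (4 * ρ u + 2)))) / len (ρ u) ^ (1 - α) ≤
      30 * (1984 * V) := by
  classical
  have h1 : ∀ w : ℕ × ℤ, ∃ s t : ℤ, (w.2 - 3) * 2 ^ w.1 ≤ s ∧ t ≤ (w.2 + 28) * 2 ^ w.1 ∧
      ∀ s' t', (w.2 - 3) * 2 ^ w.1 ≤ s' → t' ≤ (w.2 + 28) * 2 ^ w.1 → HM g s' t' ≤ HM g s t := by
    intro w
    have h0 : (w.2 - 3) * 2 ^ w.1 ≤ (w.2 + 28) * 2 ^ w.1 :=
      mul_le_mul_of_nonneg_right (by omega) (by positivity)
    obtain ⟨p, hp, h⟩ := exists_max_image (Icc ((w.2 - 3) * 2 ^ w.1) ((w.2 + 28) * 2 ^ w.1) ×ˢ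
      Icc ((w.2 - 3) * 2 ^ w.1) ((w.2 + 28) * 2 ^ w.1)) (fun p => HM g p.1 p.2)
      ((nonempty_Icc.2 h0).product (nonempty_Icc.2 h0))
    simp only [mem_product, mem_Icc] at hp h
    refine ⟨p.1, p.2, hp.1.1, hp.2.2, fun s' t' h2 h3 => ?_⟩
    rcases le_or_gt s' t' with h4 | h4
    · exact h (s', t') ⟨⟨h2, h4.trans h3⟩, h2.trans h4, h3⟩
    · rw [HM, Ioo_eq_empty h4.le.not_gt, sum_empty]
      exact HM_nonneg _ _ _
  choose s t hs ht hst using h1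
  let k : ℤ → ℕ × ℤ := fun u => (Nat.log 2 (2 * ρ u + 1), u / 2 ^ Nat.log 2 (2 * ρ u + 1))
  refine le_trans ?_ (mul_le_mul_of_nonneg_left
    (hill_sum hV (U.image k) s t (fun w _ => hs w) fun w _ => ht w) (by norm_num))
  rw [← sum_fiberwise_of_maps_to (t := U.image k) (g := k) fun i hi => mem_image_of_mem _ hi,
    mul_sum]
  refine sum_le_sum fun w _ => ?_
  have h2 : ∀ u ∈ U.filter fun u => k u = w, A α g u (ρ u) = m u ∧ m (u - 1) ≤ m u ∧
      2 ^ w.1 ≤ 2 * ρ u + 1 ∧ 2 * ρ u + 1 < 2 * 2 ^ w.1 ∧ w.2 * 2 ^ w.1 ≤ u ∧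
        u < w.2 * 2 ^ w.1 + (2 ^ w.1 : ℕ) := by
    intro u hu'
    obtain ⟨hu, hw⟩ := mem_filter.1 hu'
    rw [← hw]
    refine ⟨(hU u hu).1, (hU u hu).2, Nat.pow_log_le_self 2 (by omega), ?_,
      Int.ediv_mul_le _ (by positivity), ?_⟩
    · rw [← pow_succ']
      exact Nat.lt_pow_succ_log_self one_lt_two _
    · push_cast
      rw [← add_one_mul]
      exact Int.lt_ediv_add_one_mul_self _ (by positivity)
  have h3 := window_short hα0 hα1 hg hm ρ (N := 2 ^ w.1) (by positivity) _ _ h2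
    (D := HM g (s w) (t w) / 2 ^ w.1) (div_nonneg (HM_nonneg _ _ _) (by positivity))
    fun s' t' h4 h5 => by
      push_cast at h4 h5 ⊢
      rw [div_mul_cancel₀ _ (by positivity)]
      exact hst w s' t' (by linarith) (by linarith)
  rw [← div_le_iff₀ (by positivity), sum_div] at h3
  refine le_trans (sum_le_sum fun u hu => ?_) h3
  refine div_le_div_of_nonneg_left (sub_nonneg.2 (max_le (h2 u hu).2.1 (cm_le le_rfl (by omega))))
    (by positivity) (Real.rpow_le_rpow (by positivity) ?_ (by linarith))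
  unfold len
  exact_mod_cast (h2 u hu).2.2.1

end Pool.Agent.P.MP_f9323a_an
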