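import Pool.Agent.P.MP_f9323a_an.UniB

/-! Long peaks: charging levels directly to down crossings. -/

namespace Pool.Agent.P.MP_f9323a_an

open Finset Filter

variable {α : ℝ} {g m : ℤ → ℝ}

theorem inside (hα0 : 0 ≤ α) (hα1 : α ≤ 1) (hg : ∀ x, 0 ≤ g x) (hm : ∀ c r, A α g c r ≤ m c)
    {u : ℤ} {ρ : ℕ} (hr : A α g u ρ = m u) (h : m (u - 1) ≤ m u) :
    ∃ y, u ≤ y ∧ y ≤ u + ρ ∧ α * av g u ρ ≤ g y := by
  rcases ρ with _ | r
  · refine ⟨u, le_rfl, by simp, ?_⟩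
    simpa [av, S, W, len] using mul_le_of_le_one_left (hg u) hα1
  have hsub : W (u - 1) r ⊆ W u (r + 1) := fun z hz => by
    rw [mem_W] at hz ⊢
    push_cast
    omega
  have hl0 := len_pos (r + 1)
  have hl1 : len r = len (r + 1) * (1 + -2 / len (r + 1)) := by
    field_simp
    unfold len
    push_cast
    ring
  have hcard : (#(W u (r + 1) \ W (u - 1) r) : ℝ) = 2 := by
    rw [card_sdiff_of_subset hsub, Nat.cast_sub (card_le_card hsub), card_W, card_W]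
    unfold len
    push_cast
    ring
  have h2 : -1 ≤ -2 / len (r + 1) := by
    rw [le_div_iff₀ hl0]
    unfold len
    push_cast
    linarith [Nat.cast_nonneg (α := ℝ) r]
  have h3 : len r ^ α ≤ len (r + 1) ^ α * (1 + α * (-2 / len (r + 1))) := by
    rw [hl1, Real.mul_rpow hl0.le (by linarith)]
    exact mul_le_mul_of_nonneg_left (rpow_one_add_le_one_add_mul_self h2 hα0 hα1) (by positivity)
  have h4 := mul_le_mul ((hm (u - 1) r).trans (h.trans hr.ge)) h3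
    (Real.rpow_nonneg (len_pos r).le _) (A_nonneg hg _ _)
  rw [← S_eq_A, ← mul_assoc, ← S_eq_A, S_eq_av g u] at h4
  have h5 := sum_sdiff (f := g) hsub
  rw [← S, ← S, S_eq_av g u] at h5
  obtain ⟨z, hz, h6⟩ := exists_le_of_sum_le (s := W u (r + 1) \ W (u - 1) r) (g := g)
    (f := fun _ => α * av g u (r + 1)) (card_pos.1 (by
      have : (0 : ℝ) < #(W u (r + 1) \ W (u - 1) r) := by rw [hcard]; positivity
      exact_mod_cast this)) (by
      rw [sum_const, nsmul_eq_mul, hcard]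
      have : av g u (r + 1) * len (r + 1) * (1 + α * (-2 / len (r + 1))) =
        av g u (r + 1) * len (r + 1) - 2 * (α * av g u (r + 1)) := by field_simp; ring
      linarith)
  rw [Finset.mem_sdiff, mem_W, mem_W] at hz
  push_cast at hz ⊢
  exact ⟨z, by omega, by omega, h6⟩

theorem low_point (hm : ∀ c r, A α g c r ≤ m c) {x : ℤ} {σ : ℕ} {l : ℝ}
    (h : m x ≤ l * len σ ^ (1 - α)) : ∃ z, x - σ ≤ z ∧ z ≤ x + σ ∧ g z ≤ l := by
  have h1 := (hm x σ).trans h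
  rw [A_eq_av, mul_le_mul_iff_left₀ (Real.rpow_pos_of_pos (len_pos σ) _), av,
    div_le_iff₀ (len_pos σ)] at h1
  obtain ⟨z, hz, h2⟩ := exists_le_of_sum_le (W_nonempty x σ) (f := g) (g := fun _ => l)
    (by rwa [sum_const, nsmul_eq_mul, card_W, mul_comm])
  exact ⟨z, (mem_W.1 hz).1, (mem_W.1 hz).2, h2⟩

theorem mass (hg : ∀ x, 0 ≤ g x) (hm : ∀ c r, A α g c r ≤ m c) {a c : ℤ} {n r : ℕ} {l : ℝ}
    (hl : 0 ≤ l) (h1 : ∀ x, a ≤ x → x < a + n → l < g x) (h2 : c - r ≤ a) (h3 : a + n ≤ c + r + 1)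
    {κ : ℕ} (h4 : 2 * r + 1 ≤ κ * n) : l * len r ^ (1 - α) ≤ κ * m c := by
  have h5 : (n : ℝ) * l ≤ S g c r := by
    refine le_trans ?_ (sum_le_sum_of_subset_of_nonneg (s := Ico a (a + n))
      (fun z hz => by rw [mem_Ico] at hz; exact mem_W.2 ⟨by omega, by omega⟩) fun _ _ _ => hg _)
    refine le_trans ?_ (card_nsmul_le_sum _ _ l fun x hx =>
      (h1 x (mem_Ico.1 hx).1 (mem_Ico.1 hx).2).le)
    simp
  have h6 : len r ≤ κ * n := by
    unfold len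
    exact_mod_cast h4
  refine le_trans ?_ (mul_le_mul_of_nonneg_left (hm c r) (Nat.cast_nonneg _))
  rw [A_eq_av, ← mul_assoc]
  refine mul_le_mul_of_nonneg_right ?_ (Real.rpow_nonneg (len_pos r).le _)
  rw [av, ← mul_div_assoc, le_div_iff₀ (len_pos r)]
  nlinarith [mul_le_mul_of_nonneg_left h5 (Nat.cast_nonneg κ)]

theorem exists_low (hα1 : α < 1) (hg : ∀ x, 0 ≤ g x) (hm : ∀ c r, A α g c r ≤ m c) {l : ℝ}
    (hl : 0 < l) (x : ℤ) : ∃ z, x < z ∧ g z ≤ l := by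
  by_contra h
  push Not at h
  have h1 : Tendsto (fun r : ℕ => l * len r ^ (1 - α)) atTop atTop :=
    ((tendsto_rpow_atTop (by linarith)).comp (tendsto_atTop_add_const_right _ 1
      (tendsto_natCast_atTop_atTop.const_mul_atTop two_pos))).const_mul_atTop hl
  obtain ⟨r, h2, h3⟩ := ((h1.eventually_gt_atTop ((3 : ℕ) * m x)).and (eventually_ge_atTop 1)).exists
  exact h2.not_ge (mass hg hm (a := x + 1) (n := r) hl.le (fun y h4 _ => h y (by omega)) (by omega)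
    (by omega) (by omega))

theorem len_rpow_mono (hα1 : α ≤ 1) {r s κ : ℕ} (h : 2 * r + 1 ≤ κ * (2 * s + 1)) :
    len r ^ (1 - α) ≤ κ ^ (1 - α) * len s ^ (1 - α) := by
  rw [← Real.mul_rpow (Nat.cast_nonneg _) (len_pos s).le]
  refine Real.rpow_le_rpow (len_pos r).le ?_ (by linarith)
  unfold len
  exact_mod_cast h

theorem len_rpow_le (hα0 : 0 ≤ α) (hα1 : α ≤ 1) {r s κ : ℕ} (hκ : 1 ≤ κ)
    (h : 2 * r + 1 ≤ κ * (2 * s + 1)) : len r ^ (1 - α) ≤ κ * len s ^ (1 - α) :=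
  (len_rpow_mono hα1 h).trans (mul_le_mul_of_nonneg_right (Real.rpow_le_self_of_one_le
    (by exact_mod_cast hκ) (by linarith)) (Real.rpow_nonneg (len_pos s).le _))

theorem scale_sep (hα0 : 0 ≤ α) (hα1 : α ≤ 1) (hg : ∀ x, 0 ≤ g x) (hm : ∀ c r, A α g c r ≤ m c)
    {u y u' y' e : ℤ} {ρ ρ' : ℕ} {l M : ℝ} (hl : 0 < l) (h1 : len ρ ^ (1 - α) ≤ 2 * M)
    (h2 : m u ≤ 30 * M * l) (h3 : u ≤ y) (h4 : y ≤ u + ρ) (h5 : y < e)
    (h6 : ∀ x, y ≤ x → x < e → l < g x) (k1 : 256 * M ≤ len ρ' ^ (1 - α)) (k2 : l < av g u' ρ')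
    (k3 : u' ≤ y') (k4 : y' ≤ u' + ρ') (k5 : y' < e) (k6 : ∀ x, y' ≤ x → x < e → l < g x) :
    False := by
  have hM : 0 < M := by linarith [Real.rpow_pos_of_pos (len_pos ρ) (1 - α)]
  obtain ⟨D, rfl⟩ := Int.le.dest (h3.trans h5.le)
  have a1 : len D ^ (1 - α) ≤ 180 * M := by
    rcases le_or_gt (2 * ρ) D with h | h
    · obtain ⟨n, hn⟩ := Int.le.dest h5.le
      have := mass hg hm (a := y) (c := u) (n := n) (r := D) (κ := 6) hl.le
        (fun x h7 h8 => h6 x h7 (by omega)) (by omega) (by omega) (by omega)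
      push_cast at this
      nlinarith
    · have := len_rpow_le hα0 hα1 (r := D) (s := ρ) (κ := 2) (by omega) (by omega)
      push_cast at this
      linarith
  have a2 : D < ρ' := by
    by_contra h
    have := len_rpow_le hα0 hα1 (r := ρ') (s := D) (κ := 1) le_rfl (by omega)
    push_cast at this
    linarith
  rcases le_or_gt y' (u + D - ρ') with h | h
  · have := mass hg hm (a := u + D - ρ') (c := u) (n := ρ') (r := ρ') (κ := 3) hl.le
      (fun x h7 h8 => k6 x (by omega) (by omega)) (by omega) (by omega) (by omega)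
    push_cast at this
    nlinarith
  · have a3 := A_cover hα0 hα1 hg (c := u') (c' := u) (r := ρ') (t := 3 * ρ') (K := 3)
      (by push_cast; omega) (by push_cast; omega) (by norm_num) (by unfold len; push_cast; linarith)
    rw [A_eq_av] at a3
    nlinarith [hm u (3 * ρ'), mul_le_mul k2.le k1 (by positivity) (hl.le.trans k2.le)]

/-- the pair `(u, σ)` is charged at level `l` to the crossing `e` -/
structure Act (α : ℝ) (g m : ℤ → ℝ) (l : ℝ) (e : ℤ) (T : ℕ) (u : ℤ) (σ : ℕ) : Prop where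
  le : σ ≤ T
  lo : m (u - 1) ≤ l * len σ ^ (1 - α)
  hi : l * len σ ^ (1 - α) < cm m u (3 * σ)
  nx : σ < T → cm m u (3 * (σ + 1)) ≤ l * len σ ^ (1 - α)
  ex : ∃ y, u ≤ y ∧ y ≤ u + σ ∧ y < e ∧ ∀ x, y ≤ x → x < e → l < g x

variable {l : ℝ} {e u u' u'' : ℤ} {T σ σ' σ'' : ℕ}

theorem lev_mono (hα1 : α ≤ 1) (hl : 0 < l) (h : σ ≤ σ') :
    l * len σ ^ (1 - α) ≤ l * len σ' ^ (1 - α) := by
  have := len_rpow_mono hα1 (r := σ) (s := σ') (κ := 1) (by omega)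
  rw [Nat.cast_one, Real.one_rpow, one_mul] at this
  exact mul_le_mul_of_nonneg_left this hl.le

theorem Act.nlt (hα1 : α ≤ 1) (hl : 0 < l) (h : Act α g m l e T u σ) (h' : Act α g m l e T u σ') :
    ¬σ < σ' := fun h1 => by
  obtain ⟨q, q1, q2, q3⟩ := exists_cm m u (3 * (σ + 1))
  linarith [h.nx (h1.trans_le h'.le), h'.hi, lev_mono hα1 hl h1.le,
    cm_le (m := m) (n := 3 * σ') q1 (by omega)]

theorem Act.two (hα1 : α ≤ 1) (hm : ∀ c r, A α g c r ≤ m c) (hl : 0 < l)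
    (h : Act α g m l e T u σ) (h' : Act α g m l e T u' σ') (hu : u < u') :
    u + 3 * σ < u' ∧ e < u' + σ := by
  obtain ⟨q, q1, q2, q3⟩ : ∃ q, u ≤ q ∧ q < u' ∧ m q ≤ l * len σ ^ (1 - α) := by
    by_contra h1
    push Not at h1
    have h2 : σ < σ' := by
      by_contra h2
      linarith [h1 (u' - 1) (by omega) (by omega), h'.lo, lev_mono hα1 hl (not_lt.1 h2)]
    obtain ⟨q, q1, q2, q3⟩ := exists_cm m u (3 * (σ + 1))
    have h3 := h.nx (h2.trans_le h'.le)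
    rcases lt_or_ge q u' with h4 | h4
    · linarith [h1 q q1 h4]
    · linarith [h'.hi, lev_mono hα1 hl h2.le, cm_le (m := m) (n := 3 * σ') h4 (by omega)]
  have h2 : u + 3 * σ < q := by
    by_contra h2
    linarith [h.hi, cm_le (m := m) (n := 3 * σ) q1 (by omega)]
  obtain ⟨z, z1, z2, z3⟩ := low_point hm q3
  obtain ⟨y, y1, y2, y3, y4⟩ := h.ex
  refine ⟨by omega, ?_⟩
  by_contra h3
  exact (y4 z (by omega) (by omega)).not_ge z3

theorem Act.three (hα1 : α ≤ 1) (hm : ∀ c r, A α g c r ≤ m c) (hl : 0 < l)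
    (h : Act α g m l e T u σ) (h' : Act α g m l e T u' σ') (h'' : Act α g m l e T u'' σ'')
    (hu : u < u') (hu' : u' < u'') : False := by
  obtain ⟨a1, a2⟩ := h.two hα1 hm hl h' hu
  obtain ⟨a3, -⟩ := h'.two hα1 hm hl h'' hu'
  obtain ⟨z, z1, z2, z3⟩ := low_point hm h'.lo
  obtain ⟨y, y1, y2, y3, y4⟩ := h.ex
  obtain ⟨y', y5, -, y6, -⟩ := h''.ex
  exact (y4 z (by omega) (by omega)).not_ge z3

theorem card_act (hα1 : α ≤ 1) (hm : ∀ c r, A α g c r ≤ m c) (hl : 0 < l)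
    (J : Finset (Σ _ : ℤ, ℕ)) (h : ∀ i ∈ J, Act α g m l e T i.1 i.2) : #J ≤ 2 := by
  by_contra h1
  obtain ⟨a, b, c, ha, hb, hc, hab, hac, hbc⟩ := two_lt_card_iff.1 (not_le.1 h1)
  have h2 : ∀ i ∈ J, ∀ j ∈ J, i ≠ j → i.1 ≠ j.1 := by
    rintro ⟨u, σ⟩ hi ⟨u', σ'⟩ hj h2 (rfl : u = u')
    obtain rfl : σ = σ' := le_antisymm (not_lt.1 ((h _ hj).nlt hα1 hl (h _ hi)))
      (not_lt.1 ((h _ hi).nlt hα1 hl (h _ hj)))
    exact h2 rfl
  have h3 : ∀ i ∈ J, ∀ j ∈ J, ∀ k ∈ J, i.1 < j.1 → ¬j.1 < k.1 := fun i hi j hj k hk =>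
    (h i hi).three hα1 hm hl (h j hj) (h k hk)
  have := h2 a ha b hb hab
  have := h2 a ha c hc hac
  have := h2 b hb c hc hbc
  have := h3 a ha b hb c hc
  have := h3 a ha c hc b hb
  have := h3 b hb a ha c hc
  have := h3 b hb c hc a ha
  have := h3 c hc a ha b hb
  have := h3 c hc b hb a ha
  omega

theorem one_le_mul_rpow (hα0 : 3 / 4 ≤ α) (hα1 : α ≤ 1) : 1 ≤ α * 4 ^ (1 - α) := by
  have h1 : 4 / 3 ≤ Real.log 4 := by
    rw [show (4 : ℝ) = 2 ^ 2 by norm_num, Real.log_pow]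
    push_cast
    linarith [Real.log_two_gt_d9]
  have h2 := Real.add_one_le_exp (Real.log 4 * (1 - α))
  rw [← Real.rpow_def_of_pos (by norm_num)] at h2
  have h3 : 4 / 3 * (1 - α) + 1 ≤ 4 ^ (1 - α) := by nlinarith
  nlinarith

theorem long_sum (hα0 : 3 / 4 ≤ α) (hα1 : α < 1) (hg : ∀ x, 0 ≤ g x)
    (hm : ∀ c r, A α g c r ≤ m c) {V : ℝ} (hV : ∀ E : Finset ℤ, ∑ e ∈ E, |g (e + 1) - g e| ≤ V)
    (ρ : ℤ → ℕ) (U : Finset ℤ) (hU : ∀ u ∈ U, A α g u (ρ u) = m u ∧ m (u - 1) < m u) :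
    ∑ u ∈ U, (max (m (u - 1)) (cm m u (3 * (4 * ρ u + 2))) - m (u - 1)) / len (ρ u) ^ (1 - α) ≤
      160 * V := by
  classical
  have hα : 0 ≤ α := by linarith
  have hp : ∀ r, 0 < len r ^ (1 - α) := fun r => Real.rpow_pos_of_pos (len_pos r) _
  obtain ⟨k, hk⟩ : ∃ k : ℤ → ℕ, ∀ u, (2 : ℝ) ^ k u ≤ len (ρ u) ^ (1 - α) ∧
      len (ρ u) ^ (1 - α) ≤ 2 * 2 ^ k u := by
    refine ⟨fun u => Nat.log 2 ⌊len (ρ u) ^ (1 - α)⌋₊, fun u => ⟨?_, ?_⟩⟩
    · refine le_trans ?_ (Nat.floor_le (hp _).le)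
      exact_mod_cast Nat.pow_log_le_self 2 (Nat.floor_pos.2
        (Real.one_le_rpow (len_ge _) (by linarith))).ne'
    · refine (Nat.lt_floor_add_one _).le.trans ?_
      rw [← pow_succ']
      exact_mod_cast Nat.lt_pow_succ_log_self one_lt_two _
  obtain ⟨T, hT⟩ : ∃ T : ℕ → ℕ, ∀ u ∈ U, 4 * ρ u + 2 ≤ T (k u) ∧
      len (T (k u)) ^ (1 - α) ≤ 10 * 2 ^ k u := by
    refine ⟨fun j => (U.filter fun u => k u = j).sup fun u => 4 * ρ u + 2, fun u hu =>
      ⟨le_sup (f := fun u => 4 * ρ u + 2) (mem_filter.2 ⟨hu, rfl⟩), ?_⟩⟩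
    obtain ⟨v, h1, h2⟩ := exists_mem_eq_sup (U.filter fun v => k v = k u)
      ⟨u, mem_filter.2 ⟨hu, rfl⟩⟩ fun u => 4 * ρ u + 2
    have h3 := len_rpow_le hα hα1.le (r := 4 * ρ v + 2) (s := ρ v) (κ := 5) (by omega) (by omega)
    have h4 := (hk v).2
    rw [(mem_filter.1 h1).2] at h4
    simp only [h2]
    push_cast at h3
    linarith
  have h3m : ∀ u ∈ U, m u ≤ 3 * m (u - 1) := fun u hu => by
    have := A_cover hα hα1.le hg (c := u) (c' := u - 1) (r := ρ u) (t := ρ u + 1) (K := 3)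
      (by push_cast; omega) (by push_cast; omega) (by norm_num)
      (by unfold len; push_cast; linarith [Nat.cast_nonneg (α := ℝ) (ρ u)])
    linarith [(hU u hu).1, hm (u - 1) (ρ u + 1)]
  obtain ⟨f, hf⟩ : ∃ f : ℤ → ℕ → ℝ, ∀ u σ, f u σ =
    if σ ≤ T (k u) then max (m (u - 1)) (cm m u (3 * σ)) else m (u - 1) := ⟨_, fun _ _ => rfl⟩
  have hf1 : ∀ u σ, m (u - 1) ≤ f u σ := fun u σ => by
    rw [hf]
    split_ifs
    exacts [le_max_left _ _, le_rfl]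
  have hf2 : ∀ u ∈ U, ∀ σ, f u σ ≤ m u := fun u hu σ => by
    rw [hf]
    split_ifs
    exacts [max_le (hU u hu).2.le (cm_le le_rfl (by omega)), (hU u hu).2.le]
  have hy : ∀ u, ∃ y, u ∈ U → u ≤ y ∧ y ≤ u + ρ u ∧ α * av g u (ρ u) ≤ g y := fun u => by
    by_cases hu : u ∈ U
    · exact (inside hα hα1.le hg hm (hU u hu).1 (hU u hu).2.le).imp fun _ h _ => h
    · exact ⟨0, fun h => absurd h hu⟩
  choose y hy using hy
  have hz : ∀ i : Σ _ : ℤ, ℕ, ∃ z, i.1 ∈ U →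
      y i.1 < z ∧ g z ≤ f i.1 (i.2 + 1) / len i.2 ^ (1 - α) := fun i => by
    by_cases hu : i.1 ∈ U
    · exact (exists_low hα1 hg hm (div_pos (by
        linarith [hf1 i.1 (i.2 + 1), h3m _ hu, (hU _ hu).2]) (hp _)) _).imp fun _ h _ => h
    · exact ⟨0, fun h => absurd h hu⟩
  choose z hz using hz
  have hb : ∀ u ∈ U, ∀ σ, 4 * ρ u + 2 ≤ σ → f u σ / len σ ^ (1 - α) ≤ α * av g u (ρ u) := by
    intro u hu σ h
    have h1 : (4 * len (ρ u)) ^ (1 - α) ≤ len σ ^ (1 - α) := Real.rpow_le_rpow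
      (by linarith [len_pos (ρ u)]) (by unfold len; exact_mod_cast (by omega)) (by linarith)
    rw [Real.mul_rpow (by norm_num) (len_pos _).le] at h1
    rw [div_le_iff₀ (hp _)]
    refine (hf2 u hu σ).trans ?_
    rw [← (hU u hu).1, A_eq_av]
    have h2 := mul_nonneg (av_nonneg hg u (ρ u)) (hp (ρ u)).le
    nlinarith [mul_le_mul_of_nonneg_left h1 (mul_nonneg hα (av_nonneg hg u (ρ u))),
      mul_le_mul_of_nonneg_left (one_le_mul_rpow hα0 hα1.le) h2]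
  refine le_trans ?_ (layer_down (U.sigma fun u => Ico (4 * ρ u + 2) (T (k u) + 1))
    (fun i => f i.1 (i.2 + 1) / len i.2 ^ (1 - α)) (fun i => f i.1 i.2 / len i.2 ^ (1 - α))
    (fun _ => 10) (fun i => y i.1) z (by norm_num) hV (fun _ _ => by norm_num)
    (fun i hi => hz i (mem_sigma.1 hi).1) (fun i hi => (hb _ (mem_sigma.1 hi).1 _
      (mem_Ico.1 (mem_sigma.1 hi).2).1).trans (hy _ (mem_sigma.1 hi).1).2.2) ?_)
  · rw [sum_sigma]
    refine sum_le_sum fun u hu => ?_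
    have h1 := sum_Ico_sub (f u) (Nat.add_le_add_right (hT u hu).1 1 |>.trans' (Nat.le_succ _))
    rw [hf u (T (k u) + 1), if_neg (by omega), hf u (4 * ρ u + 2), if_pos (hT u hu).1] at h1
    rw [← neg_sub, ← h1, ← sum_neg_distrib, sum_div]
    refine sum_le_sum fun σ hσ => ?_
    have h2 := ((lev_mono hα1.le one_pos (Nat.lt_succ_iff.1 (mem_Ico.1 hσ).2)).trans
      (one_mul _).le).trans ((hT u hu).2.trans (mul_le_mul_of_nonneg_left (hk u).1 (by norm_num)))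
    rw [one_mul] at h2
    rw [← sub_div, neg_sub, ← zero_div (len σ ^ (1 - α)), max_div_div_right (hp _).le,
      div_le_iff₀ (hp _), mul_right_comm]
    refine (le_max_left _ 0).trans ?_
    rw [← mul_div_assoc, le_div_iff₀ (hp _), mul_comm]
    exact mul_le_mul_of_nonneg_right h2 (le_max_right _ _)
  intro l e J hJ he h
  rcases J.eq_empty_or_nonempty with rfl | hne
  · simp
  have h0 : ∀ i ∈ J, i.1 ∈ U ∧ 4 * ρ i.1 + 2 ≤ i.2 ∧ i.2 ≤ T (k i.1) := fun i hi => by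
    simpa only [mem_sigma, mem_Ico, Nat.lt_succ_iff] using hJ hi
  have h1 : ∀ i ∈ J, Act α g m l e (T (k i.1)) i.1 i.2 := by
    intro i hi
    obtain ⟨a1, a2, a3⟩ := h0 i hi
    obtain ⟨a4, a5, a6, -, a7⟩ := h i hi
    rw [div_le_iff₀ (hp _)] at a4
    rw [lt_div_iff₀ (hp _), hf, if_pos a3, lt_max_iff] at a5
    refine ⟨a3, (hf1 _ _).trans a4, a5.resolve_left ((hf1 _ _).trans a4).not_gt, fun a8 => ?_,
      y i.1, (hy _ a1).1, by linarith [(hy _ a1).2.1], a6, a7⟩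
    rw [hf, if_pos (Nat.succ_le_of_lt a8)] at a4
    exact (le_max_right _ _).trans a4
  obtain ⟨i0, hi0, hmin⟩ := exists_min_image J (fun i => k i.1) hne
  obtain ⟨b1, b2, b3⟩ := h0 i0 hi0
  have hl : 0 < l := (mul_pos_iff_of_pos_right (hp i0.2)).1
    (by linarith [(h1 i0 hi0).lo, h3m _ b1, (hU _ b1).2])
  have h2 : ∀ i ∈ J, k i.1 ∈ Ico (k i0.1) (k i0.1 + 8) := by
    intro i hi
    refine mem_Ico.2 ⟨hmin i hi, not_le.1 fun h2 => ?_⟩
    obtain ⟨a1, a2, a3⟩ := h0 i hi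
    refine scale_sep hα hα1.le hg hm hl (hk i0.1).2 ?_ (hy _ b1).1 (hy _ b1).2.1
      (h i0 hi0).2.2.1 (h i0 hi0).2.2.2.2 (le_trans ?_ (hk i.1).1) ?_ (hy _ a1).1 (hy _ a1).2.1
      (h i hi).2.2.1 (h i hi).2.2.2.2
    · linarith [h3m _ b1, (h1 i0 hi0).lo, lev_mono hα1.le hl b3,
        mul_le_mul_of_nonneg_left (hT _ b1).2 hl.le]
    · refine le_trans ?_ (pow_le_pow_right₀ one_le_two h2)
      rw [pow_add]
      linarith
    · exact ((h i hi).2.1.trans_le (hb _ a1 _ a2)).trans_le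
        (mul_le_of_le_one_left (av_nonneg hg _ _) hα1.le)
  have h3 := card_le_mul_card_image_of_maps_to h2 2 fun j _ =>
    card_act (T := T j) hα1.le hm hl _ fun i hi => by
      simpa only [(mem_filter.1 hi).2] using h1 i (mem_filter.1 hi).1
  rw [Nat.card_Ico, add_tsub_cancel_left] at h3
  rw [sum_const, nsmul_eq_mul]
  have : (#J : ℝ) ≤ 16 := by exact_mod_cast h3
  linarith

end Pool.Agent.P.MP_f9323a_an
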