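import Pool.Agent.P.MP_f9323a_an.ShpB

open Pool.Agent.P.MP_f9323a_an

theorem Pool.Agent.P.MP_f9323a_an.VariantSharpOrder.result :
    ∀ β q : ℝ, 1 / 2 ≤ β → β < 1 → q = 1 / (1 - β) →
      ∃ C : ℝ, (1 - β) ^ (2 - β) ≤ C ∧ C ≤ (1 - β) * 20000 ^ (1 - β) ∧
        IsLeast {K : ℝ | ∀ f : ℤ → ℝ, Summable (fun n => |f (n + 1) - f n|) →
          (∃ n, maxFn β f n ≠ ⊤) → (∀ n, maxFn β f n ≠ ⊤) ∧
          Summable (fun n => |(maxFn β f (n + 1)).toReal - (maxFn β f n).toReal| ^ q) ∧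
          (∑' n, |(maxFn β f (n + 1)).toReal - (maxFn β f n).toReal| ^ q) ^ (1 / q) ≤
            K * ∑' n, |f (n + 1) - f n|} C :=
  shp_best
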